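import Pool.Agent.Lib.MP_0f9b7a_co.Defs

section
set_option autoImplicit false

namespace Pool.Agent.Lib.MP_0f9b7a_co

open scoped Classical

theorem incidences_le (P : Finset R3) (H : Finset (AffineSubspace ℝ R3)) :
    incidences P H ≤ P.card * H.card := by
  unfold incidences
  refine (Finset.card_filter_le _ _).trans ?_
  rw [Finset.card_product]

theorem values_bddAbove (s m n : ℕ) : BddAbove (values s m n) := by
  refine ⟨m * n, ?_⟩
  rintro k ⟨P, H, hP, hH, -, -, rfl⟩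
  rw [← hP, ← hH]
  exact incidences_le P H

theorem le_f_of_mem {s m n k : ℕ} (hk : k ∈ values s m n) : k ≤ f s m n :=
  le_csSup (values_bddAbove s m n) hk

theorem KFree.mono {s t : ℕ} (hst : s ≤ t) {P : Finset R3} {H : Finset (AffineSubspace ℝ R3)}
    (h : KFree s P H) : KFree t P H := by
  intro A hA B hB hAc hBc
  obtain ⟨A', hA', hA'c⟩ := Finset.exists_subset_card_eq (hAc ▸ hst)
  obtain ⟨B', hB', hB'c⟩ := Finset.exists_subset_card_eq (hBc ▸ hst)
  obtain ⟨p, hp, q, hq, hpq⟩ := h A' (hA'.trans hA) B' (hB'.trans hB) hA'c hB'c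
  exact ⟨p, hA' hp, q, hB' hq, hpq⟩

theorem incidences_mono {P P' : Finset R3} {H H' : Finset (AffineSubspace ℝ R3)}
    (hP : P ⊆ P') (hH : H ⊆ H') : incidences P H ≤ incidences P' H' := by
  unfold incidences
  apply Finset.card_le_card
  intro q hq
  simp only [Finset.mem_filter, Finset.mem_product] at hq ⊢
  exact ⟨⟨hP hq.1.1, hH hq.1.2⟩, hq.2⟩

/-- The point with the given coordinates. -/
noncomputable def pt (v : ℝ × ℝ × ℝ) : R3 := !₂[v.1, v.2.1, v.2.2]

@[simp] theorem pt_zero (v : ℝ × ℝ × ℝ) : (pt v) 0 = v.1 := by simp [pt]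
@[simp] theorem pt_one (v : ℝ × ℝ × ℝ) : (pt v) 1 = v.2.1 := by simp [pt]
@[simp] theorem pt_two (v : ℝ × ℝ × ℝ) : (pt v) 2 = v.2.2 := by simp [pt]

theorem pt_injective : Function.Injective pt := by
  intro v w h
  have h0 : (pt v) 0 = (pt w) 0 := by rw [h]
  have h1 : (pt v) 1 = (pt w) 1 := by rw [h]
  have h2 : (pt v) 2 = (pt w) 2 := by rw [h]
  simp only [pt_zero, pt_one, pt_two] at h0 h1 h2
  ext <;> assumption

/-- The linear functional `v ↦ v 2 - a * v 0 - b * v 1`. -/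
noncomputable def lin (a b : ℝ) : R3 →ₗ[ℝ] ℝ where
  toFun v := v 2 - a * v 0 - b * v 1
  map_add' v w := by simp; ring
  map_smul' c v := by simp; ring

theorem lin_apply (a b : ℝ) (v : R3) : lin a b v = v 2 - a * v 0 - b * v 1 := rfl

/-- The plane `z = a x + b y + c`. -/
noncomputable def pl (w : ℝ × ℝ × ℝ) : AffineSubspace ℝ R3 :=
  AffineSubspace.mk' (pt (0, 0, w.2.2)) (LinearMap.ker (lin w.1 w.2.1))

theorem mem_pl (v : R3) (w : ℝ × ℝ × ℝ) :
    v ∈ pl w ↔ v 2 = w.1 * v 0 + w.2.1 * v 1 + w.2.2 := by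
  unfold pl
  rw [AffineSubspace.mem_mk', LinearMap.mem_ker, lin_apply]
  simp only [vsub_eq_sub, PiLp.sub_apply, pt_zero, pt_one, pt_two]
  constructor <;> intro h <;> linarith

theorem pt_mem_pl (v w : ℝ × ℝ × ℝ) :
    pt v ∈ pl w ↔ v.2.2 = w.1 * v.1 + w.2.1 * v.2.1 + w.2.2 := by
  rw [mem_pl]; simp

theorem isPlane_pl (w : ℝ × ℝ × ℝ) : IsPlane (pl w) := by
  constructor
  · exact ⟨pt (0, 0, w.2.2), by
      show pt (0, 0, w.2.2) ∈ pl w
      rw [pt_mem_pl]; simp⟩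
  · unfold pl
    rw [AffineSubspace.direction_mk']
    have h := LinearMap.finrank_range_add_finrank_ker (lin w.1 w.2.1)
    have hr : LinearMap.range (lin w.1 w.2.1) = ⊤ := by
      rw [LinearMap.range_eq_top]
      intro y
      refine ⟨pt (0, 0, y), ?_⟩
      rw [lin_apply]; simp
    rw [hr, finrank_top] at h
    have h3 : Module.finrank ℝ R3 = 3 := by simp
    have h1 : Module.finrank ℝ ℝ = 1 := by simp
    omega

theorem pl_injective : Function.Injective pl := by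
  intro v w h
  have key : ∀ u : ℝ × ℝ × ℝ, pt u ∈ pl v ↔ pt u ∈ pl w := by intro u; rw [h]
  simp only [pt_mem_pl] at key
  have h0 := (key (0, 0, v.2.2)).1 (by simp)
  have h1 := (key (1, 0, v.1 + v.2.2)).1 (by simp)
  have h2 := (key (0, 1, v.2.1 + v.2.2)).1 (by simp)
  simp only [mul_zero, zero_add, mul_one, add_zero] at h0 h1 h2
  ext
  · linarith
  · linarith
  · linarith

end Pool.Agent.Lib.MP_0f9b7a_co
end

section
set_option autoImplicit false

namespace Pool.Agent.Lib.MP_0f9b7a_co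

open scoped Classical

/-- Coordinates of a point / coefficients of a non-vertical plane. -/
abbrev V3 : Type := ℝ × ℝ × ℝ

/-- Incidence in coordinates: the point `v` lies on the plane `z = w₁ x + w₂ y + w₃`. -/
def Inc (v w : V3) : Prop := v.2.2 = w.1 * v.1 + w.2.1 * v.2.1 + w.2.2

theorem pt_mem_pl' (v w : V3) : pt v ∈ pl w ↔ Inc v w := pt_mem_pl v w

/-- number of incidences in coordinates -/
noncomputable def inc (A B : Finset V3) : ℕ := ((A ×ˢ B).filter fun q => Inc q.1 q.2).card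

/-- `K_{s,t}`-freeness in coordinates (`s` points, `t` planes). -/
def Free (s t : ℕ) (A B : Finset V3) : Prop :=
  ∀ A' ⊆ A, ∀ B' ⊆ B, A'.card = s → B'.card = t → ∃ p ∈ A', ∃ h ∈ B', ¬ Inc p h

/-- Point-plane duality in coordinates. -/
def dualize (v : V3) : V3 := (v.1, v.2.1, -v.2.2)

theorem dualize_injective : Function.Injective dualize := by
  intro v w h
  simp only [dualize, Prod.mk.injEq, neg_inj] at h
  ext
  · exact h.1
  · exact h.2.1
  · exact h.2.2

theorem inc_dualize (v w : V3) : Inc (dualize w) (dualize v) ↔ Inc v w := by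
  unfold Inc dualize
  simp only
  constructor <;> intro h <;> linarith

theorem free_dualize {s t : ℕ} {A B : Finset V3} (h : Free s t A B) :
    Free t s (B.image dualize) (A.image dualize) := by
  intro B' hB' A' hA' hBc hAc
  obtain ⟨B₀, hB₀, rfl⟩ := Finset.subset_image_iff.1 hB'
  obtain ⟨A₀, hA₀, rfl⟩ := Finset.subset_image_iff.1 hA'
  rw [Finset.card_image_of_injective _ dualize_injective] at hBc hAc
  obtain ⟨p, hp, q, hq, hpq⟩ := h A₀ hA₀ B₀ hB₀ hAc hBc
  exact ⟨dualize q, Finset.mem_image_of_mem _ hq, dualize p, Finset.mem_image_of_mem _ hp,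
    fun hh => hpq ((inc_dualize p q).1 hh)⟩

theorem inc_image_dualize (A B : Finset V3) :
    inc (B.image dualize) (A.image dualize) = inc A B := by
  unfold inc
  symm
  apply Finset.card_bij (fun q _ => (dualize q.2, dualize q.1))
  · intro q hq
    simp only [Finset.mem_filter, Finset.mem_product, Finset.mem_image] at hq ⊢
    exact ⟨⟨⟨_, hq.1.2, rfl⟩, ⟨_, hq.1.1, rfl⟩⟩, (inc_dualize _ _).2 hq.2⟩
  · intro q _ q' _ h
    simp only [Prod.mk.injEq] at h
    exact Prod.ext (dualize_injective h.2) (dualize_injective h.1)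
  · intro q hq
    simp only [Finset.mem_filter, Finset.mem_product, Finset.mem_image] at hq
    obtain ⟨⟨⟨w, hw, hw'⟩, ⟨v, hv, hv'⟩⟩, h⟩ := hq
    refine ⟨(v, w), ?_, ?_⟩
    · simp only [Finset.mem_filter, Finset.mem_product]
      refine ⟨⟨hv, hw⟩, ?_⟩
      rw [← inc_dualize, hw', hv']; exact h
    · simp only [hw', hv']

theorem Free.mono {s t s' t' : ℕ} (hs : s ≤ s') (ht : t ≤ t') {A B : Finset V3}
    (h : Free s t A B) : Free s' t' A B := by
  intro A' hA B' hB hAc hBc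
  obtain ⟨A'', hA', hA'c⟩ := Finset.exists_subset_card_eq (hAc ▸ hs)
  obtain ⟨B'', hB', hB'c⟩ := Finset.exists_subset_card_eq (hBc ▸ ht)
  obtain ⟨p, hp, q, hq, hpq⟩ := h A'' (hA'.trans hA) B'' (hB'.trans hB) hA'c hB'c
  exact ⟨p, hA' hp, q, hB' hq, hpq⟩

/-- Adding a point that lies on no plane. -/
theorem exists_pad_points {s t : ℕ} (hs : 1 ≤ s) (ht : 1 ≤ t) (A B : Finset V3) (m : ℕ)
    (hm : A.card ≤ m)
    (h : Free s t A B) : ∃ A' : Finset V3, A ⊆ A' ∧ A'.card = m ∧ Free s t A' B := by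
  induction m, hm using Nat.le_induction with
  | base => exact ⟨A, subset_rfl, rfl, h⟩
  | succ m _ ih =>
    obtain ⟨A', hAA', hcard, hfree⟩ := ih
    -- choose a new point
    obtain ⟨z, hz⟩ := (((A'.image fun v => v.2.2) ∪ (B.image fun w => w.2.2)) : Finset ℝ).exists_notMem
    simp only [Finset.mem_union, Finset.mem_image, not_or, not_exists, not_and] at hz
    have hnew : ((0, 0, z) : V3) ∉ A' := fun hh => hz.1 _ hh rfl
    refine ⟨insert (0, 0, z) A', hAA'.trans (Finset.subset_insert _ _), ?_, ?_⟩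
    · rw [Finset.card_insert_of_notMem hnew, hcard]
    · intro A'' hA'' B'' hB'' hAc hBc
      by_cases hmem : ((0, 0, z) : V3) ∈ A''
      · have : B''.Nonempty := by
          rw [← Finset.card_pos]; omega
        obtain ⟨w, hw⟩ := this
        refine ⟨_, hmem, w, hw, ?_⟩
        intro hinc
        unfold Inc at hinc
        simp only [mul_zero, zero_add] at hinc
        exact hz.2 _ (hB'' hw) hinc.symm
      · have hsub : A'' ⊆ A' := by
          intro a ha
          have := hA'' ha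
          rw [Finset.mem_insert] at this
          rcases this with h1 | h1
          · exact absurd (h1 ▸ ha) hmem
          · exact h1
        exact hfree A'' hsub B'' hB'' hAc hBc

/-- Adding planes that contain no point. -/
theorem exists_pad_planes {s t : ℕ} (hs : 1 ≤ s) (ht : 1 ≤ t) (A B : Finset V3) (n : ℕ)
    (hn : B.card ≤ n)
    (h : Free s t A B) : ∃ B' : Finset V3, B ⊆ B' ∧ B'.card = n ∧ Free s t A B' := by
  induction n, hn using Nat.le_induction with
  | base => exact ⟨B, subset_rfl, rfl, h⟩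
  | succ n _ ih =>
    obtain ⟨B', hBB', hcard, hfree⟩ := ih
    obtain ⟨z, hz⟩ := (((A.image fun v => v.2.2) ∪ (B'.image fun w => w.2.2)) : Finset ℝ).exists_notMem
    simp only [Finset.mem_union, Finset.mem_image, not_or, not_exists, not_and] at hz
    have hnew : ((0, 0, z) : V3) ∉ B' := fun hh => hz.2 _ hh rfl
    refine ⟨insert (0, 0, z) B', hBB'.trans (Finset.subset_insert _ _), ?_, ?_⟩
    · rw [Finset.card_insert_of_notMem hnew, hcard]
    · intro A'' hA'' B'' hB'' hAc hBc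
      by_cases hmem : ((0, 0, z) : V3) ∈ B''
      · have : A''.Nonempty := by
          rw [← Finset.card_pos]; omega
        obtain ⟨v, hv⟩ := this
        refine ⟨v, hv, _, hmem, ?_⟩
        intro hinc
        unfold Inc at hinc
        simp only [zero_mul, zero_add] at hinc
        exact hz.1 _ (hA'' hv) hinc
      · have hsub : B'' ⊆ B' := by
          intro a ha
          have := hB'' ha
          rw [Finset.mem_insert] at this
          rcases this with h1 | h1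
          · exact absurd (h1 ▸ ha) hmem
          · exact h1
        exact hfree A'' hA'' B'' hsub hAc hBc

theorem inc_mono {A A' B B' : Finset V3} (hA : A ⊆ A') (hB : B ⊆ B') : inc A B ≤ inc A' B' := by
  unfold inc
  apply Finset.card_le_card
  intro q hq
  simp only [Finset.mem_filter, Finset.mem_product] at hq ⊢
  exact ⟨⟨hA hq.1.1, hB hq.1.2⟩, hq.2⟩

theorem incidences_image (A B : Finset V3) :
    incidences (A.image pt) (B.image pl) = inc A B := by
  unfold incidences inc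
  symm
  apply Finset.card_bij (fun q _ => (pt q.1, pl q.2))
  · intro q hq
    simp only [Finset.mem_filter, Finset.mem_product, Finset.mem_image] at hq ⊢
    exact ⟨⟨⟨_, hq.1.1, rfl⟩, ⟨_, hq.1.2, rfl⟩⟩, (pt_mem_pl' _ _).2 hq.2⟩
  · intro q _ q' _ h
    simp only [Prod.mk.injEq] at h
    exact Prod.ext (pt_injective h.1) (pl_injective h.2)
  · intro q hq
    simp only [Finset.mem_filter, Finset.mem_product, Finset.mem_image] at hq
    obtain ⟨⟨⟨v, hv, hv'⟩, ⟨w, hw, hw'⟩⟩, h⟩ := hq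
    refine ⟨(v, w), ?_, ?_⟩
    · simp only [Finset.mem_filter, Finset.mem_product]
      refine ⟨⟨hv, hw⟩, ?_⟩
      rw [← pt_mem_pl', hw', hv']; exact h
    · simp only [hw', hv']

/-- From a `K_{s,s}`-free configuration in coordinates with at most `m` points and at most `n`
planes one gets a lower bound for `f s m n`. -/
theorem inc_le_f {s m n : ℕ} (hs : 1 ≤ s) {A B : Finset V3} (hA : A.card ≤ m) (hB : B.card ≤ n)
    (h : Free s s A B) : inc A B ≤ f s m n := by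
  obtain ⟨A', hAA', hA'c, hfree⟩ := exists_pad_points hs hs A B m hA h
  obtain ⟨B', hBB', hB'c, hfree'⟩ := exists_pad_planes hs hs A' B n hB hfree
  refine (inc_mono hAA' hBB').trans (le_f_of_mem ?_)
  refine ⟨A'.image pt, B'.image pl, ?_, ?_, ?_, ?_, incidences_image A' B'⟩
  · rw [Finset.card_image_of_injective _ pt_injective, hA'c]
  · rw [Finset.card_image_of_injective _ pl_injective, hB'c]
  · intro h hh
    obtain ⟨w, -, rfl⟩ := Finset.mem_image.1 hh
    exact isPlane_pl w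
  · intro P hP H hH hPc hHc
    obtain ⟨A₀, hA₀, rfl⟩ := Finset.subset_image_iff.1 hP
    obtain ⟨B₀, hB₀, rfl⟩ := Finset.subset_image_iff.1 hH
    rw [Finset.card_image_of_injective _ pt_injective] at hPc
    rw [Finset.card_image_of_injective _ pl_injective] at hHc
    obtain ⟨p, hp, q, hq, hpq⟩ := hfree' A₀ hA₀ B₀ hB₀ hPc hHc
    exact ⟨pt p, Finset.mem_image_of_mem _ hp, pl q, Finset.mem_image_of_mem _ hq,
      fun hh => hpq ((pt_mem_pl' p q).1 hh)⟩

/-- The dual version of `inc_le_f`. -/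
theorem inc_le_f_dual {s m n : ℕ} (hs : 1 ≤ s) {A B : Finset V3} (hA : A.card ≤ n)
    (hB : B.card ≤ m) (h : Free s s A B) : inc A B ≤ f s m n := by
  rw [← inc_image_dualize]
  apply inc_le_f hs
  · rwa [Finset.card_image_of_injective _ dualize_injective]
  · rwa [Finset.card_image_of_injective _ dualize_injective]
  · exact free_dualize h

end Pool.Agent.Lib.MP_0f9b7a_co
end

section
/-!
# Vertical decomposition labels for planes given as graphs

A finite family `P : Fin m → V3` of affine functions `(t, u) ↦ c - a t - b u` on the plane is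
given (the planes dual to the points `(a, b, c)`). For a subset `R` of the index set and a point
`x` of space we define the label of the cell of the vertical decomposition of the arrangement of
`R` that contains `x`.
-/
set_option autoImplicit false

namespace Pool.Agent.Lib.MP_0f9b7a_co

open scoped Classical

/-! ### Selectors -/

section Selector

variable {κ : Type} [Encodable κ]

/-- The index `i` does not beat the selected index `o` for the smallest key above `t`. -/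
def UpOK (key : κ → ℝ) (t : ℝ) (o : Option κ) (i : κ) : Prop :=
  t < key i → ∃ j, o = some j ∧
    (key j < key i ∨ (key j = key i ∧ Encodable.encode j ≤ Encodable.encode i))

theorem UpOK.le {key : κ → ℝ} {t : ℝ} {o : Option κ} {i : κ} (h : UpOK key t o i)
    (hi : t < key i) : ∃ j, o = some j ∧ key j ≤ key i := by
  obtain ⟨j, hj, h1⟩ := h hi
  refine ⟨j, hj, ?_⟩
  rcases h1 with h1 | h1
  · exact h1.le
  · exact h1.1.le

theorem exists_sel (S : Finset κ) (key : κ → ℝ) (t : ℝ) :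
    ∃ o : Option κ, (∀ j, o = some j → j ∈ S ∧ t < key j) ∧ ∀ i ∈ S, UpOK key t o i := by
  by_cases hne : (S.filter fun j => t < key j).Nonempty
  · obtain ⟨j₀, hj₀, hmin⟩ := Finset.exists_min_image _ key hne
    have hne' : ((S.filter fun j => t < key j).filter fun j => key j = key j₀).Nonempty :=
      ⟨j₀, Finset.mem_filter.2 ⟨hj₀, rfl⟩⟩
    obtain ⟨j, hj, hmin'⟩ := Finset.exists_min_image _ (fun j => Encodable.encode j) hne'
    obtain ⟨hj1, hj2⟩ := Finset.mem_filter.1 hj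
    obtain ⟨hj3, hj4⟩ := Finset.mem_filter.1 hj1
    refine ⟨some j, ?_, ?_⟩
    · intro k hk
      obtain rfl := Option.some.inj hk
      exact ⟨hj3, hj4⟩
    · intro i hi hti
      refine ⟨j, rfl, ?_⟩
      have hi' : i ∈ S.filter fun j => t < key j := Finset.mem_filter.2 ⟨hi, hti⟩
      rcases (hmin i hi').lt_or_eq with h | h
      · left; rw [hj2]; exact h
      · right
        refine ⟨by rw [hj2]; exact h, hmin' i (Finset.mem_filter.2 ⟨hi', h.symm⟩)⟩
  · refine ⟨none, fun j hj => by simp at hj, ?_⟩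
    intro i hi hti
    exact absurd ⟨i, Finset.mem_filter.2 ⟨hi, hti⟩⟩ hne

theorem sel_unique (S : Set κ) (key : κ → ℝ) (t : ℝ) (o o' : Option κ)
    (h1 : ∀ j, o = some j → j ∈ S ∧ t < key j) (h2 : ∀ i ∈ S, UpOK key t o i)
    (h1' : ∀ j, o' = some j → j ∈ S ∧ t < key j) (h2' : ∀ i ∈ S, UpOK key t o' i) : o = o' := by
  rcases o with _ | j
  · rcases o' with _ | j'
    · rfl
    · obtain ⟨a, b⟩ := h1' j' rfl
      obtain ⟨k, hk, -⟩ := h2 j' a b
      simp at hk
  · obtain ⟨a, b⟩ := h1 j rfl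
    obtain ⟨k, hk, hk'⟩ := h2' j a b
    obtain ⟨a', b'⟩ := h1' k hk
    obtain ⟨i, hi, hi'⟩ := h2 k a' b'
    obtain rfl := Option.some.inj hi
    rw [hk]
    have : Encodable.encode j = Encodable.encode k := by
      rcases hk' with h | h
      · rcases hi' with h' | h'
        · exact absurd h (not_lt.2 h'.le)
        · exact absurd h (not_lt.2 h'.1.le)
      · rcases hi' with h' | h'
        · exact absurd h' (not_lt.2 h.1.le)
        · exact le_antisymm h'.2 h.2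
    rw [Encodable.encode_injective this]

end Selector

/-! ### Affine functions and lines -/

/-- A sign. -/
noncomputable def sg (σ : Bool) : ℝ := if σ then 1 else -1

theorem sg_true : sg true = 1 := by simp [sg]
theorem sg_false : sg false = -1 := by simp [sg]
theorem sg_not (σ : Bool) : sg (!σ) = - sg σ := by cases σ <;> simp [sg]

/-- The value at `(t, u)` of the affine function dual to the point `p`. -/
def ev (p : V3) (t u : ℝ) : ℝ := p.2.2 - p.1 * t - p.2.1 * u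

/-- Slope of the line on which the functions dual to `p` and `q` agree. -/
noncomputable def slp (p q : V3) : ℝ := - (p.1 - q.1) / (p.2.1 - q.2.1)

/-- Intercept of the line on which the functions dual to `p` and `q` agree. -/
noncomputable def icpt (p q : V3) : ℝ := (p.2.2 - q.2.2) / (p.2.1 - q.2.1)

/-- The line on which the functions dual to `p` and `q` agree. -/
noncomputable def lnf (p q : V3) (t : ℝ) : ℝ := slp p q * t + icpt p q

theorem ev_sub_ev (p q : V3) (h : p.2.1 ≠ q.2.1) (t u : ℝ) :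
    ev p t u - ev q t u = - (p.2.1 - q.2.1) * (u - lnf p q t) := by
  have h' : p.2.1 - q.2.1 ≠ 0 := sub_ne_zero.2 h
  unfold ev lnf slp icpt
  field_simp
  ring

variable {m : ℕ} (P : Fin m → V3)

/-- Labels: ceiling and floor, upper and lower line, right and left event. -/
abbrev Label (m : ℕ) : Type :=
  (Bool → Option (Fin m)) × (Bool → Option (Fin m × Bool)) × (Bool → Option (Fin m × Bool × Bool))

/-- The pair `q = (c, s)` gives a line: the projection of the intersection of the plane `c` with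
the ceiling or floor `g s`. -/
def IsLine (g : Bool → Option (Fin m)) (q : Fin m × Bool) : Prop :=
  ∃ j, g q.2 = some j ∧ (P q.1).2.1 ≠ (P j).2.1

/-- slope of the line `q` -/
noncomputable def sl (g : Bool → Option (Fin m)) (q : Fin m × Bool) : ℝ :=
  (g q.2).elim 0 fun j => slp (P q.1) (P j)

/-- intercept of the line `q` -/
noncomputable def ic (g : Bool → Option (Fin m)) (q : Fin m × Bool) : ℝ :=
  (g q.2).elim 0 fun j => icpt (P q.1) (P j)

/-- value of the line `q` at `t` -/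
noncomputable def lv (g : Bool → Option (Fin m)) (q : Fin m × Bool) (t : ℝ) : ℝ :=
  sl P g q * t + ic P g q

theorem lv_some {g : Bool → Option (Fin m)} {q : Fin m × Bool} {j : Fin m} (h : g q.2 = some j)
    (t : ℝ) : lv P g q t = lnf (P q.1) (P j) t := by
  simp [lv, sl, ic, lnf, h]

theorem sl_some {g : Bool → Option (Fin m)} {q : Fin m × Bool} {j : Fin m} (h : g q.2 = some j) :
    sl P g q = slp (P q.1) (P j) := by
  simp [sl, h]

/-- The triple `r = (c, s, σ)` gives an event: the line `(c, s)` crosses the line `l σ`. -/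
def IsEv (g : Bool → Option (Fin m)) (l : Bool → Option (Fin m × Bool))
    (r : Fin m × Bool × Bool) : Prop :=
  IsLine P g (r.1, r.2.1) ∧ ∃ q, l r.2.2 = some q ∧ sl P g (r.1, r.2.1) ≠ sl P g q

/-- abscissa of the event `r` -/
noncomputable def ab (g : Bool → Option (Fin m)) (l : Bool → Option (Fin m × Bool))
    (r : Fin m × Bool × Bool) : ℝ :=
  (l r.2.2).elim 0 fun q => (ic P g q - ic P g (r.1, r.2.1)) / (sl P g (r.1, r.2.1) - sl P g q)

theorem lv_sub_lv {g : Bool → Option (Fin m)} {l : Bool → Option (Fin m × Bool)}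
    {c : Fin m} {s σ : Bool} {q : Fin m × Bool} (hq : l σ = some q)
    (hne : sl P g (c, s) ≠ sl P g q) (t : ℝ) :
    lv P g (c, s) t - lv P g q t = (sl P g (c, s) - sl P g q) * (t - ab P g l (c, s, σ)) := by
  have h' : sl P g (c, s) - sl P g q ≠ 0 := sub_ne_zero.2 hne
  simp only [lv, ab, hq, Option.elim_some]
  field_simp
  ring

/-- The vertical conditions for a point in the cell of a label. -/
def TopOK (τ : Label m) (x : V3) : Prop :=
  ∀ σ j, τ.1 σ = some j → sg σ * x.2.2 < sg σ * ev (P j) x.1 x.2.1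

/-- The line conditions for a point in the cell of a label. -/
def LineOK (τ : Label m) (t u : ℝ) : Prop :=
  ∀ σ q, τ.2.1 σ = some q → IsLine P τ.1 q ∧ sg σ * u < sg σ * lv P τ.1 q t

/-- The event conditions for a point in the cell of a label. -/
def EvOK (τ : Label m) (t : ℝ) : Prop :=
  ∀ σ r, τ.2.2 σ = some r → IsEv P τ.1 τ.2.1 r ∧ sg σ * t < sg σ * ab P τ.1 τ.2.1 r

/-- The point `x` lies in the open cell of the label `τ`. -/
def Valid (τ : Label m) (x : V3) : Prop :=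
  TopOK P τ x ∧ LineOK P τ x.1 x.2.1 ∧ EvOK P τ x.1

/-- The plane `c` does not change the label `τ` at `x`. -/
def OKc (τ : Label m) (x : V3) (c : Fin m) : Prop :=
  (∀ σ, UpOK (fun j => sg σ * ev (P j) x.1 x.2.1) (sg σ * x.2.2) (τ.1 σ) c) ∧
  (∀ σ s, IsLine P τ.1 (c, s) →
    UpOK (fun q => sg σ * lv P τ.1 q x.1) (sg σ * x.2.1) (τ.2.1 σ) (c, s)) ∧
  (∀ σ s s', IsEv P τ.1 τ.2.1 (c, s, s') →
    UpOK (fun r => sg σ * ab P τ.1 τ.2.1 r) (sg σ * x.1) (τ.2.2 σ) (c, s, s'))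

/-- The set of planes defining a label. -/
def defs (τ : Label m) : Finset (Fin m) :=
  Finset.univ.filter fun c => ∃ σ, τ.1 σ = some c ∨ (∃ s, τ.2.1 σ = some (c, s)) ∨
    ∃ s s', τ.2.2 σ = some (c, s, s')

theorem mem_defs {τ : Label m} {c : Fin m} : c ∈ defs τ ↔
    ∃ σ, τ.1 σ = some c ∨ (∃ s, τ.2.1 σ = some (c, s)) ∨ ∃ s s', τ.2.2 σ = some (c, s, s') := by
  simp [defs]

theorem card_defs_le (τ : Label m) : (defs τ).card ≤ 6 := by
  have hsub : defs τ ⊆ (Finset.univ : Finset Bool).biUnion fun σ =>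
      ((τ.1 σ).toFinset ∪ ((τ.2.1 σ).map Prod.fst).toFinset) ∪
        ((τ.2.2 σ).map Prod.fst).toFinset := by
    intro c hc
    obtain ⟨σ, h⟩ := mem_defs.1 hc
    refine Finset.mem_biUnion.2 ⟨σ, Finset.mem_univ _, ?_⟩
    simp only [Finset.mem_union, Option.mem_toFinset, Option.mem_def, Option.map_eq_some_iff]
    rcases h with h | ⟨s, h⟩ | ⟨s, s', h⟩
    · exact Or.inl (Or.inl h)
    · exact Or.inl (Or.inr ⟨_, h, rfl⟩)
    · exact Or.inr ⟨_, h, rfl⟩
  refine (Finset.card_le_card hsub).trans ?_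
  refine (Finset.card_biUnion_le_card_mul _ _ 3 ?_).trans (by simp)
  intro σ _
  have h1 : ∀ o : Option (Fin m), o.toFinset.card ≤ 1 := by
    intro o; cases o <;> simp
  refine (Finset.card_union_le _ _).trans ?_
  have := Finset.card_union_le (τ.1 σ).toFinset ((τ.2.1 σ).map Prod.fst).toFinset
  have a := h1 (τ.1 σ)
  have b := h1 ((τ.2.1 σ).map Prod.fst)
  have c := h1 ((τ.2.2 σ).map Prod.fst)
  omega

/-- `τ` is the label of the point `x` in the vertical decomposition of `R`. -/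
def IsLabel (R : Finset (Fin m)) (x : V3) (τ : Label m) : Prop :=
  Valid P τ x ∧ defs τ ⊆ R ∧ ∀ c ∈ R, OKc P τ x c

/-- Genericity of a point with respect to the family. -/
def Gen (x : V3) : Prop :=
  (∀ i, ev (P i) x.1 x.2.1 ≠ x.2.2) ∧
  (∀ i j, i ≠ j → ev (P i) x.1 x.2.1 ≠ ev (P j) x.1 x.2.1) ∧
  (∀ i j k l, (P i).2.1 ≠ (P j).2.1 → (P k).2.1 ≠ (P l).2.1 →
    slp (P i) (P j) ≠ slp (P k) (P l) → lnf (P i) (P j) x.1 ≠ lnf (P k) (P l) x.1)

/-! ### Existence and uniqueness of labels -/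

theorem exists_isLabel (R : Finset (Fin m)) (x : V3) : ∃ τ, IsLabel P R x τ := by
  choose g hg1 hg2 using fun σ : Bool =>
    exists_sel R (fun j => sg σ * ev (P j) x.1 x.2.1) (sg σ * x.2.2)
  choose l hl1 hl2 using fun σ : Bool =>
    exists_sel ((R ×ˢ (Finset.univ : Finset Bool)).filter fun q => IsLine P g q)
      (fun q => sg σ * lv P g q x.1) (sg σ * x.2.1)
  choose e he1 he2 using fun σ : Bool =>
    exists_sel ((R ×ˢ (Finset.univ : Finset (Bool × Bool))).filter fun r => IsEv P g l r)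
      (fun r => sg σ * ab P g l r) (sg σ * x.1)
  refine ⟨(g, l, e), ⟨?_, ?_, ?_⟩, ?_, ?_⟩
  · intro σ j hj
    exact (hg1 σ j hj).2
  · intro σ q hq
    obtain ⟨a, b⟩ := hl1 σ q hq
    exact ⟨(Finset.mem_filter.1 a).2, b⟩
  · intro σ r hr
    obtain ⟨a, b⟩ := he1 σ r hr
    exact ⟨(Finset.mem_filter.1 a).2, b⟩
  · intro c hc
    obtain ⟨σ, h⟩ := mem_defs.1 hc
    rcases h with h | ⟨s, h⟩ | ⟨s, s', h⟩
    · exact (hg1 σ c h).1
    · have := (Finset.mem_filter.1 (hl1 σ _ h).1).1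
      exact (Finset.mem_product.1 this).1
    · have := (Finset.mem_filter.1 (he1 σ _ h).1).1
      exact (Finset.mem_product.1 this).1
  · intro c hc
    refine ⟨fun σ => hg2 σ c hc, fun σ s hs => hl2 σ _ ?_, fun σ s s' hs => he2 σ _ ?_⟩
    · exact Finset.mem_filter.2 ⟨Finset.mem_product.2 ⟨hc, Finset.mem_univ _⟩, hs⟩
    · exact Finset.mem_filter.2 ⟨Finset.mem_product.2 ⟨hc, Finset.mem_univ _⟩, hs⟩

theorem isLabel_unique {R : Finset (Fin m)} {x : V3} {τ τ' : Label m} (h : IsLabel P R x τ)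
    (h' : IsLabel P R x τ') : τ = τ' := by
  obtain ⟨g, l, e⟩ := τ
  obtain ⟨g', l', e'⟩ := τ'
  obtain ⟨⟨h1, h2, h3⟩, h4, h5⟩ := h
  obtain ⟨⟨h1', h2', h3'⟩, h4', h5'⟩ := h'
  have hg : g = g' := by
    funext σ
    refine sel_unique (R : Set (Fin m)) (fun j => sg σ * ev (P j) x.1 x.2.1) (sg σ * x.2.2) _ _
      (fun j hj => ⟨h4 (mem_defs.2 ⟨σ, Or.inl hj⟩), h1 σ j hj⟩)
      (fun i hi => (h5 i hi).1 σ)
      (fun j hj => ⟨h4' (mem_defs.2 ⟨σ, Or.inl hj⟩), h1' σ j hj⟩)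
      (fun i hi => (h5' i hi).1 σ)
  subst hg
  have hl : l = l' := by
    funext σ
    refine sel_unique {q | q.1 ∈ R ∧ IsLine P g q} (fun q => sg σ * lv P g q x.1)
      (sg σ * x.2.1) _ _
      (fun q hq => ⟨⟨h4 (mem_defs.2 ⟨σ, Or.inr (Or.inl ⟨q.2, hq⟩)⟩), (h2 σ q hq).1⟩, (h2 σ q hq).2⟩)
      (fun q hq => (h5 q.1 hq.1).2.1 σ q.2 hq.2)
      (fun q hq => ⟨⟨h4' (mem_defs.2 ⟨σ, Or.inr (Or.inl ⟨q.2, hq⟩)⟩), (h2' σ q hq).1⟩,
        (h2' σ q hq).2⟩)
      (fun q hq => (h5' q.1 hq.1).2.1 σ q.2 hq.2)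
  subst hl
  have he : e = e' := by
    funext σ
    refine sel_unique {r | r.1 ∈ R ∧ IsEv P g l r} (fun r => sg σ * ab P g l r)
      (sg σ * x.1) _ _
      (fun r hr => ⟨⟨h4 (mem_defs.2 ⟨σ, Or.inr (Or.inr ⟨r.2.1, r.2.2, hr⟩)⟩), (h3 σ r hr).1⟩,
        (h3 σ r hr).2⟩)
      (fun r hr => (h5 r.1 hr.1).2.2 σ r.2.1 r.2.2 hr.2)
      (fun r hr => ⟨⟨h4' (mem_defs.2 ⟨σ, Or.inr (Or.inr ⟨r.2.1, r.2.2, hr⟩)⟩), (h3' σ r hr).1⟩,
        (h3' σ r hr).2⟩)
      (fun r hr => (h5' r.1 hr.1).2.2 σ r.2.1 r.2.2 hr.2)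
  subst he
  rfl

end Pool.Agent.Lib.MP_0f9b7a_co
end

section
/-!
# Constancy of labels on cells
-/
set_option autoImplicit false

namespace Pool.Agent.Lib.MP_0f9b7a_co

open scoped Classical

variable {m : ℕ} {P : Fin m → V3}

theorem sg_ne_zero (σ : Bool) : sg σ ≠ 0 := by cases σ <;> norm_num [sg]

theorem sg_mul_sg (σ : Bool) : sg σ * sg σ = 1 := by cases σ <;> norm_num [sg]

/-- If `a ≠ b` then either `sg σ * a < sg σ * b` or `sg (!σ) * a < sg (!σ) * b`. -/
theorem sg_lt_or {a b : ℝ} (h : a ≠ b) (σ : Bool) :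
    sg σ * a < sg σ * b ∨ sg (!σ) * a < sg (!σ) * b := by
  rw [sg_not]
  have : sg σ * a ≠ sg σ * b := fun h' => h (mul_left_cancel₀ (sg_ne_zero σ) h')
  rcases lt_or_gt_of_ne this with h1 | h1
  · exact Or.inl h1
  · right; linarith

theorem sg_lt_absurd {a b : ℝ} {σ : Bool} (h : sg σ * a < sg σ * b)
    (h' : sg (!σ) * a < sg (!σ) * b) : False := by
  rw [sg_not] at h'; linarith

theorem ab_side {R : Finset (Fin m)} {x : V3} {τ : Label m} (h : IsLabel P R x τ) {t : ℝ}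
    (ht : EvOK P τ t) {c : Fin m} {s s' : Bool} (hc : c ∈ R)
    (hev : IsEv P τ.1 τ.2.1 (c, s, s')) {σ : Bool}
    (hlt : sg σ * x.1 < sg σ * ab P τ.1 τ.2.1 (c, s, s')) :
    sg σ * t < sg σ * ab P τ.1 τ.2.1 (c, s, s') := by
  obtain ⟨j, hj, hle⟩ := ((h.2.2 c hc).2.2 σ s s' hev).le hlt
  exact (ht σ j hj).2.trans_le hle

theorem lv_order {R : Finset (Fin m)} {x : V3} {τ : Label m} (h : IsLabel P R x τ) {t : ℝ}
    (ht : EvOK P τ t) {σ' : Bool} {q₀ : Fin m × Bool} (hq₀ : τ.2.1 σ' = some q₀)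
    {c : Fin m} {s : Bool} (hc : c ∈ R) (hline : IsLine P τ.1 (c, s)) {σ : Bool}
    (hlt : sg σ * lv P τ.1 q₀ x.1 < sg σ * lv P τ.1 (c, s) x.1) :
    sg σ * lv P τ.1 q₀ t < sg σ * lv P τ.1 (c, s) t := by
  by_cases hsl : sl P τ.1 (c, s) = sl P τ.1 q₀
  · have e1 : lv P τ.1 (c, s) t - lv P τ.1 q₀ t = lv P τ.1 (c, s) x.1 - lv P τ.1 q₀ x.1 := by
      simp only [lv, hsl]; ring
    have : sg σ * (lv P τ.1 (c, s) t - lv P τ.1 q₀ t) =
        sg σ * (lv P τ.1 (c, s) x.1 - lv P τ.1 q₀ x.1) := by rw [e1]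
    linarith
  · have hev : IsEv P τ.1 τ.2.1 (c, s, σ') := ⟨hline, q₀, hq₀, hsl⟩
    have e1 := lv_sub_lv P hq₀ hsl t
    have e2 := lv_sub_lv P hq₀ hsl x.1
    set κ := sl P τ.1 (c, s) - sl P τ.1 q₀ with hκ
    set ξ := ab P τ.1 τ.2.1 (c, s, σ') with hξ
    have hpos : 0 < sg σ * κ * (x.1 - ξ) := by
      have : sg σ * (lv P τ.1 (c, s) x.1 - lv P τ.1 q₀ x.1) = sg σ * κ * (x.1 - ξ) := by
        rw [e2]; ring
      linarith
    have hgoal : 0 < sg σ * κ * (t - ξ) := by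
      have hne : x.1 ≠ ξ := by
        intro h0
        rw [h0, sub_self, mul_zero] at hpos
        exact lt_irrefl _ hpos
      rcases lt_or_gt_of_ne hne with h1 | h1
      · have h2 : sg true * x.1 < sg true * ξ := by rw [sg_true]; linarith
        have h3 := ab_side h ht hc hev h2
        rw [sg_true] at h3
        have h4 : sg σ * κ < 0 := by
          by_contra hcon
          push Not at hcon
          nlinarith
        have h5 : t < ξ := by linarith
        nlinarith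
      · have h2 : sg false * x.1 < sg false * ξ := by rw [sg_false]; linarith
        have h3 := ab_side h ht hc hev h2
        rw [sg_false] at h3
        have h4 : 0 < sg σ * κ := by
          by_contra hcon
          push Not at hcon
          nlinarith
        have h5 : ξ < t := by linarith
        nlinarith
    have : sg σ * (lv P τ.1 (c, s) t - lv P τ.1 q₀ t) = sg σ * κ * (t - ξ) := by
      rw [e1]; ring
    linarith

theorem lv_eq_of_eq {x : V3} (gx : Gen P x) {g : Bool → Option (Fin m)} {q q' : Fin m × Bool}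
    (hq : IsLine P g q) (hq' : IsLine P g q') (he : lv P g q x.1 = lv P g q' x.1) (t : ℝ) :
    lv P g q t = lv P g q' t := by
  obtain ⟨j, hj, hjne⟩ := hq
  obtain ⟨j', hj', hjne'⟩ := hq'
  have hsl : sl P g q = sl P g q' := by
    by_contra hcon
    rw [sl_some P hj, sl_some P hj'] at hcon
    rw [lv_some P hj, lv_some P hj'] at he
    exact gx.2.2 _ _ _ _ hjne hjne' hcon he
  simp only [lv, hsl] at he ⊢
  linarith

theorem side_pres {R : Finset (Fin m)} {x : V3} {τ : Label m} (h : IsLabel P R x τ)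
    (gx : Gen P x) {t u : ℝ} (hl : LineOK P τ t u) (ht : EvOK P τ t)
    {c : Fin m} {s : Bool} (hc : c ∈ R) (hline : IsLine P τ.1 (c, s)) {σ : Bool}
    (hlt : sg σ * x.2.1 < sg σ * lv P τ.1 (c, s) x.1) :
    sg σ * u < sg σ * lv P τ.1 (c, s) t := by
  obtain ⟨q₀, hq₀, hle⟩ := ((h.2.2 c hc).2.1 σ s hline).le hlt
  obtain ⟨hline₀, hu⟩ := hl σ q₀ hq₀
  rcases hle.lt_or_eq with h1 | h1
  · exact hu.trans (lv_order h ht hq₀ hc hline h1)
  · have h2 : lv P τ.1 q₀ x.1 = lv P τ.1 (c, s) x.1 := mul_left_cancel₀ (sg_ne_zero σ) h1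
    rw [← lv_eq_of_eq gx hline₀ hline h2 t]
    exact hu

theorem ev_order {R : Finset (Fin m)} {x : V3} {τ : Label m} (h : IsLabel P R x τ)
    (gx : Gen P x) (hP : ∀ i j, (P i).2.1 = (P j).2.1 → (P i).1 = (P j).1)
    {t u : ℝ} (hl : LineOK P τ t u) (ht : EvOK P τ t)
    {s : Bool} {g₀ : Fin m} (hg₀ : τ.1 s = some g₀) {c : Fin m} (hc : c ∈ R) {σ : Bool}
    (hlt : sg σ * ev (P g₀) x.1 x.2.1 < sg σ * ev (P c) x.1 x.2.1) :
    sg σ * ev (P g₀) t u < sg σ * ev (P c) t u := by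
  by_cases hb : (P c).2.1 = (P g₀).2.1
  · have ha := hP _ _ hb
    have e1 : ev (P c) t u - ev (P g₀) t u = ev (P c) x.1 x.2.1 - ev (P g₀) x.1 x.2.1 := by
      simp only [ev, ha, hb]; ring
    have : sg σ * (ev (P c) t u - ev (P g₀) t u) =
        sg σ * (ev (P c) x.1 x.2.1 - ev (P g₀) x.1 x.2.1) := by rw [e1]
    linarith
  · have hline : IsLine P τ.1 (c, s) := ⟨g₀, hg₀, hb⟩
    have e1 := ev_sub_ev (P c) (P g₀) hb t u
    have e2 := ev_sub_ev (P c) (P g₀) hb x.1 x.2.1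
    have e3 : ∀ t', lv P τ.1 (c, s) t' = lnf (P c) (P g₀) t' := fun t' => lv_some P hg₀ t'
    set L := lnf (P c) (P g₀) t with hL
    set L' := lnf (P c) (P g₀) x.1 with hL'
    set κ := -((P c).2.1 - (P g₀).2.1) with hκ
    have hpos : 0 < sg σ * κ * (x.2.1 - L') := by
      have : sg σ * (ev (P c) x.1 x.2.1 - ev (P g₀) x.1 x.2.1) = sg σ * κ * (x.2.1 - L') := by
        rw [e2]; ring
      linarith
    have hgoal : 0 < sg σ * κ * (u - L) := by
      have hne : x.2.1 ≠ L' := by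
        intro h0
        rw [h0, sub_self, mul_zero] at hpos
        exact lt_irrefl _ hpos
      rcases lt_or_gt_of_ne hne with h1 | h1
      · have h2 : sg true * x.2.1 < sg true * lv P τ.1 (c, s) x.1 := by
          rw [sg_true, e3]; linarith
        have h3 := side_pres h gx hl ht hc hline h2
        rw [sg_true, e3] at h3
        have h4 : sg σ * κ < 0 := by
          by_contra hcon
          push Not at hcon
          nlinarith
        have h5 : u < L := by linarith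
        nlinarith
      · have h2 : sg false * x.2.1 < sg false * lv P τ.1 (c, s) x.1 := by
          rw [sg_false, e3]; linarith
        have h3 := side_pres h gx hl ht hc hline h2
        rw [sg_false, e3] at h3
        have h4 : 0 < sg σ * κ := by
          by_contra hcon
          push Not at hcon
          nlinarith
        have h5 : L < u := by linarith
        nlinarith
    have : sg σ * (ev (P c) t u - ev (P g₀) t u) = sg σ * κ * (u - L) := by
      rw [e1]; ring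
    linarith

/-- Labels are constant on cells. -/
theorem isLabel_of_valid {R : Finset (Fin m)} {x y : V3} {τ : Label m} (h : IsLabel P R x τ)
    (gx : Gen P x) (hP : ∀ i j, (P i).2.1 = (P j).2.1 → (P i).1 = (P j).1)
    (hy : Valid P τ y) : IsLabel P R y τ := by
  obtain ⟨hy1, hy2, hy3⟩ := hy
  refine ⟨⟨hy1, hy2, hy3⟩, h.2.1, fun c hc => ⟨?_, ?_, ?_⟩⟩
  · intro σ hlt
    have key : ∀ σ', sg σ' * x.2.2 < sg σ' * ev (P c) x.1 x.2.1 →
        ∃ j, τ.1 σ' = some j ∧ (sg σ' * ev (P j) y.1 y.2.1 < sg σ' * ev (P c) y.1 y.2.1 ∨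
          (sg σ' * ev (P j) y.1 y.2.1 = sg σ' * ev (P c) y.1 y.2.1 ∧
            Encodable.encode j ≤ Encodable.encode c)) := by
      intro σ' hlt'
      obtain ⟨j, hj, hle⟩ := ((h.2.2 c hc).1 σ').le hlt'
      refine ⟨j, hj, ?_⟩
      by_cases hjc : j = c
      · right; rw [hjc]; exact ⟨rfl, le_refl _⟩
      · left
        have hne : sg σ' * ev (P j) x.1 x.2.1 ≠ sg σ' * ev (P c) x.1 x.2.1 := fun h' =>
          gx.2.1 j c hjc (mul_left_cancel₀ (sg_ne_zero σ') h')
        exact ev_order h gx hP hy2 hy3 hj hc (lt_of_le_of_ne hle hne)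
    rcases sg_lt_or (gx.1 c).symm σ with h1 | h1
    · exact key σ h1
    · exfalso
      obtain ⟨j, hj, h2⟩ := key (!σ) h1
      have h3 := hy1 (!σ) j hj
      have h4 : sg (!σ) * y.2.2 < sg (!σ) * ev (P c) y.1 y.2.1 := by
        rcases h2 with h2 | h2
        · exact h3.trans h2
        · rw [← h2.1]; exact h3
      exact sg_lt_absurd hlt h4
  · intro σ s hline hlt
    obtain ⟨g₀, hg₀, hb⟩ := hline
    have hline : IsLine P τ.1 (c, s) := ⟨g₀, hg₀, hb⟩
    have hne : x.2.1 ≠ lv P τ.1 (c, s) x.1 := by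
      intro h0
      have hcg : c ≠ g₀ := by
        rintro rfl; exact hb rfl
      apply gx.2.1 c g₀ hcg
      have := ev_sub_ev (P c) (P g₀) hb x.1 x.2.1
      rw [lv_some P hg₀] at h0
      rw [h0, sub_self, mul_zero] at this
      rw [← h0] at this
      linarith
    rcases sg_lt_or hne σ with h1 | h1
    · obtain ⟨q₀, hq₀, hle⟩ := (h.2.2 c hc).2.1 σ s hline h1
      refine ⟨q₀, hq₀, ?_⟩
      rcases hle with h2 | ⟨h2, h3⟩
      · left
        exact lv_order h hy3 hq₀ hc hline h2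
      · right
        have h4 : lv P τ.1 q₀ x.1 = lv P τ.1 (c, s) x.1 := mul_left_cancel₀ (sg_ne_zero σ) h2
        refine ⟨?_, h3⟩
        show sg σ * lv P τ.1 q₀ y.1 = sg σ * lv P τ.1 (c, s) y.1
        rw [lv_eq_of_eq gx (hy2 σ q₀ hq₀).1 hline h4]
    · exact absurd (side_pres h gx hy2 hy3 hc hline h1) (fun h2 => sg_lt_absurd hlt h2)
  · intro σ s s' hev hlt
    have hne : x.1 ≠ ab P τ.1 τ.2.1 (c, s, s') := by
      intro h0
      obtain ⟨⟨g₀, hg₀, hb⟩, q, hq, hsl⟩ := hev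
      obtain ⟨g₁, hg₁, hb₁⟩ := (h.1.2.1 s' q hq).1
      have e := lv_sub_lv P hq hsl x.1
      have h0' : x.1 - ab P τ.1 τ.2.1 (c, s, s') = 0 := by rw [← h0]; ring
      rw [h0', mul_zero] at e
      have h1 : slp (P c) (P g₀) ≠ slp (P q.1) (P g₁) := by
        rw [← sl_some P (q := (c, s)) hg₀, ← sl_some P hg₁]; exact hsl
      refine gx.2.2 c g₀ q.1 g₁ hb hb₁ h1 ?_
      rw [← lv_some P (q := (c, s)) hg₀, ← lv_some P hg₁]
      linarith
    rcases sg_lt_or hne σ with h1 | h1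
    · exact (h.2.2 c hc).2.2 σ s s' hev h1
    · exact absurd (ab_side h hy3 hc hev h1) (fun h2 => sg_lt_absurd hlt h2)

end Pool.Agent.Lib.MP_0f9b7a_co
end

section
set_option autoImplicit false

namespace Pool.Agent.Lib.MP_0f9b7a_co

open scoped Classical

/-- embedding of a pair of naturals and a natural into `V3` -/
noncomputable def emb (q : (ℕ × ℕ) × ℕ) : V3 := ((q.1.1 : ℝ), (q.1.2 : ℝ), (q.2 : ℝ))

theorem emb_injective : Function.Injective emb := by
  intro p q h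
  simp only [emb, Prod.mk.injEq, Nat.cast_inj] at h
  obtain ⟨h1, h2, h3⟩ := h
  ext
  · exact h1
  · exact h2
  · exact h3

noncomputable def ptsOf (S : Finset (ℕ × ℕ)) (K : ℕ) : Finset V3 :=
  (S ×ˢ Finset.range K).image emb

theorem card_ptsOf (S : Finset (ℕ × ℕ)) (K : ℕ) : (ptsOf S K).card = S.card * K := by
  unfold ptsOf
  rw [Finset.card_image_of_injective _ emb_injective, Finset.card_product, Finset.card_range]

theorem mem_ptsOf {S : Finset (ℕ × ℕ)} {K : ℕ} {v : V3} (h : v ∈ ptsOf S K) :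
    ∃ s ∈ S, ∃ z : ℕ, z < K ∧ v = ((s.1 : ℝ), (s.2 : ℝ), (z : ℝ)) := by
  unfold ptsOf at h
  obtain ⟨q, hq, rfl⟩ := Finset.mem_image.1 h
  rw [Finset.mem_product, Finset.mem_range] at hq
  exact ⟨q.1, hq.1, q.2, hq.2, rfl⟩

/-- lower bound for the number of incidences of the product construction -/
theorem le_inc_ptsOf (S T : Finset (ℕ × ℕ)) (K : ℕ)
    (hdot : ∀ s ∈ S, ∀ t ∈ T, s.1 * t.1 + s.2 * t.2 ≤ 2 * K) :
    S.card * T.card * K ≤ inc (ptsOf S (3 * K)) (ptsOf T K) := by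
  have hcard : S.card * T.card * K = ((S ×ˢ T) ×ˢ Finset.range K).card := by
    rw [Finset.card_product, Finset.card_product, Finset.card_range]
  rw [hcard]
  unfold inc
  apply Finset.card_le_card_of_injOn
    (fun q : ((ℕ × ℕ) × (ℕ × ℕ)) × ℕ =>
      (emb (q.1.1, q.1.1.1 * q.1.2.1 + q.1.1.2 * q.1.2.2 + q.2), emb (q.1.2, q.2)))
  · intro q hq
    simp only [Finset.coe_product, Set.mem_prod, Finset.mem_coe, Finset.mem_range] at hq
    obtain ⟨⟨hs, ht⟩, hc⟩ := hq
    have hd := hdot _ hs _ ht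
    simp only [Finset.coe_filter, Finset.mem_product, Set.mem_ofPred_eq]
    refine ⟨⟨?_, ?_⟩, ?_⟩
    · apply Finset.mem_image_of_mem
      simp only [Finset.mem_product, Finset.mem_range]
      exact ⟨hs, by omega⟩
    · apply Finset.mem_image_of_mem
      simp only [Finset.mem_product, Finset.mem_range]
      exact ⟨ht, hc⟩
    · unfold Inc emb
      simp only
      push_cast
      ring
  · intro q _ q' _ h
    simp only [Prod.mk.injEq] at h
    have h1 := emb_injective h.1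
    have h2 := emb_injective h.2
    simp only [Prod.mk.injEq] at h1 h2
    exact Prod.ext (Prod.ext h1.1 h2.1) h2.2

theorem free_two_two (S T : Finset (ℕ × ℕ)) (K L : ℕ)
    (h : ∀ s ∈ S, ∀ s' ∈ S, ∀ t ∈ T, ∀ t' ∈ T, s ≠ s' → t ≠ t' →
      ((s.1 : ℤ) - s'.1) * ((t.1 : ℤ) - t'.1) + ((s.2 : ℤ) - s'.2) * ((t.2 : ℤ) - t'.2) ≠ 0) :
    Free 2 2 (ptsOf S K) (ptsOf T L) := by
  intro A' hA' B' hB' hAc hBc
  obtain ⟨p, q, hpq, rfl⟩ := Finset.card_eq_two.1 hAc
  obtain ⟨u, w, huw, rfl⟩ := Finset.card_eq_two.1 hBc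
  by_contra hcon
  push Not at hcon
  obtain ⟨s, hs, z, hz, rfl⟩ := mem_ptsOf (hA' (by simp : p ∈ ({p, q} : Finset V3)))
  obtain ⟨s', hs', z', hz', rfl⟩ := mem_ptsOf (hA' (by simp : q ∈ ({_, q} : Finset V3)))
  obtain ⟨t, ht, c, hc, rfl⟩ := mem_ptsOf (hB' (by simp : u ∈ ({u, w} : Finset V3)))
  obtain ⟨t', ht', c', hc', rfl⟩ := mem_ptsOf (hB' (by simp : w ∈ ({_, w} : Finset V3)))
  have h1 := hcon ((s.1 : ℝ), (s.2 : ℝ), (z : ℝ)) (by simp) ((t.1 : ℝ), (t.2 : ℝ), (c : ℝ)) (by simp)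
  have h2 := hcon ((s'.1 : ℝ), (s'.2 : ℝ), (z' : ℝ)) (by simp) ((t.1 : ℝ), (t.2 : ℝ), (c : ℝ))
    (by simp)
  have h3 := hcon ((s.1 : ℝ), (s.2 : ℝ), (z : ℝ)) (by simp) ((t'.1 : ℝ), (t'.2 : ℝ), (c' : ℝ))
    (by simp)
  have h4 := hcon ((s'.1 : ℝ), (s'.2 : ℝ), (z' : ℝ)) (by simp)
    ((t'.1 : ℝ), (t'.2 : ℝ), (c' : ℝ)) (by simp)
  unfold Inc at h1 h2 h3 h4
  simp only at h1 h2 h3 h4
  have hs_ne : s ≠ s' := by
    rintro rfl
    apply hpq
    have : (z : ℝ) = z' := by linarith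
    rw [this]
  have ht_ne : t ≠ t' := by
    rintro rfl
    apply huw
    have : (c : ℝ) = c' := by linarith
    rw [this]
  apply h s hs s' hs' t ht t' ht' hs_ne ht_ne
  have : (((s.1 : ℝ) - s'.1) * ((t.1 : ℝ) - t'.1) + ((s.2 : ℝ) - s'.2) * ((t.2 : ℝ) - t'.2)) = 0 := by
    nlinarith
  exact_mod_cast this

theorem free_two_three (S T : Finset (ℕ × ℕ)) (K L : ℕ)
    (h : ∀ t ∈ T, ∀ t' ∈ T, ∀ t'' ∈ T, t ≠ t' → t ≠ t'' → t' ≠ t'' →
      ((t'.1 : ℤ) - t.1) * ((t''.2 : ℤ) - t.2) - ((t''.1 : ℤ) - t.1) * ((t'.2 : ℤ) - t.2) ≠ 0) :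
    Free 2 3 (ptsOf S K) (ptsOf T L) := by
  intro A' hA' B' hB' hAc hBc
  obtain ⟨p, q, hpq, rfl⟩ := Finset.card_eq_two.1 hAc
  obtain ⟨u, v, w, huv, huw, hvw, rfl⟩ := Finset.card_eq_three.1 hBc
  by_contra hcon
  push Not at hcon
  obtain ⟨s, hs, z, hz, rfl⟩ := mem_ptsOf (hA' (by simp : p ∈ ({p, q} : Finset V3)))
  obtain ⟨s', hs', z', hz', rfl⟩ := mem_ptsOf (hA' (by simp : q ∈ ({_, q} : Finset V3)))
  obtain ⟨t, ht, c, hc, rfl⟩ := mem_ptsOf (hB' (by simp : u ∈ ({u, v, w} : Finset V3)))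
  obtain ⟨t', ht', c', hc', rfl⟩ := mem_ptsOf (hB' (by simp : v ∈ ({_, v, w} : Finset V3)))
  obtain ⟨t'', ht'', c'', hc'', rfl⟩ := mem_ptsOf (hB' (by simp : w ∈ ({_, _, w} : Finset V3)))
  have h1 := hcon ((s.1 : ℝ), (s.2 : ℝ), (z : ℝ)) (by simp) ((t.1 : ℝ), (t.2 : ℝ), (c : ℝ)) (by simp)
  have h2 := hcon ((s'.1 : ℝ), (s'.2 : ℝ), (z' : ℝ)) (by simp) ((t.1 : ℝ), (t.2 : ℝ), (c : ℝ))
    (by simp)
  have h3 := hcon ((s.1 : ℝ), (s.2 : ℝ), (z : ℝ)) (by simp) ((t'.1 : ℝ), (t'.2 : ℝ), (c' : ℝ))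
    (by simp)
  have h4 := hcon ((s'.1 : ℝ), (s'.2 : ℝ), (z' : ℝ)) (by simp)
    ((t'.1 : ℝ), (t'.2 : ℝ), (c' : ℝ)) (by simp)
  have h5 := hcon ((s.1 : ℝ), (s.2 : ℝ), (z : ℝ)) (by simp) ((t''.1 : ℝ), (t''.2 : ℝ), (c'' : ℝ))
    (by simp)
  have h6 := hcon ((s'.1 : ℝ), (s'.2 : ℝ), (z' : ℝ)) (by simp)
    ((t''.1 : ℝ), (t''.2 : ℝ), (c'' : ℝ)) (by simp)
  unfold Inc at h1 h2 h3 h4 h5 h6
  simp only at h1 h2 h3 h4 h5 h6
  have hs_ne : ¬ (((s.1 : ℝ) - s'.1) = 0 ∧ ((s.2 : ℝ) - s'.2) = 0) := by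
    rintro ⟨e1, e2⟩
    apply hpq
    have e1' : (s.1 : ℝ) = s'.1 := by linarith
    have e2' : (s.2 : ℝ) = s'.2 := by linarith
    have e3 : (z : ℝ) = z' := by rw [h1, h2, e1', e2']
    rw [e1', e2', e3]
  have hne1 : t ≠ t' := by
    rintro rfl
    apply huv
    have : (c : ℝ) = c' := by linarith
    rw [this]
  have hne2 : t ≠ t'' := by
    rintro rfl
    apply huw
    have : (c : ℝ) = c'' := by linarith
    rw [this]
  have hne3 : t' ≠ t'' := by
    rintro rfl
    apply hvw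
    have : (c' : ℝ) = c'' := by linarith
    rw [this]
  apply h t ht t' ht' t'' ht'' hne1 hne2 hne3
  set x := (s.1 : ℝ) - s'.1 with hx
  set y := (s.2 : ℝ) - s'.2 with hy
  have o1 : ((t'.1 : ℝ) - t.1) * x + ((t'.2 : ℝ) - t.2) * y = 0 := by
    rw [hx, hy]; nlinarith
  have o2 : ((t''.1 : ℝ) - t.1) * x + ((t''.2 : ℝ) - t.2) * y = 0 := by
    rw [hx, hy]; nlinarith
  have key : (((t'.1 : ℝ) - t.1) * ((t''.2 : ℝ) - t.2)
      - ((t''.1 : ℝ) - t.1) * ((t'.2 : ℝ) - t.2)) = 0 := by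
    by_contra hne
    apply hs_ne
    constructor
    · have : (((t'.1 : ℝ) - t.1) * ((t''.2 : ℝ) - t.2)
        - ((t''.1 : ℝ) - t.1) * ((t'.2 : ℝ) - t.2)) * x = 0 := by
        linear_combination (((t''.2 : ℝ) - t.2) * o1 - ((t'.2 : ℝ) - t.2) * o2)
      rcases mul_eq_zero.1 this with h' | h'
      · exact absurd h' hne
      · exact h'
    · have : (((t'.1 : ℝ) - t.1) * ((t''.2 : ℝ) - t.2)
        - ((t''.1 : ℝ) - t.1) * ((t'.2 : ℝ) - t.2)) * y = 0 := by
        linear_combination (((t'.1 : ℝ) - t.1) * o2 - ((t''.1 : ℝ) - t.1) * o1)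
      rcases mul_eq_zero.1 this with h' | h'
      · exact absurd h' hne
      · exact h'
  exact_mod_cast key

end Pool.Agent.Lib.MP_0f9b7a_co
end

section
set_option autoImplicit false

namespace Pool.Agent.Lib.MP_0f9b7a_co

open scoped Classical

/-- The square grid `[0,k)²`. -/
def grid (k : ℕ) : Finset (ℕ × ℕ) := Finset.range k ×ˢ Finset.range k

theorem card_grid (k : ℕ) : (grid k).card = k * k := by
  unfold grid; rw [Finset.card_product, Finset.card_range]

theorem mem_grid {k : ℕ} {s : ℕ × ℕ} : s ∈ grid k ↔ s.1 < k ∧ s.2 < k := by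
  unfold grid; simp

theorem natCast_zmod_inj {p a b : ℕ} (ha : a < p) (hb : b < p) (h : (a : ZMod p) = b) : a = b := by
  rw [ZMod.natCast_eq_natCast_iff'] at h
  rwa [Nat.mod_eq_of_lt ha, Nat.mod_eq_of_lt hb] at h

/-- A pigeonhole principle: some fibre of a map from the grid to `ZMod p` is large. -/
theorem exists_fiber {k p : ℕ} (hk : 1 ≤ k) (hp : p ≤ 2 * k) (hp0 : 0 < p)
    (φ : ℕ × ℕ → ZMod p) :
    ∃ (S : Finset (ℕ × ℕ)) (c : ZMod p), S ⊆ grid k ∧ S.card = (k + 1) / 2 ∧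
      ∀ s ∈ S, φ s = c := by
  have : NeZero p := ⟨hp0.ne'⟩
  have hlt : (Finset.univ : Finset (ZMod p)).card * ((k - 1) / 2) < (grid k).card := by
    rw [Finset.card_univ, ZMod.card, card_grid]
    have h1 : (k - 1) / 2 * 2 ≤ k - 1 := Nat.div_mul_le_self _ _
    calc p * ((k - 1) / 2) ≤ (2 * k) * ((k - 1) / 2) := Nat.mul_le_mul_right _ hp
      _ = k * ((k - 1) / 2 * 2) := by ring
      _ ≤ k * (k - 1) := Nat.mul_le_mul_left _ h1
      _ < k * k := Nat.mul_lt_mul_of_pos_left (by omega) (by omega)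
  obtain ⟨c, -, hc⟩ := Finset.exists_lt_card_fiber_of_mul_lt_card_of_maps_to
    (f := φ) (fun a _ => Finset.mem_univ _) hlt
  have hc' : (k + 1) / 2 ≤ ((grid k).filter fun x => φ x = c).card := by omega
  obtain ⟨S, hS, hScard⟩ := Finset.exists_subset_card_eq hc'
  refine ⟨S, c, hS.trans (Finset.filter_subset _ _), hScard, ?_⟩
  intro s hs
  exact (Finset.mem_filter.1 (hS hs)).2

/-- A large subset of the grid `[0,k)²` all of whose difference directions are not orthogonal to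
short vectors. -/
theorem exists_sparse_set (k l : ℕ) (hk : 1 ≤ k) (hl : l * l ≤ k) :
    ∃ S : Finset (ℕ × ℕ), S ⊆ grid k ∧ S.card = (k + 1) / 2 ∧
      ∀ s ∈ S, ∀ s' ∈ S, ∀ t ∈ grid l, ∀ t' ∈ grid l, s ≠ s' → t ≠ t' →
      ((s.1 : ℤ) - s'.1) * ((t.1 : ℤ) - t'.1) + ((s.2 : ℤ) - s'.2) * ((t.2 : ℤ) - t'.2) ≠ 0 := by
  obtain ⟨p, hp, hkp, hp2⟩ := Nat.exists_prime_lt_and_le_two_mul k (by omega)
  have : Fact p.Prime := ⟨hp⟩
  set a := Nat.sqrt p with ha
  have hla : l ≤ a := by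
    rw [ha, Nat.le_sqrt]; omega
  have haa : a * a ≤ p := Nat.sqrt_le p
  obtain ⟨S, c, hS, hcard, hc⟩ := exists_fiber (p := p) hk hp2 hp.pos
    (fun s => (s.2 : ZMod p) - (a : ZMod p) * (s.1 : ZMod p))
  refine ⟨S, hS, hcard, ?_⟩
  intro s hs s' hs' t ht t' ht' hne hne' h0
  have e1 := hc s hs
  have e2 := hc s' hs'
  have g1 := mem_grid.1 (hS hs)
  have g2 := mem_grid.1 (hS hs')
  have g3 := mem_grid.1 ht
  have g4 := mem_grid.1 ht'
  -- reduce the orthogonality relation modulo `p`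
  have h0' : ((s.1 : ZMod p) - s'.1) * ((t.1 : ZMod p) - t'.1)
      + ((s.2 : ZMod p) - s'.2) * ((t.2 : ZMod p) - t'.2) = 0 := by
    have := congrArg (fun z : ℤ => (z : ZMod p)) h0
    push_cast at this
    exact this
  have hdy : (s.2 : ZMod p) - s'.2 = (a : ZMod p) * ((s.1 : ZMod p) - s'.1) := by
    linear_combination e1 - e2
  have hprod : ((s.1 : ZMod p) - s'.1) *
      (((t.1 : ZMod p) - t'.1) + (a : ZMod p) * ((t.2 : ZMod p) - t'.2)) = 0 := by
    rw [hdy] at h0'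
    linear_combination h0'
  rcases mul_eq_zero.1 hprod with h1 | h1
  · -- the first coordinates agree
    have hx : s.1 = s'.1 :=
      natCast_zmod_inj (by omega) (by omega) (sub_eq_zero.1 h1)
    have hy : s.2 = s'.2 := by
      apply natCast_zmod_inj (p := p) (by omega) (by omega)
      rw [h1, mul_zero] at hdy
      exact sub_eq_zero.1 hdy
    exact hne (Prod.ext hx hy)
  · -- a small relation modulo `p`
    have h2 : (((t.1 : ℤ) - t'.1 + a * ((t.2 : ℤ) - t'.2) : ℤ) : ZMod p) = 0 := by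
      push_cast; exact h1
    rw [ZMod.intCast_zmod_eq_zero_iff_dvd] at h2
    have hl1 : 1 ≤ l := by omega
    have hb1 : |(t.1 : ℤ) - t'.1| ≤ a - 1 := by
      rw [abs_le]; constructor <;> omega
    have hb2 : |(t.2 : ℤ) - t'.2| ≤ a - 1 := by
      rw [abs_le]; constructor <;> omega
    have ha1 : (1 : ℤ) ≤ a := by omega
    have hsmall : |(t.1 : ℤ) - t'.1 + a * ((t.2 : ℤ) - t'.2)| < p := by
      calc |(t.1 : ℤ) - t'.1 + a * ((t.2 : ℤ) - t'.2)|
          ≤ |(t.1 : ℤ) - t'.1| + |(a : ℤ) * ((t.2 : ℤ) - t'.2)| := abs_add_le _ _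
        _ = |(t.1 : ℤ) - t'.1| + a * |(t.2 : ℤ) - t'.2| := by
            rw [abs_mul, abs_of_nonneg (by omega : (0 : ℤ) ≤ a)]
        _ ≤ (a - 1) + a * (a - 1) := by
            gcongr
        _ < a * a := by nlinarith
        _ ≤ p := by exact_mod_cast haa
    have hz : (t.1 : ℤ) - t'.1 + a * ((t.2 : ℤ) - t'.2) = 0 :=
      Int.eq_zero_of_abs_lt_dvd h2 hsmall
    by_cases hv : (t.2 : ℤ) - t'.2 = 0
    · rw [hv, mul_zero, add_zero] at hz
      apply hne'
      apply Prod.ext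
      · omega
      · omega
    · have h3 : (a : ℤ) ≤ |(t.1 : ℤ) - t'.1| := by
        have : (t.1 : ℤ) - t'.1 = -(a * ((t.2 : ℤ) - t'.2)) := by linarith
        rw [this, abs_neg, abs_mul, abs_of_nonneg (by omega : (0 : ℤ) ≤ a)]
        have : 1 ≤ |(t.2 : ℤ) - t'.2| := Int.one_le_abs hv
        nlinarith
      omega

/-- A large subset of the grid `[0,l)²` with no three points on a line. -/
theorem exists_no_three_in_line (l : ℕ) (hl : 1 ≤ l) :
    ∃ T : Finset (ℕ × ℕ), T ⊆ grid l ∧ T.card = (l + 1) / 2 ∧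
      ∀ t ∈ T, ∀ t' ∈ T, ∀ t'' ∈ T, t ≠ t' → t ≠ t'' → t' ≠ t'' →
      ((t'.1 : ℤ) - t.1) * ((t''.2 : ℤ) - t.2) - ((t''.1 : ℤ) - t.1) * ((t'.2 : ℤ) - t.2) ≠ 0 := by
  obtain ⟨p, hp, hkp, hp2⟩ := Nat.exists_prime_lt_and_le_two_mul l (by omega)
  have : Fact p.Prime := ⟨hp⟩
  obtain ⟨S, c, hS, hcard, hc⟩ := exists_fiber (p := p) hl hp2 hp.pos
    (fun s => (s.2 : ZMod p) - (s.1 : ZMod p) ^ 2)
  refine ⟨S, hS, hcard, ?_⟩
  have key : ∀ s ∈ S, ∀ s' ∈ S, (s.1 : ZMod p) - s'.1 = 0 → s = s' := by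
    intro s hs s' hs' h
    have g1 := mem_grid.1 (hS hs)
    have g2 := mem_grid.1 (hS hs')
    have hx : s.1 = s'.1 := natCast_zmod_inj (by omega) (by omega) (sub_eq_zero.1 h)
    have e1 := hc s hs
    have e2 := hc s' hs'
    have hy : s.2 = s'.2 := by
      apply natCast_zmod_inj (p := p) (by omega) (by omega)
      rw [hx] at e1
      linear_combination e1 - e2
    exact Prod.ext hx hy
  intro t ht t' ht' t'' ht'' h1 h2 h3 h0
  have e1 := hc t ht
  have e2 := hc t' ht'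
  have e3 := hc t'' ht''
  have h0' : ((t'.1 : ZMod p) - t.1) * ((t''.2 : ZMod p) - t.2)
      - ((t''.1 : ZMod p) - t.1) * ((t'.2 : ZMod p) - t.2) = 0 := by
    have := congrArg (fun z : ℤ => (z : ZMod p)) h0
    push_cast at this
    exact this
  have hprod : ((t'.1 : ZMod p) - t.1) * (((t''.1 : ZMod p) - t.1) * ((t''.1 : ZMod p) - t'.1))
      = 0 := by
    have f2 : (t'.2 : ZMod p) = c + (t'.1 : ZMod p) ^ 2 := by linear_combination e2
    have f3 : (t''.2 : ZMod p) = c + (t''.1 : ZMod p) ^ 2 := by linear_combination e3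
    have f1 : (t.2 : ZMod p) = c + (t.1 : ZMod p) ^ 2 := by linear_combination e1
    rw [f1, f2, f3] at h0'
    linear_combination h0'
  rcases mul_eq_zero.1 hprod with h | h
  · exact h1 (key _ ht' _ ht h).symm
  · rcases mul_eq_zero.1 h with h | h
    · exact h2 (key _ ht'' _ ht h).symm
    · exact h3 (key _ ht'' _ ht' h).symm

end Pool.Agent.Lib.MP_0f9b7a_co
end

section
set_option autoImplicit false

namespace Pool.Agent.Lib.MP_0f9b7a_co

open scoped Classical

theorem f_mono_s {s t m n : ℕ} (hst : s ≤ t) : f s m n ≤ f t m n := by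
  unfold f
  rcases (values s m n).eq_empty_or_nonempty with h | h
  · rw [h]; simp
  · apply csSup_le_csSup (values_bddAbove t m n) h
    rintro k ⟨P, H, hP, hH, hpl, hfree, rfl⟩
    exact ⟨P, H, hP, hH, hpl, hfree.mono hst, rfl⟩

/-- The `K_{2,2}`-free construction. -/
theorem core_two (k l : ℕ) (hk : 1 ≤ k) (hl : l * l ≤ k) :
    ∃ A B : Finset V3, A.card ≤ 3 * k ^ 2 * l ∧ B.card ≤ k * l ^ 3 ∧ Free 2 2 A B ∧
      k ^ 2 * l ^ 3 ≤ 2 * inc A B := by
  obtain ⟨S, hS, hcard, horth⟩ := exists_sparse_set k l hk hl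
  refine ⟨ptsOf S (3 * (k * l)), ptsOf (grid l) (k * l), ?_, ?_, ?_, ?_⟩
  · rw [card_ptsOf, hcard]
    calc (k + 1) / 2 * (3 * (k * l)) ≤ k * (3 * (k * l)) := Nat.mul_le_mul_right _ (by omega)
      _ = 3 * k ^ 2 * l := by ring
  · rw [card_ptsOf, card_grid]
    apply le_of_eq; ring
  · exact free_two_two _ _ _ _ horth
  · have h1 := le_inc_ptsOf S (grid l) (k * l) (by
      intro s hs t ht
      have g1 := mem_grid.1 (hS hs)
      have g2 := mem_grid.1 ht
      have e1 : s.1 * t.1 ≤ k * l := Nat.mul_le_mul (by omega) (by omega)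
      have e2 : s.2 * t.2 ≤ k * l := Nat.mul_le_mul (by omega) (by omega)
      omega)
    rw [hcard, card_grid] at h1
    calc k ^ 2 * l ^ 3 = k * (l * l * (k * l)) := by ring
      _ ≤ (2 * ((k + 1) / 2)) * (l * l * (k * l)) := Nat.mul_le_mul_right _ (by omega)
      _ = 2 * ((k + 1) / 2 * (l * l) * (k * l)) := by ring
      _ ≤ _ := Nat.mul_le_mul_left _ h1

/-- The `K_{2,3}`-free construction. -/
theorem core_three (k l : ℕ) (hl : 1 ≤ l) :
    ∃ A B : Finset V3, A.card ≤ 3 * k ^ 3 * l ∧ B.card ≤ k * l ^ 2 ∧ Free 2 3 A B ∧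
      k ^ 3 * l ^ 2 ≤ 2 * inc A B := by
  obtain ⟨T, hT, hcard, hdet⟩ := exists_no_three_in_line l hl
  refine ⟨ptsOf (grid k) (3 * (k * l)), ptsOf T (k * l), ?_, ?_, ?_, ?_⟩
  · rw [card_ptsOf, card_grid]
    apply le_of_eq; ring
  · rw [card_ptsOf, hcard]
    calc (l + 1) / 2 * (k * l) ≤ l * (k * l) := Nat.mul_le_mul_right _ (by omega)
      _ = k * l ^ 2 := by ring
  · exact free_two_three _ _ _ _ hdet
  · have h1 := le_inc_ptsOf (grid k) T (k * l) (by
      intro s hs t ht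
      have g1 := mem_grid.1 hs
      have g2 := mem_grid.1 (hT ht)
      have e1 : s.1 * t.1 ≤ k * l := Nat.mul_le_mul (by omega) (by omega)
      have e2 : s.2 * t.2 ≤ k * l := Nat.mul_le_mul (by omega) (by omega)
      omega)
    rw [hcard, card_grid] at h1
    calc k ^ 3 * l ^ 2 = l * (k * k * (k * l)) := by ring
      _ ≤ (2 * ((l + 1) / 2)) * (k * k * (k * l)) := Nat.mul_le_mul_right _ (by omega)
      _ = 2 * (k * k * ((l + 1) / 2) * (k * l)) := by ring
      _ ≤ _ := Nat.mul_le_mul_left _ h1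

theorem core_two_f {k l m n : ℕ} (hk : 1 ≤ k) (hl : l * l ≤ k) (hm : 3 * k ^ 2 * l ≤ m)
    (hn : k * l ^ 3 ≤ n) : k ^ 2 * l ^ 3 ≤ 2 * f 2 m n ∧ k ^ 2 * l ^ 3 ≤ 2 * f 2 n m := by
  obtain ⟨A, B, hA, hB, hfree, hinc⟩ := core_two k l hk hl
  constructor
  · exact hinc.trans (Nat.mul_le_mul_left _ (inc_le_f (by norm_num) (hA.trans hm) (hB.trans hn) hfree))
  · exact hinc.trans
      (Nat.mul_le_mul_left _ (inc_le_f_dual (by norm_num) (hA.trans hm) (hB.trans hn) hfree))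

theorem core_three_f {k l m n : ℕ} (hl : 1 ≤ l) (hm : 3 * k ^ 3 * l ≤ m)
    (hn : k * l ^ 2 ≤ n) : k ^ 3 * l ^ 2 ≤ 2 * f 3 m n ∧ k ^ 3 * l ^ 2 ≤ 2 * f 3 n m := by
  obtain ⟨A, B, hA, hB, hfree, hinc⟩ := core_three k l hl
  have hfree' : Free 3 3 A B := hfree.mono (by norm_num) le_rfl
  constructor
  · exact hinc.trans
      (Nat.mul_le_mul_left _ (inc_le_f (by norm_num) (hA.trans hm) (hB.trans hn) hfree'))
  · exact hinc.trans
      (Nat.mul_le_mul_left _ (inc_le_f_dual (by norm_num) (hA.trans hm) (hB.trans hn) hfree'))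

/-- The trivial lower bound. -/
theorem trivial_lower {m n : ℕ} (hm : 1 ≤ m) (hn : 1 ≤ n) : m + n ≤ 2 * f 2 m n := by
  -- `n` planes through the origin, and `m - 1` further points on one of them only
  set A : Finset V3 := (Finset.range m).image fun i : ℕ => ((i : ℝ), (0 : ℝ), (0 : ℝ)) with hA
  set B : Finset V3 := (Finset.range n).image fun j : ℕ => ((j : ℝ), (0 : ℝ), (0 : ℝ)) with hB
  have injN : Function.Injective fun i : ℕ => (((i : ℝ), (0 : ℝ), (0 : ℝ)) : V3) := by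
    intro i j h
    simpa using h
  have hAc : A.card = m := by
    rw [hA, Finset.card_image_of_injective _ injN, Finset.card_range]
  have hBc : B.card = n := by
    rw [hB, Finset.card_image_of_injective _ injN, Finset.card_range]
  have hfree : Free 2 2 A B := by
    intro A' hA' B' hB' hAc' hBc'
    obtain ⟨p, q, hpq, rfl⟩ := Finset.card_eq_two.1 hAc'
    obtain ⟨u, w, huw, rfl⟩ := Finset.card_eq_two.1 hBc'
    by_contra hcon
    push Not at hcon
    obtain ⟨i, hi, rfl⟩ := Finset.mem_image.1 (hA' (by simp : p ∈ ({p, q} : Finset V3)))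
    obtain ⟨i', hi', rfl⟩ := Finset.mem_image.1 (hA' (by simp : q ∈ ({_, q} : Finset V3)))
    obtain ⟨j, hj, rfl⟩ := Finset.mem_image.1 (hB' (by simp : u ∈ ({u, w} : Finset V3)))
    obtain ⟨j', hj', rfl⟩ := Finset.mem_image.1 (hB' (by simp : w ∈ ({_, w} : Finset V3)))
    have h1 := hcon ((i : ℝ), (0 : ℝ), (0 : ℝ)) (by simp) ((j : ℝ), (0 : ℝ), (0 : ℝ)) (by simp)
    have h2 := hcon ((i : ℝ), (0 : ℝ), (0 : ℝ)) (by simp) ((j' : ℝ), (0 : ℝ), (0 : ℝ)) (by simp)
    have h3 := hcon ((i' : ℝ), (0 : ℝ), (0 : ℝ)) (by simp) ((j : ℝ), (0 : ℝ), (0 : ℝ)) (by simp)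
    have h4 := hcon ((i' : ℝ), (0 : ℝ), (0 : ℝ)) (by simp) ((j' : ℝ), (0 : ℝ), (0 : ℝ)) (by simp)
    unfold Inc at h1 h2 h3 h4
    simp only [mul_zero, add_zero] at h1 h2 h3 h4
    have hi0 : (i : ℝ) = 0 := by
      by_contra hne
      have hj0 : (j : ℝ) = 0 := by
        rcases mul_eq_zero.1 h1.symm with h | h
        · exact h
        · exact absurd h hne
      have hj0' : (j' : ℝ) = 0 := by
        rcases mul_eq_zero.1 h2.symm with h | h
        · exact h
        · exact absurd h hne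
      apply huw
      rw [hj0, hj0']
    have hi0' : (i' : ℝ) = 0 := by
      by_contra hne
      have hj0 : (j : ℝ) = 0 := by
        rcases mul_eq_zero.1 h3.symm with h | h
        · exact h
        · exact absurd h hne
      have hj0' : (j' : ℝ) = 0 := by
        rcases mul_eq_zero.1 h4.symm with h | h
        · exact h
        · exact absurd h hne
      apply huw
      rw [hj0, hj0']
    apply hpq
    rw [hi0, hi0']
  have hinc1 : n ≤ inc A B := by
    unfold inc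
    rw [← hBc]
    apply Finset.card_le_card_of_injOn (fun w => (((0 : ℝ), (0 : ℝ), (0 : ℝ)), w))
    · intro w hw
      simp only [Finset.coe_filter, Finset.mem_product, Set.mem_ofPred_eq]
      refine ⟨⟨?_, hw⟩, ?_⟩
      · rw [hA, Finset.mem_image]
        exact ⟨0, by simp; omega, by simp⟩
      · obtain ⟨j, -, rfl⟩ := Finset.mem_image.1 (Finset.mem_coe.1 hw)
        unfold Inc; simp
    · intro w _ w' _ h
      simpa using h
  have hinc2 : m ≤ inc A B := by
    unfold inc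
    rw [← hAc]
    apply Finset.card_le_card_of_injOn (fun v => (v, ((0 : ℝ), (0 : ℝ), (0 : ℝ))))
    · intro v hv
      simp only [Finset.coe_filter, Finset.mem_product, Set.mem_ofPred_eq]
      refine ⟨⟨hv, ?_⟩, ?_⟩
      · rw [hB, Finset.mem_image]
        exact ⟨0, by simp; omega, by simp⟩
      · obtain ⟨j, -, rfl⟩ := Finset.mem_image.1 (Finset.mem_coe.1 hv)
        unfold Inc; simp
    · intro w _ w' _ h
      simpa using h
  have := inc_le_f (m := m) (n := n) (by norm_num : 1 ≤ 2) hAc.le hBc.le hfree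
  omega

/-! ### choice of parameters -/

theorem half_le_floor {z : ℝ} (hz : 1 ≤ z) : z / 2 ≤ (⌊z⌋₊ : ℝ) := by
  have h1 : z < (⌊z⌋₊ : ℝ) + 1 := Nat.lt_floor_add_one z
  have h2 : (1 : ℝ) ≤ (⌊z⌋₊ : ℝ) := by
    exact_mod_cast (Nat.one_le_floor_iff z).2 hz
  linarith

/-- `s = 2`, the balanced main term, in terms of fifth roots `x = m^{1/5}`, `y = n^{1/5}`. -/
theorem two_aux {m n : ℕ} {x y : ℝ} (hx : x ^ 5 = m) (hy : y ^ 5 = n) (hy1 : 1 ≤ y)
    (hxy : y ≤ x) :
    x ^ 3 * y ^ 4 ≤ 2048 * (f 2 m n : ℝ) + 4 * m ∧ x ^ 3 * y ^ 4 ≤ 2048 * (f 2 n m : ℝ) + 4 * m := by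
  have hx1 : 1 ≤ x := hy1.trans hxy
  have hx0 : 0 < x := by linarith
  have hy0 : 0 < y := by linarith
  have hf0 : (0 : ℝ) ≤ f 2 m n := by positivity
  have hf0' : (0 : ℝ) ≤ f 2 n m := by positivity
  by_cases hcase : 2 * x ≤ y ^ 2
  · -- main case
    have hy2 : 2 ≤ y := by nlinarith
    set k0 : ℝ := x ^ 3 / (2 * y) with hk0
    set l0 : ℝ := y ^ 2 / (2 * x) with hl0
    have hk01 : 1 ≤ k0 := by
      rw [hk0, le_div_iff₀ (by positivity)]
      nlinarith [mul_pos hx0 hx0, mul_le_mul hxy hxy hy0.le hx0.le]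
    have hl01 : 1 ≤ l0 := by
      rw [hl0, le_div_iff₀ (by positivity)]; linarith
    set k := ⌊k0⌋₊ with hk
    set l := ⌊l0⌋₊ with hl
    have hkle : (k : ℝ) ≤ k0 := Nat.floor_le (by positivity)
    have hlle : (l : ℝ) ≤ l0 := Nat.floor_le (by positivity)
    have hkge : k0 / 2 ≤ (k : ℝ) := half_le_floor hk01
    have hlge : l0 / 2 ≤ (l : ℝ) := half_le_floor hl01
    have hk1 : 1 ≤ k := (Nat.one_le_floor_iff _).2 hk01
    have hll : l * l ≤ k := by
      rw [hk]
      apply Nat.le_floor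
      push_cast
      calc (l : ℝ) * l ≤ l0 * l0 := by gcongr
        _ ≤ k0 := by
          rw [hl0, hk0, div_mul_div_comm, div_le_div_iff₀ (by positivity) (by positivity)]
          have h5 : y ^ 5 ≤ x ^ 5 := by gcongr
          nlinarith
    have hm : 3 * k ^ 2 * l ≤ m := by
      have : ((3 * k ^ 2 * l : ℕ) : ℝ) ≤ m := by
        push_cast
        calc 3 * (k : ℝ) ^ 2 * l ≤ 3 * k0 ^ 2 * l0 := by gcongr
          _ = 3 / 8 * x ^ 5 := by rw [hk0, hl0]; field_simp; ring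
          _ ≤ x ^ 5 := by nlinarith [pow_pos hx0 5]
          _ = m := hx
      exact_mod_cast this
    have hn : k * l ^ 3 ≤ n := by
      have : ((k * l ^ 3 : ℕ) : ℝ) ≤ n := by
        push_cast
        calc (k : ℝ) * (l : ℝ) ^ 3 ≤ k0 * l0 ^ 3 := by gcongr
          _ = 1 / 16 * y ^ 5 := by rw [hk0, hl0]; field_simp; ring
          _ ≤ y ^ 5 := by nlinarith [pow_pos hy0 5]
          _ = n := hy
      exact_mod_cast this
    have hI : x ^ 3 * y ^ 4 ≤ 1024 * ((k ^ 2 * l ^ 3 : ℕ) : ℝ) := by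
      push_cast
      calc x ^ 3 * y ^ 4 = 1024 * ((k0 / 2) ^ 2 * (l0 / 2) ^ 3) := by
            rw [hk0, hl0]; field_simp; ring
        _ ≤ 1024 * ((k : ℝ) ^ 2 * (l : ℝ) ^ 3) := by gcongr
    obtain ⟨h1, h2⟩ := core_two_f hk1 hll hm hn
    have h1' : ((k ^ 2 * l ^ 3 : ℕ) : ℝ) ≤ 2 * (f 2 m n : ℝ) := by exact_mod_cast h1
    have h2' : ((k ^ 2 * l ^ 3 : ℕ) : ℝ) ≤ 2 * (f 2 n m : ℝ) := by exact_mod_cast h2
    have hm0 : (0 : ℝ) ≤ m := by positivity
    constructor <;> linarith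
  · -- trivial case
    push Not at hcase
    have h4 : x ^ 3 * y ^ 4 ≤ 4 * m := by
      rw [← hx]
      have : y ^ 4 ≤ (2 * x) ^ 2 := by
        calc y ^ 4 = (y ^ 2) ^ 2 := by ring
          _ ≤ (2 * x) ^ 2 := by gcongr
      calc x ^ 3 * y ^ 4 ≤ x ^ 3 * (2 * x) ^ 2 := by gcongr
        _ = 4 * x ^ 5 := by ring
    constructor <;> linarith

/-- `s = 3`, in terms of fifth roots. -/
theorem three_aux {m n : ℕ} {x y : ℝ} (hx : x ^ 5 = m) (hy : y ^ 5 = n) (hy1 : 1 ≤ y)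
    (hxy : y ≤ x) :
    x ^ 4 * y ^ 3 ≤ 2048 * (f 3 m n : ℝ) + 128 * m ∧
      x ^ 4 * y ^ 3 ≤ 2048 * (f 3 n m : ℝ) + 128 * m := by
  have hx1 : 1 ≤ x := hy1.trans hxy
  have hx0 : 0 < x := by linarith
  have hy0 : 0 < y := by linarith
  have hf0 : (0 : ℝ) ≤ f 3 m n := by positivity
  have hf0' : (0 : ℝ) ≤ f 3 n m := by positivity
  by_cases hcase : 2 * x ≤ y ^ 3
  · by_cases hcase2 : 2 * y ≤ x ^ 2
    · set k0 : ℝ := x ^ 2 / (2 * y) with hk0
      set l0 : ℝ := y ^ 3 / (2 * x) with hl0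
      have hk01 : 1 ≤ k0 := by
        rw [hk0, le_div_iff₀ (by positivity)]; linarith
      have hl01 : 1 ≤ l0 := by
        rw [hl0, le_div_iff₀ (by positivity)]; linarith
      set k := ⌊k0⌋₊ with hk
      set l := ⌊l0⌋₊ with hl
      have hkle : (k : ℝ) ≤ k0 := Nat.floor_le (by positivity)
      have hlle : (l : ℝ) ≤ l0 := Nat.floor_le (by positivity)
      have hkge : k0 / 2 ≤ (k : ℝ) := half_le_floor hk01
      have hlge : l0 / 2 ≤ (l : ℝ) := half_le_floor hl01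
      have hl1 : 1 ≤ l := (Nat.one_le_floor_iff _).2 hl01
      have hm : 3 * k ^ 3 * l ≤ m := by
        have : ((3 * k ^ 3 * l : ℕ) : ℝ) ≤ m := by
          push_cast
          calc 3 * (k : ℝ) ^ 3 * l ≤ 3 * k0 ^ 3 * l0 := by gcongr
            _ = 3 / 16 * x ^ 5 := by rw [hk0, hl0]; field_simp; ring
            _ ≤ x ^ 5 := by nlinarith [pow_pos hx0 5]
            _ = m := hx
        exact_mod_cast this
      have hn : k * l ^ 2 ≤ n := by
        have : ((k * l ^ 2 : ℕ) : ℝ) ≤ n := by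
          push_cast
          calc (k : ℝ) * (l : ℝ) ^ 2 ≤ k0 * l0 ^ 2 := by gcongr
            _ = 1 / 8 * y ^ 5 := by rw [hk0, hl0]; field_simp; ring
            _ ≤ y ^ 5 := by nlinarith [pow_pos hy0 5]
            _ = n := hy
        exact_mod_cast this
      have hI : x ^ 4 * y ^ 3 ≤ 1024 * ((k ^ 3 * l ^ 2 : ℕ) : ℝ) := by
        push_cast
        calc x ^ 4 * y ^ 3 = 1024 * ((k0 / 2) ^ 3 * (l0 / 2) ^ 2) := by
              rw [hk0, hl0]; field_simp; ring
          _ ≤ 1024 * ((k : ℝ) ^ 3 * (l : ℝ) ^ 2) := by gcongr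
      obtain ⟨h1, h2⟩ := core_three_f hl1 hm hn
      have h1' : ((k ^ 3 * l ^ 2 : ℕ) : ℝ) ≤ 2 * (f 3 m n : ℝ) := by exact_mod_cast h1
      have h2' : ((k ^ 3 * l ^ 2 : ℕ) : ℝ) ≤ 2 * (f 3 n m : ℝ) := by exact_mod_cast h2
      have hm0 : (0 : ℝ) ≤ m := by positivity
      constructor <;> linarith
    · push Not at hcase2
      have hx2 : x < 2 := by nlinarith
      have hm1 : (1 : ℝ) ≤ m := by
        rw [← hx]; exact one_le_pow₀ hx1
      have : x ^ 4 * y ^ 3 ≤ 128 := by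
        calc x ^ 4 * y ^ 3 ≤ 2 ^ 4 * 2 ^ 3 := by
              gcongr
              linarith
          _ = 128 := by norm_num
      constructor <;> linarith
  · push Not at hcase
    have h4 : x ^ 4 * y ^ 3 ≤ 2 * m := by
      rw [← hx]
      calc x ^ 4 * y ^ 3 ≤ x ^ 4 * (2 * x) := by gcongr
        _ = 2 * x ^ 5 := by ring
    have hm0 : (0 : ℝ) ≤ m := by positivity
    constructor <;> linarith

end Pool.Agent.Lib.MP_0f9b7a_co
end

section
set_option autoImplicit false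

namespace Pool.Agent.Lib.MP_0f9b7a_co

open scoped Classical

theorem rpow_fifth_pow (a : ℝ) (ha : 0 ≤ a) (k : ℕ) :
    (a ^ (1 / 5 : ℝ)) ^ k = a ^ ((k : ℝ) / 5) := by
  rw [← Real.rpow_natCast, ← Real.rpow_mul ha]
  congr 1
  ring

theorem fifth_facts {m : ℕ} (hm : 1 ≤ m) :
    ((m : ℝ) ^ (1 / 5 : ℝ)) ^ 5 = m ∧ (1 : ℝ) ≤ (m : ℝ) ^ (1 / 5 : ℝ) ∧
    ((m : ℝ) ^ (1 / 5 : ℝ)) ^ 3 = (m : ℝ) ^ (3 / 5 : ℝ) ∧
    ((m : ℝ) ^ (1 / 5 : ℝ)) ^ 4 = (m : ℝ) ^ (4 / 5 : ℝ) := by
  have hm0 : (0 : ℝ) ≤ m := by positivity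
  have hm1 : (1 : ℝ) ≤ m := by exact_mod_cast hm
  refine ⟨?_, ?_, ?_, ?_⟩
  · rw [rpow_fifth_pow _ hm0]; norm_num
  · exact Real.one_le_rpow hm1 (by norm_num)
  · rw [rpow_fifth_pow _ hm0]; norm_num
  · rw [rpow_fifth_pow _ hm0]; norm_num

/-- Lower bound for `s = 2`. -/
theorem lower_two : ∃ c : ℝ, 0 < c ∧ ∀ m n : ℕ, 1 ≤ m → 1 ≤ n →
    c * (min ((m : ℝ) ^ (3 / 5 : ℝ) * (n : ℝ) ^ (4 / 5 : ℝ))
      ((m : ℝ) ^ (4 / 5 : ℝ) * (n : ℝ) ^ (3 / 5 : ℝ)) + m + n) ≤ f 2 m n := by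
  refine ⟨1 / 4096, by norm_num, ?_⟩
  intro m n hm hn
  obtain ⟨hx5, hx1, hx3, hx4⟩ := fifth_facts hm
  obtain ⟨hy5, hy1, hy3, hy4⟩ := fifth_facts hn
  rw [← hx3, ← hx4, ← hy3, ← hy4]
  set x := (m : ℝ) ^ (1 / 5 : ℝ)
  set y := (n : ℝ) ^ (1 / 5 : ℝ)
  have ht : ((m + n : ℕ) : ℝ) ≤ 2 * (f 2 m n : ℝ) := by exact_mod_cast trivial_lower hm hn
  push_cast at ht
  have hf0 : (0 : ℝ) ≤ f 2 m n := by positivity
  have hm0 : (0 : ℝ) ≤ m := by positivity
  have hn0 : (0 : ℝ) ≤ n := by positivity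
  have key : min (x ^ 3 * y ^ 4) (x ^ 4 * y ^ 3) ≤ 2048 * (f 2 m n : ℝ) + 4 * (m + n) := by
    rcases le_total y x with h | h
    · have := (two_aux hx5 hy5 hy1 h).1
      exact (min_le_left _ _).trans (by linarith)
    · have := (two_aux hy5 hx5 hx1 h).2
      refine (min_le_right _ _).trans ?_
      have e : x ^ 4 * y ^ 3 = y ^ 3 * x ^ 4 := by ring
      rw [e]; linarith
  linarith

/-- Lower bound for `s ≥ 3`. -/
theorem lower_three : ∃ c : ℝ, 0 < c ∧ ∀ s m n : ℕ, 3 ≤ s → 1 ≤ m → 1 ≤ n →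
    c * (max ((m : ℝ) ^ (3 / 5 : ℝ) * (n : ℝ) ^ (4 / 5 : ℝ))
      ((m : ℝ) ^ (4 / 5 : ℝ) * (n : ℝ) ^ (3 / 5 : ℝ)) + m + n) ≤ f s m n := by
  refine ⟨1 / 4096, by norm_num, ?_⟩
  intro s m n hs hm hn
  obtain ⟨hx5, hx1, hx3, hx4⟩ := fifth_facts hm
  obtain ⟨hy5, hy1, hy3, hy4⟩ := fifth_facts hn
  rw [← hx3, ← hx4, ← hy3, ← hy4]
  set x := (m : ℝ) ^ (1 / 5 : ℝ)
  set y := (n : ℝ) ^ (1 / 5 : ℝ)
  have hmono : ((f 3 m n : ℕ) : ℝ) ≤ f s m n := by exact_mod_cast f_mono_s hs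
  have hmono2 : ((f 2 m n : ℕ) : ℝ) ≤ f s m n := by
    exact_mod_cast f_mono_s (by omega : 2 ≤ s)
  have ht : ((m + n : ℕ) : ℝ) ≤ 2 * (f 2 m n : ℝ) := by exact_mod_cast trivial_lower hm hn
  push_cast at ht
  have hm0 : (0 : ℝ) ≤ m := by positivity
  have hn0 : (0 : ℝ) ≤ n := by positivity
  have hx0 : 0 < x := by linarith
  have hy0 : 0 < y := by linarith
  have key : max (x ^ 3 * y ^ 4) (x ^ 4 * y ^ 3) ≤ 2048 * (f 3 m n : ℝ) + 128 * (m + n) := by
    rcases le_total y x with h | h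
    · have h1 := (three_aux hx5 hy5 hy1 h).1
      have h2 : x ^ 3 * y ^ 4 ≤ x ^ 4 * y ^ 3 := by
        calc x ^ 3 * y ^ 4 = x ^ 3 * y ^ 3 * y := by ring
          _ ≤ x ^ 3 * y ^ 3 * x := by gcongr
          _ = x ^ 4 * y ^ 3 := by ring
      rw [max_eq_right h2]
      linarith
    · have h1 := (three_aux hy5 hx5 hx1 h).2
      have h2 : x ^ 4 * y ^ 3 ≤ x ^ 3 * y ^ 4 := by
        calc x ^ 4 * y ^ 3 = x ^ 3 * y ^ 3 * x := by ring
          _ ≤ x ^ 3 * y ^ 3 * y := by gcongr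
          _ = x ^ 3 * y ^ 4 := by ring
      rw [max_eq_left h2]
      have e : x ^ 3 * y ^ 4 = y ^ 4 * x ^ 3 := by ring
      rw [e]
      linarith
  linarith

end Pool.Agent.Lib.MP_0f9b7a_co
end
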