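import Mathlib
import Pool.Agent.Lib.MP_0f9b7a_co.LowerFinal

section
/-!
# A zone lemma for affine functions on the line

For a finite family of affine functions `t ↦ α k * t + β k` we bound the number of times `t` at
which the largest negative value is attained by two functions of different slopes.
-/
set_option autoImplicit false

namespace Pool.Agent.Lib.MP_0f9b7a_co

open scoped Classical

variable {ι : Type*}

/-- At time `t` two functions of different slopes have the same negative value and no function has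
a larger negative value. -/
def Visible (R : Finset ι) (α β : ι → ℝ) (t : ℝ) : Prop :=
  ∃ i ∈ R, ∃ j ∈ R, α i < α j ∧ α i * t + β i = α j * t + β j ∧ α i * t + β i < 0 ∧
    ∀ k ∈ R, ¬ (α i * t + β i < α k * t + β k ∧ α k * t + β k < 0)

theorem card_visible_le (R : Finset ι) (α β : ι → ℝ) (S : Finset ℝ)
    (hS : ∀ t ∈ S, Visible R α β t) : S.card ≤ 4 * R.card + 1 := by
  set W : ι → ℝ → ℝ := fun k t => α k * t + β k with hW
  have hWdiff : ∀ k t t', W k t' = W k t + α k * (t' - t) := by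
    intro k t t'; simp only [hW]; ring
  let V : ℝ → ι → ι → Prop := fun t i j => α i < α j ∧ W i t = W j t ∧ W i t < 0 ∧
    ∀ k ∈ R, ¬ (W i t < W k t ∧ W k t < 0)
  have hV : ∀ t ∈ S, ∃ i ∈ R, ∃ j ∈ R, V t i j := by
    intro t ht
    obtain ⟨i, hi, j, hj, h⟩ := hS t ht
    exact ⟨i, hi, j, hj, h⟩
  let S1 := S.filter fun t => ∃ i ∈ R, ∃ j ∈ R, V t i j ∧ α j ≤ 0
  let S2 := S.filter fun t => ∃ i ∈ R, ∃ j ∈ R, V t i j ∧ 0 ≤ α i
  let S3 := S.filter fun t => ∃ i ∈ R, ∃ j ∈ R, V t i j ∧ α i < 0 ∧ 0 < α j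
  have hcover : S ⊆ S1 ∪ S2 ∪ S3 := by
    intro t ht
    obtain ⟨i, hi, j, hj, h⟩ := hV t ht
    simp only [Finset.mem_union, Finset.mem_filter, S1, S2, S3]
    rcases le_or_gt (α j) 0 with h1 | h1
    · exact Or.inl (Or.inl ⟨ht, i, hi, j, hj, h, h1⟩)
    · rcases le_or_gt 0 (α i) with h2 | h2
      · exact Or.inl (Or.inr ⟨ht, i, hi, j, hj, h, h2⟩)
      · exact Or.inr ⟨ht, i, hi, j, hj, h, h2, h1⟩
  have h1 : S1.card ≤ R.card := by
    apply Finset.card_le_card_of_forall_subsingleton
      (fun t i => ∃ j ∈ R, V t i j ∧ α j ≤ 0)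
    · intro t ht
      obtain ⟨-, i, hi, j, hj, h, h'⟩ := Finset.mem_filter.1 ht
      exact ⟨i, hi, j, hj, h, h'⟩
    · intro i hi
      have key : ∀ t t', (∃ j ∈ R, V t i j ∧ α j ≤ 0) → (∃ j ∈ R, V t' i j ∧ α j ≤ 0) →
          ¬ t < t' := by
        rintro t t' ⟨j, hj, ⟨hlt, heq, hneg, -⟩, hj0⟩ ⟨j', -, ⟨-, -, -, hvis'⟩, -⟩ hlt'
        apply hvis' j hj
        have e1 := hWdiff i t t'
        have e2 := hWdiff j t t'
        constructor
        · rw [e1, e2, heq]
          nlinarith
        · rw [e2]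
          nlinarith
      rintro t ⟨-, ht⟩ t' ⟨-, ht'⟩
      rcases lt_trichotomy t t' with h | h | h
      · exact absurd h (key t t' ht ht')
      · exact h
      · exact absurd h (key t' t ht' ht)
  have h2 : S2.card ≤ R.card := by
    apply Finset.card_le_card_of_forall_subsingleton
      (fun t j => ∃ i ∈ R, V t i j ∧ 0 ≤ α i)
    · intro t ht
      obtain ⟨-, i, hi, j, hj, h, h'⟩ := Finset.mem_filter.1 ht
      exact ⟨j, hj, i, hi, h, h'⟩
    · intro j hj
      have key : ∀ t t', (∃ i ∈ R, V t i j ∧ 0 ≤ α i) → (∃ i ∈ R, V t' i j ∧ 0 ≤ α i) →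
          ¬ t < t' := by
        rintro t t' ⟨i', -, ⟨-, heq', -, hvis'⟩, -⟩ ⟨i, hi, ⟨hlt, heq, hneg, -⟩, hi0⟩ hlt'
        apply hvis' i hi
        have e1 := hWdiff i t' t
        have e2 := hWdiff j t' t
        rw [heq']
        constructor
        · rw [e1, e2, ← heq]
          nlinarith
        · rw [e1]
          nlinarith
      rintro t ⟨-, ht⟩ t' ⟨-, ht'⟩
      rcases lt_trichotomy t t' with h | h | h
      · exact absurd h (key t t' ht ht')
      · exact h
      · exact absurd h (key t' t ht' ht)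
  have h3 : S3.card ≤ 2 * R.card + 1 := by
    let Z : Finset ℝ := R.image fun k => - β k / α k
    have hZ : Z.card ≤ R.card := Finset.card_image_le
    -- a zero between two mixed times
    have hzero : ∀ t ∈ S3, ∀ t' ∈ S3, t < t' → ∃ ζ ∈ Z, t ≤ ζ ∧ ζ ≤ t' := by
      intro t ht t' ht' hlt
      obtain ⟨-, i, hi, j, hj, ⟨hij, heq, hneg, hvis⟩, hi0, hj0⟩ := Finset.mem_filter.1 ht
      obtain ⟨-, i', hi', j', hj', ⟨hij', heq', hneg', hvis'⟩, hi0', hj0'⟩ :=
        Finset.mem_filter.1 ht'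
      have hzeroval : ∀ k, α k ≠ 0 → ∀ s, W k s = α k * (s - (- β k / α k)) := by
        intro k hk s
        simp only [hW]
        field_simp
        ring
      have ej := hWdiff j t t'
      have ei := hWdiff i' t' t
      rcases le_or_gt 0 (W j t') with hc | hc
      · refine ⟨- β j / α j, Finset.mem_image_of_mem _ hj, ?_, ?_⟩
        · have h0 : W j t < 0 := by rw [← heq]; exact hneg
          rw [hzeroval j hj0.ne'] at h0
          by_contra hcon
          push Not at hcon
          nlinarith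
        · rw [hzeroval j hj0.ne'] at hc
          by_contra hcon
          push Not at hcon
          nlinarith
      · have hle : W j t' ≤ W i' t' := by
          by_contra hcon
          push Not at hcon
          exact hvis' j hj ⟨hcon, hc⟩
        have hgt : W j t < W i' t := by nlinarith
        have hge : 0 ≤ W i' t := by
          by_contra hcon
          push Not at hcon
          exact hvis i' hi' ⟨by rw [heq]; exact hgt, hcon⟩
        refine ⟨- β i' / α i', Finset.mem_image_of_mem _ hi', ?_, ?_⟩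
        · rw [hzeroval i' hi0'.ne] at hge
          by_contra hcon
          push Not at hcon
          nlinarith
        · rw [hzeroval i' hi0'.ne] at hneg'
          by_contra hcon
          push Not at hcon
          nlinarith
    let c : ℝ → ℕ := fun t => (Z.filter fun ζ => ζ < t).card + (Z.filter fun ζ => ζ ≤ t).card
    have hmono : ∀ t ∈ S3, ∀ t' ∈ S3, t < t' → c t < c t' := by
      intro t ht t' ht' hlt
      obtain ⟨ζ, hζ, hl, hr⟩ := hzero t ht t' ht' hlt
      have m1 : (Z.filter fun ζ => ζ < t) ⊆ (Z.filter fun ζ => ζ < t') :=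
        Finset.monotone_filter_right _ (fun a _ h => lt_trans h hlt)
      have m2 : (Z.filter fun ζ => ζ ≤ t) ⊆ (Z.filter fun ζ => ζ ≤ t') :=
        Finset.monotone_filter_right _ (fun a _ h => le_trans h hlt.le)
      rcases eq_or_lt_of_le hl with he | he
      · have : (Z.filter fun ζ => ζ < t).card < (Z.filter fun ζ => ζ < t').card := by
          apply Finset.card_lt_card
          refine ⟨m1, fun hsub => ?_⟩
          have h5 := hsub (Finset.mem_filter.2 ⟨hζ, by rw [← he]; exact hlt⟩)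
          have := (Finset.mem_filter.1 h5).2
          rw [← he] at this
          exact lt_irrefl _ this
        exact add_lt_add_of_lt_of_le this (Finset.card_le_card m2)
      · have : (Z.filter fun ζ => ζ ≤ t).card < (Z.filter fun ζ => ζ ≤ t').card := by
          apply Finset.card_lt_card
          refine ⟨m2, fun hsub => ?_⟩
          have h5 := hsub (Finset.mem_filter.2 ⟨hζ, hr⟩)
          have := (Finset.mem_filter.1 h5).2
          exact absurd he (not_lt.2 this)
        exact add_lt_add_of_le_of_lt (Finset.card_le_card m1) this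
    have hinj : Set.InjOn c (S3 : Set ℝ) := by
      intro t ht t' ht' he
      rcases lt_trichotomy t t' with h | h | h
      · exact absurd he (hmono t ht t' ht' h).ne
      · exact h
      · exact absurd he (hmono t' ht' t ht h).ne'
    have hmaps : ∀ t ∈ S3, c t ∈ Finset.range (2 * R.card + 1) := by
      intro t _
      rw [Finset.mem_range]
      have a1 : (Z.filter fun ζ => ζ < t).card ≤ Z.card := Finset.card_filter_le _ _
      have a2 : (Z.filter fun ζ => ζ ≤ t).card ≤ Z.card := Finset.card_filter_le _ _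
      show (Z.filter fun ζ => ζ < t).card + (Z.filter fun ζ => ζ ≤ t).card < _
      omega
    have := Finset.card_le_card_of_injOn c hmaps hinj
    rwa [Finset.card_range] at this
  have h4 := Finset.card_le_card hcover
  have h5 := Finset.card_union_le (S1 ∪ S2) S3
  have h6 := Finset.card_union_le S1 S2
  omega

end Pool.Agent.Lib.MP_0f9b7a_co
end

section
/-!
# The number of labels is at most cubic
-/
set_option autoImplicit false

namespace Pool.Agent.Lib.MP_0f9b7a_co

open scoped Classical Topology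
open Filter

variable {m : ℕ} {P : Fin m → V3}

/-- one-sided filter at `a`: the points `u` with `sg σ * u < sg σ * a` -/
noncomputable def sf (σ : Bool) (a : ℝ) : Filter ℝ := if σ then 𝓝[<] a else 𝓝[>] a

theorem sf_neBot (σ : Bool) (a : ℝ) : (sf σ a).NeBot := by
  cases σ <;> simp only [sf, if_true, if_false, Bool.false_eq_true] <;> infer_instance

theorem sf_le (σ : Bool) (a : ℝ) : sf σ a ≤ 𝓝 a := by
  cases σ <;> simp only [sf, if_true, if_false, Bool.false_eq_true] <;> exact nhdsWithin_le_nhds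

theorem sf_mem (σ : Bool) (a : ℝ) : ∀ᶠ u in sf σ a, sg σ * u < sg σ * a := by
  cases σ
  · simp only [sf, if_false, Bool.false_eq_true]
    filter_upwards [self_mem_nhdsWithin] with u hu
    have : a < u := hu
    rw [sg_false]; linarith
  · simp only [sf, if_true]
    filter_upwards [self_mem_nhdsWithin] with u hu
    have : u < a := hu
    rw [sg_true]; linarith

/-- base filter -/
noncomputable def bf : Option ℝ → Filter ℝ
  | none => atBot
  | some ξ => 𝓝[>] ξ

theorem bf_neBot (o : Option ℝ) : (bf o).NeBot := by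
  cases o <;> simp only [bf] <;> infer_instance

/-- left end of a label -/
noncomputable def lend (P : Fin m → V3) (τ : Label m) : Option ℝ :=
  (τ.2.2 false).map (ab P τ.1 τ.2.1)

theorem sg_open {σ : Bool} {a b : ℝ} (h : sg σ * a < sg σ * b) :
    ∀ᶠ u in 𝓝 a, sg σ * u < sg σ * b := by
  have hc : Continuous fun u : ℝ => sg σ * u := by fun_prop
  exact hc.continuousAt.eventually (gt_mem_nhds h)

/-- Points near the left end of the cell of `τ`, near the line `l σ` and near the plane `g s`, lie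
in the cell. -/
theorem germ {R : Finset (Fin m)} {x : V3} {τ : Label m} (h : IsLabel P R x τ)
    (gx : Gen P x) (hP : ∀ i j, (P i).2.1 = (P j).2.1 → (P i).1 = (P j).1)
    {s σ : Bool} {g₀ a : Fin m} (hg₀ : τ.1 s = some g₀) (hl : τ.2.1 σ = some (a, s)) :
    ∀ᶠ t in bf (lend P τ), ∀ᶠ u in sf σ (lnf (P a) (P g₀) t), ∀ᶠ z in sf s (ev (P g₀) t u),
      Valid P τ (t, u, z) := by
  obtain ⟨⟨hv1, hv2, hv3⟩, hdefs, hok⟩ := h
  have h : IsLabel P R x τ := ⟨⟨hv1, hv2, hv3⟩, hdefs, hok⟩
  have hev : ∀ᶠ t in bf (lend P τ), EvOK P τ t := by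
    have h1 : ∀ r, τ.2.2 false = some r → ∀ᶠ t in bf (lend P τ), sg false * t < sg false * ab P τ.1 τ.2.1 r := by
      intro r hr
      have : lend P τ = some (ab P τ.1 τ.2.1 r) := by simp [lend, hr]
      rw [this]
      simp only [bf]
      filter_upwards [self_mem_nhdsWithin] with t ht
      have : ab P τ.1 τ.2.1 r < t := ht
      rw [sg_false]; linarith
    have h2 : ∀ r, τ.2.2 true = some r → ∀ᶠ t in bf (lend P τ), sg true * t < sg true * ab P τ.1 τ.2.1 r := by
      intro r hr
      have hxr := (hv3 true r hr).2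
      rw [sg_true, one_mul, one_mul] at hxr
      simp only [sg_true, one_mul]
      rcases hcase : τ.2.2 false with _ | r'
      · have : lend P τ = none := by simp [lend, hcase]
        rw [this]
        exact eventually_lt_atBot _
      · have : lend P τ = some (ab P τ.1 τ.2.1 r') := by simp [lend, hcase]
        rw [this]
        have hx' := (hv3 false r' hcase).2
        rw [sg_false] at hx'
        have hlt : ab P τ.1 τ.2.1 r' < ab P τ.1 τ.2.1 r := by linarith
        exact nhdsWithin_le_nhds (gt_mem_nhds hlt)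
    have h1' : ∀ᶠ t in bf (lend P τ), ∀ r, τ.2.2 false = some r → sg false * t < sg false * ab P τ.1 τ.2.1 r := by
      rcases hcase : τ.2.2 false with _ | r
      · simp
      · filter_upwards [h1 r hcase] with t ht r' hr'
        obtain rfl := Option.some.inj hr'
        exact ht
    have h2' : ∀ᶠ t in bf (lend P τ), ∀ r, τ.2.2 true = some r → sg true * t < sg true * ab P τ.1 τ.2.1 r := by
      rcases hcase : τ.2.2 true with _ | r
      · simp
      · filter_upwards [h2 r hcase] with t ht r' hr'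
        obtain rfl := Option.some.inj hr'
        exact ht
    filter_upwards [h1', h2'] with t ht1 ht2 σ' r hr
    refine ⟨(hv3 σ' r hr).1, ?_⟩
    cases σ'
    · exact ht1 r hr
    · exact ht2 r hr
  filter_upwards [hev] with t ht
  have hLt : lv P τ.1 (a, s) t = lnf (P a) (P g₀) t := lv_some P hg₀ t
  have hline : ∀ᶠ u in sf σ (lnf (P a) (P g₀) t), LineOK P τ t u := by
    have h1 : ∀ᶠ u in sf σ (lnf (P a) (P g₀) t), ∀ q, τ.2.1 σ = some q →
        sg σ * u < sg σ * lv P τ.1 q t := by
      filter_upwards [sf_mem σ (lnf (P a) (P g₀) t)] with u hu q hq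
      rw [hl] at hq
      obtain rfl := Option.some.inj hq
      rw [hLt]
      exact hu
    have h2 : ∀ᶠ u in sf σ (lnf (P a) (P g₀) t), ∀ q, τ.2.1 (!σ) = some q →
        sg (!σ) * u < sg (!σ) * lv P τ.1 q t := by
      rcases hcase : τ.2.1 (!σ) with _ | q
      · simp
      · have hx1 := (hv2 σ _ hl).2
        have hx2 := (hv2 (!σ) q hcase).2
        have hlt : sg (!σ) * lv P τ.1 (a, s) x.1 < sg (!σ) * lv P τ.1 (q.1, q.2) x.1 := by
          rw [sg_not] at hx2 ⊢
          simp only [Prod.mk.eta]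
          linarith
        have hqR : q.1 ∈ R := hdefs (mem_defs.2 ⟨!σ, Or.inr (Or.inl ⟨q.2, hcase⟩)⟩)
        have h3 := lv_order h ht hl hqR (by simpa using (hv2 (!σ) q hcase).1) hlt
        rw [hLt] at h3
        simp only [Prod.mk.eta] at h3
        filter_upwards [sf_le σ _ (sg_open h3)] with u hu q' hq'
        obtain rfl := Option.some.inj hq'
        exact hu
    filter_upwards [h1, h2] with u hu1 hu2 σ' q hq
    refine ⟨(hv2 σ' q hq).1, ?_⟩
    by_cases hσ : σ' = σ
    · subst hσ; exact hu1 q hq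
    · have : σ' = !σ := by cases σ <;> cases σ' <;> simp_all
      subst this; exact hu2 q hq
  filter_upwards [hline] with u hu
  have h1 : ∀ᶠ z in sf s (ev (P g₀) t u), ∀ j, τ.1 s = some j → sg s * z < sg s * ev (P j) t u := by
    filter_upwards [sf_mem s (ev (P g₀) t u)] with z hz j hj
    rw [hg₀] at hj
    obtain rfl := Option.some.inj hj
    exact hz
  have h2 : ∀ᶠ z in sf s (ev (P g₀) t u), ∀ j, τ.1 (!s) = some j →
      sg (!s) * z < sg (!s) * ev (P j) t u := by
    rcases hcase : τ.1 (!s) with _ | g₁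
    · simp
    · have hx1 := hv1 s _ hg₀
      have hx2 := hv1 (!s) _ hcase
      have hlt : sg (!s) * ev (P g₀) x.1 x.2.1 < sg (!s) * ev (P g₁) x.1 x.2.1 := by
        rw [sg_not] at hx2 ⊢
        linarith
      have hgR : g₁ ∈ R := hdefs (mem_defs.2 ⟨!s, Or.inl hcase⟩)
      have h3 := ev_order h gx hP hu ht hg₀ hgR hlt
      filter_upwards [sf_le s _ (sg_open h3)] with z hz j hj
      obtain rfl := Option.some.inj hj
      exact hz
  filter_upwards [h1, h2] with z hz1 hz2
  refine ⟨?_, hu, ht⟩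
  intro σ' j hj
  by_cases hσ : σ' = s
  · subst hσ; exact hz1 j hj
  · have : σ' = !s := by cases s <;> cases σ' <;> simp_all
    subst this; exact hz2 j hj

/-- Two labels with the same germ data are equal. -/
theorem eq_of_germ {R : Finset (Fin m)} {x x' : V3} {τ τ' : Label m} (h : IsLabel P R x τ)
    (gx : Gen P x) (h' : IsLabel P R x' τ') (gx' : Gen P x')
    (hP : ∀ i j, (P i).2.1 = (P j).2.1 → (P i).1 = (P j).1)
    {s σ : Bool} {g₀ a : Fin m} (hg₀ : τ.1 s = some g₀) (hl : τ.2.1 σ = some (a, s))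
    (hg₀' : τ'.1 s = some g₀) (hl' : τ'.2.1 σ = some (a, s)) (hend : lend P τ = lend P τ') :
    τ = τ' := by
  have h1 := germ h gx hP hg₀ hl
  have h2 := germ h' gx' hP hg₀' hl'
  rw [← hend] at h2
  have := bf_neBot (lend P τ)
  obtain ⟨t, ht1, ht2⟩ := (h1.and h2).exists
  have := sf_neBot σ (lnf (P a) (P g₀) t)
  obtain ⟨u, hu1, hu2⟩ := (ht1.and ht2).exists
  have := sf_neBot s (ev (P g₀) t u)
  obtain ⟨z, hz1, hz2⟩ := (hu1.and hu2).exists
  exact isLabel_unique P (isLabel_of_valid h gx hP hz1) (isLabel_of_valid h' gx' hP hz2)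

end Pool.Agent.Lib.MP_0f9b7a_co
end

section
/-!
# The number of labels is at most cubic (continued)
-/
set_option autoImplicit false

namespace Pool.Agent.Lib.MP_0f9b7a_co

open scoped Classical Topology
open Filter

variable {m : ℕ} {P : Fin m → V3}

/-- slope of the difference of the functions `p` and `g` along the line of `a` and `g` -/
noncomputable def dsl (s : Bool) (a g p : V3) : ℝ :=
  sg s * (- p.1 - p.2.1 * slp a g + g.1 + g.2.1 * slp a g)

/-- intercept of the difference of the functions `p` and `g` along the line of `a` and `g` -/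
noncomputable def dic (s : Bool) (a g p : V3) : ℝ :=
  sg s * (p.2.2 - p.2.1 * icpt a g - g.2.2 + g.2.1 * icpt a g)

theorem d_eq (s : Bool) (a g p : V3) (t : ℝ) :
    dsl s a g p * t + dic s a g p =
      sg s * (ev p t (lnf a g t) - ev g t (lnf a g t)) := by
  unfold dsl dic ev lnf; ring

theorem dsl_sub (s : Bool) (a g p q : V3) (h : p.2.1 ≠ q.2.1) :
    dsl s a g p - dsl s a g q = sg s * ((p.2.1 - q.2.1) * (slp p q - slp a g)) := by
  have h' : p.2.1 - q.2.1 ≠ 0 := sub_ne_zero.2 h
  have e : (p.2.1 - q.2.1) * slp p q = - (p.1 - q.1) := by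
    unfold slp; field_simp
  calc dsl s a g p - dsl s a g q
      = sg s * (- (p.1 - q.1) - (p.2.1 - q.2.1) * slp a g) := by unfold dsl; ring
    _ = sg s * ((p.2.1 - q.2.1) * (slp p q - slp a g)) := by rw [← e]; ring

theorem dsl_self (s : Bool) (a g : V3) : dsl s a g g = 0 := by unfold dsl; ring

theorem near_pos (F : ℝ → ℝ → ℝ) (hF : Continuous fun q : ℝ × ℝ => F q.1 q.2) (L : ℝ → ℝ)
    (hL : Continuous L) (ξ : ℝ) (σ : Bool) (h : 0 < F ξ (L ξ)) :
    ∀ᶠ t in 𝓝[>] ξ, ∀ᶠ u in sf σ (L t), 0 < F t u := by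
  have h1 : Continuous fun t => F t (L t) := hF.comp (continuous_id.prodMk hL)
  have h2 : ∀ᶠ t in 𝓝 ξ, 0 < F t (L t) := h1.continuousAt.eventually (lt_mem_nhds h)
  filter_upwards [nhdsWithin_le_nhds h2] with t ht
  have h3 : Continuous fun u => F t u := hF.comp (continuous_const.prodMk continuous_id)
  exact sf_le σ _ (h3.continuousAt.eventually (lt_mem_nhds ht))

theorem continuous_ev (p : V3) : Continuous fun q : ℝ × ℝ => ev p q.1 q.2 := by
  unfold ev; fun_prop

theorem continuous_lnf (p q : V3) : Continuous (lnf p q) := by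
  unfold lnf; fun_prop

/-- The left end of a cell is a zero or a visible crossing. -/
theorem lend_cases {R : Finset (Fin m)} {x : V3} {τ : Label m} (h : IsLabel P R x τ)
    (gx : Gen P x) (hP : ∀ i j, (P i).2.1 = (P j).2.1 → (P i).1 = (P j).1)
    {s σ : Bool} {g₀ a : Fin m} (hg₀ : τ.1 s = some g₀) (hl : τ.2.1 σ = some (a, s))
    {c : Fin m} {s' : Bool} (he : τ.2.2 false = some (c, s', σ)) :
    lend P τ = some (ab P τ.1 τ.2.1 (c, s', σ)) ∧
    (ab P τ.1 τ.2.1 (c, s', σ) ∈
        R.image (fun k => - dic s (P a) (P g₀) (P k) / dsl s (P a) (P g₀) (P k)) ∨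
      Visible R (fun k => dsl s (P a) (P g₀) (P k)) (fun k => dic s (P a) (P g₀) (P k))
        (ab P τ.1 τ.2.1 (c, s', σ))) := by
  have hlend : lend P τ = some (ab P τ.1 τ.2.1 (c, s', σ)) := by simp [lend, he]
  refine ⟨hlend, ?_⟩
  set ξ := ab P τ.1 τ.2.1 (c, s', σ) with hξ
  set W : Fin m → ℝ := fun k => dsl s (P a) (P g₀) (P k) * ξ + dic s (P a) (P g₀) (P k) with hW
  set L : ℝ → ℝ := lnf (P a) (P g₀) with hL
  have hWev : ∀ k, W k = sg s * (ev (P k) ξ (L ξ) - ev (P g₀) ξ (L ξ)) := fun k => d_eq _ _ _ _ _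
  obtain ⟨⟨hv1, hv2, hv3⟩, hdefs, hok⟩ := id h
  obtain ⟨⟨hline, q, hq, hsl⟩, -⟩ := hv3 false _ he
  rw [hl] at hq
  obtain rfl := Option.some.inj hq
  obtain ⟨g₀', hg₀', hba⟩ := (hv2 σ _ hl).1
  have : g₀' = g₀ := by
    have h1 : τ.1 s = some g₀' := hg₀'
    rw [hg₀] at h1
    exact (Option.some.inj h1).symm
  subst this
  have hcR : c ∈ R := hdefs (mem_defs.2 ⟨false, Or.inr (Or.inr ⟨s', σ, he⟩)⟩)
  have hcross : lv P τ.1 (c, s') ξ = L ξ := by
    have e := lv_sub_lv P hl hsl ξ
    rw [← hξ, sub_self, mul_zero, lv_some P (q := (a, s)) hg₀] at e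
    linarith
  have hzero : ∀ k ∈ R, dsl s (P a) (P g₀') (P k) ≠ 0 → W k = 0 →
      ξ ∈ R.image (fun k => - dic s (P a) (P g₀') (P k) / dsl s (P a) (P g₀') (P k)) := by
    intro k hk hne h0
    refine Finset.mem_image.2 ⟨k, hk, ?_⟩
    rw [div_eq_iff hne]
    simp only [hW] at h0
    linarith
  obtain ⟨g₁, hg₁, hb⟩ := hline
  simp only at hg₁ hb
  have hcross' : lnf (P c) (P g₁) ξ = L ξ := by rw [← hcross, lv_some P (q := (c, s')) hg₁]
  have hevc : ev (P c) ξ (L ξ) = ev (P g₁) ξ (L ξ) := by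
    have := ev_sub_ev (P c) (P g₁) hb ξ (L ξ)
    rw [hcross', sub_self, mul_zero] at this
    linarith
  have hslp : slp (P c) (P g₁) ≠ slp (P a) (P g₀') := by
    rw [← sl_some P (q := (c, s')) hg₁, ← sl_some P (q := (a, s)) hg₀]; exact hsl
  have hdne : dsl s (P a) (P g₀') (P c) ≠ dsl s (P a) (P g₀') (P g₁) := by
    intro h0
    have := dsl_sub s (P a) (P g₀') (P c) (P g₁) hb
    rw [h0, sub_self] at this
    have h1 := mul_ne_zero (sg_ne_zero s) (mul_ne_zero (sub_ne_zero.2 hb) (sub_ne_zero.2 hslp))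
    exact h1 this.symm
  have hg₁R : g₁ ∈ R := hdefs (mem_defs.2 ⟨s', Or.inl hg₁⟩)
  have hWc : W c = W g₁ := by rw [hWev, hWev, hevc]
  by_cases hs : s' = s
  · subst hs
    left
    have h1 : g₁ = g₀' := by
      rw [hg₀] at hg₁; exact (Option.some.inj hg₁).symm
    subst h1
    apply hzero c hcR
    · rw [dsl_self] at hdne; exact hdne
    · rw [hWev, hevc]; ring
  · have hs' : s' = !s := by cases s <;> cases s' <;> simp_all
    subst hs'
    have hgerm := germ h gx hP hg₀ hl
    rw [hlend] at hgerm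
    simp only [bf] at hgerm
    rw [← hL] at hgerm
    have hWle : W g₁ ≤ 0 := by
      by_contra hcon
      push Not at hcon
      rw [hWev] at hcon
      have h1 := near_pos (fun t u => sg s * (ev (P g₁) t u - ev (P g₀') t u))
        (continuous_const.mul ((continuous_ev _).sub (continuous_ev _))) L (continuous_lnf _ _)
        ξ σ hcon
      obtain ⟨t, ht1, ht2⟩ := (hgerm.and h1).exists
      have := sf_neBot σ (L t)
      obtain ⟨u, hu1, hu2⟩ := (ht1.and ht2).exists
      have := sf_neBot s (ev (P g₀') t u)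
      obtain ⟨z, hz⟩ := hu1.exists
      have h2 := hz.1 s g₀' hg₀
      have h3 := hz.1 (!s) g₁ hg₁
      simp only at h2 h3
      rw [sg_not] at h3
      linarith
    rcases hWle.lt_or_eq with hWlt | hWeq
    · right
      have hvis : ∀ k ∈ R, ¬ (W g₁ < W k ∧ W k < 0) := by
        rintro k hk ⟨h1, h2⟩
        rw [hWev, hWev] at h1
        rw [hWev] at h2
        have n1 := near_pos (fun t u => sg s * (ev (P k) t u - ev (P g₁) t u))
          (continuous_const.mul ((continuous_ev _).sub (continuous_ev _))) L (continuous_lnf _ _)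
          ξ σ (by linarith)
        have n2 := near_pos (fun t u => sg s * (ev (P g₀') t u - ev (P k) t u))
          (continuous_const.mul ((continuous_ev _).sub (continuous_ev _))) L (continuous_lnf _ _)
          ξ σ (by linarith)
        obtain ⟨t, ⟨ht1, ht2⟩, ht3⟩ := ((hgerm.and n1).and n2).exists
        have := sf_neBot σ (L t)
        obtain ⟨u, ⟨hu1, hu2⟩, hu3⟩ := ((ht1.and ht2).and ht3).exists
        have hlt : sg (!s) * ev (P g₀') t u < sg (!s) * ev (P k) t u := by
          rw [sg_not]; linarith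
        have := sf_neBot s (ev (P g₀') t u)
        obtain ⟨z, hz1, hz2⟩ := (hu1.and (sf_le s _ (sg_open hlt))).exists
        have hlab := isLabel_of_valid h gx hP hz1
        obtain ⟨j, hj, hle⟩ := ((hlab.2.2 k hk).1 (!s)).le hz2
        rw [hg₁] at hj
        obtain rfl := Option.some.inj hj
        simp only at hle
        rw [sg_not] at hle
        linarith
      rcases lt_or_gt_of_ne hdne with hlt | hlt
      · exact ⟨c, hcR, g₁, hg₁R, hlt, hWc, by rw [← hWc] at hWlt; exact hWlt,
          by rw [← hWc] at hvis; exact hvis⟩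
      · exact ⟨g₁, hg₁R, c, hcR, hlt, hWc.symm, hWlt, hvis⟩
    · left
      by_cases h0 : dsl s (P a) (P g₀') (P c) = 0
      · apply hzero g₁ hg₁R _ hWeq
        intro h1
        exact hdne (h0.trans h1.symm)
      · exact hzero c hcR h0 (hWc.trans hWeq)

/-- The set of labels of generic points. -/
noncomputable def labels (P : Fin m → V3) (R : Finset (Fin m)) : Finset (Label m) :=
  Finset.univ.filter fun τ => ∃ x, Gen P x ∧ IsLabel P R x τ

/-- class of labels with given germ data -/
noncomputable def cls (P : Fin m → V3) (R : Finset (Fin m)) (σ s : Bool) (g₀ a : Fin m) :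
    Finset (Label m) :=
  (labels P R).filter fun τ => τ.1 s = some g₀ ∧ τ.2.1 σ = some (a, s) ∧
    (τ.2.2 false = none ∨ ∃ c s', τ.2.2 false = some (c, s', σ))

theorem card_cls_le (hP : ∀ i j, (P i).2.1 = (P j).2.1 → (P i).1 = (P j).1)
    (R : Finset (Fin m)) (σ s : Bool) (g₀ a : Fin m) :
    (cls P R σ s g₀ a).card ≤ 5 * R.card + 2 := by
  set C := cls P R σ s g₀ a with hC
  have hmem : ∀ τ ∈ C, (∃ x, Gen P x ∧ IsLabel P R x τ) ∧ τ.1 s = some g₀ ∧
      τ.2.1 σ = some (a, s) ∧ (τ.2.2 false = none ∨ ∃ c s', τ.2.2 false = some (c, s', σ)) := by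
    intro τ hτ
    obtain ⟨h1, h2⟩ := Finset.mem_filter.1 hτ
    exact ⟨(Finset.mem_filter.1 h1).2, h2⟩
  have hinj : Set.InjOn (lend P) (C : Set (Label m)) := by
    intro τ hτ τ' hτ' he
    obtain ⟨⟨x, gx, hx⟩, h1, h2, -⟩ := hmem τ hτ
    obtain ⟨⟨x', gx', hx'⟩, h1', h2', -⟩ := hmem τ' hτ'
    exact eq_of_germ hx gx hx' gx' hP h1 h2 h1' h2' he
  rw [← Finset.card_image_of_injOn hinj]
  let Z : Finset ℝ := R.image fun k => - dic s (P a) (P g₀) (P k) / dsl s (P a) (P g₀) (P k)
  let S : Finset ℝ := ((C.image (lend P)).image fun o => o.getD 0).filter fun t =>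
    Visible R (fun k => dsl s (P a) (P g₀) (P k)) (fun k => dic s (P a) (P g₀) (P k)) t
  have hsub : C.image (lend P) ⊆ insert none ((Z ∪ S).image some) := by
    intro o ho
    obtain ⟨τ, hτ, rfl⟩ := Finset.mem_image.1 ho
    obtain ⟨⟨x, gx, hx⟩, h1, h2, h3⟩ := hmem τ hτ
    rcases h3 with h3 | ⟨c, s', h3⟩
    · have : lend P τ = none := by simp [lend, h3]
      rw [this]; exact Finset.mem_insert_self _ _
    · obtain ⟨h4, h5⟩ := lend_cases hx gx hP h1 h2 h3
      rw [h4]
      refine Finset.mem_insert_of_mem (Finset.mem_image.2 ⟨_, ?_, rfl⟩)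
      rw [Finset.mem_union]
      rcases h5 with h5 | h5
      · exact Or.inl h5
      · right
        refine Finset.mem_filter.2 ⟨?_, h5⟩
        refine Finset.mem_image.2 ⟨lend P τ, ho, ?_⟩
        rw [h4]; rfl
  have c1 := Finset.card_le_card hsub
  have c2 : (insert none ((Z ∪ S).image some)).card ≤ ((Z ∪ S).image some).card + 1 :=
    Finset.card_insert_le _ _
  have c3 : ((Z ∪ S).image some).card ≤ (Z ∪ S).card := Finset.card_image_le
  have c4 := Finset.card_union_le Z S
  have c5 : Z.card ≤ R.card := Finset.card_image_le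
  have c6 : S.card ≤ 4 * R.card + 1 := card_visible_le R _ _ S (fun t ht =>
    (Finset.mem_filter.1 ht).2)
  omega

theorem card_labels_le (hP : ∀ i j, (P i).2.1 = (P j).2.1 → (P i).1 = (P j).1)
    (R : Finset (Fin m)) : (labels P R).card ≤ 31 * (R.card ^ 3 + 1) := by
  set N := R.card with hN
  let A : Finset (Label m) := (labels P R).filter fun τ => ∀ σ, τ.2.1 σ = none
  have hA : A.card ≤ (N + 1) * (N + 1) := by
    let φ : Label m → Option (Fin m) × Option (Fin m) := fun τ => (τ.1 true, τ.1 false)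
    have hmaps : ∀ τ ∈ A, φ τ ∈ Finset.insertNone R ×ˢ Finset.insertNone R := by
      intro τ hτ
      obtain ⟨h1, -⟩ := Finset.mem_filter.1 hτ
      obtain ⟨x, -, hx⟩ := (Finset.mem_filter.1 h1).2
      refine Finset.mem_product.2 ⟨?_, ?_⟩
      · refine Finset.mem_insertNone.2 (fun a ha => hx.2.1 (mem_defs.2 ⟨true, Or.inl ?_⟩))
        exact ha
      · refine Finset.mem_insertNone.2 (fun a ha => hx.2.1 (mem_defs.2 ⟨false, Or.inl ?_⟩))
        exact ha
    have hinj : Set.InjOn φ (A : Set (Label m)) := by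
      have hnone : ∀ τ ∈ A, (∀ σ, τ.2.1 σ = none) ∧ ∀ σ, τ.2.2 σ = none := by
        intro τ hτ
        obtain ⟨h1, h2⟩ := Finset.mem_filter.1 hτ
        obtain ⟨x, -, hx⟩ := (Finset.mem_filter.1 h1).2
        refine ⟨h2, fun σ => ?_⟩
        rcases hcase : τ.2.2 σ with _ | r
        · rfl
        · obtain ⟨⟨-, q, hq, -⟩, -⟩ := hx.1.2.2 σ r hcase
          rw [h2] at hq
          simp at hq
      rintro ⟨g, l, e⟩ hτ ⟨g', l', e'⟩ hτ' he
      obtain ⟨h1, h2⟩ := hnone _ hτ
      obtain ⟨h1', h2'⟩ := hnone _ hτ'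
      simp only [φ, Prod.mk.injEq] at he
      have hg : g = g' := by
        funext σ
        cases σ
        · exact he.2
        · exact he.1
      have hl : l = l' := by
        funext σ
        exact (h1 σ).trans (h1' σ).symm
      have hee : e = e' := by
        funext σ
        exact (h2 σ).trans (h2' σ).symm
      rw [hg, hl, hee]
    have := Finset.card_le_card_of_injOn φ hmaps hinj
    rwa [Finset.card_product, Finset.card_insertNone] at this
  have hcover : labels P R ⊆ A ∪ ((Finset.univ : Finset (Bool × Bool)) ×ˢ (R ×ˢ R)).biUnion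
      fun q => cls P R q.1.1 q.1.2 q.2.1 q.2.2 := by
    intro τ hτ
    by_cases hnone : ∀ σ, τ.2.1 σ = none
    · exact Finset.mem_union_left _ (Finset.mem_filter.2 ⟨hτ, hnone⟩)
    · apply Finset.mem_union_right
      obtain ⟨x, gx, hx⟩ := (Finset.mem_filter.1 hτ).2
      obtain ⟨⟨hv1, hv2, hv3⟩, hdefs, hok⟩ := id hx
      obtain ⟨σ, q, hq, hend⟩ : ∃ σ q, τ.2.1 σ = some q ∧
          (τ.2.2 false = none ∨ ∃ c s', τ.2.2 false = some (c, s', σ)) := by
        rcases hcase : τ.2.2 false with _ | ⟨c, s', σ⟩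
        · push Not at hnone
          obtain ⟨σ, hσ⟩ := hnone
          obtain ⟨q, hq⟩ := Option.ne_none_iff_exists'.1 hσ
          exact ⟨σ, q, hq, Or.inl rfl⟩
        · obtain ⟨⟨-, q, hq, -⟩, -⟩ := hv3 false _ hcase
          exact ⟨σ, q, hq, Or.inr ⟨c, s', rfl⟩⟩
      obtain ⟨a, s⟩ := q
      obtain ⟨⟨g₀, hg₀, -⟩, -⟩ := hv2 σ _ hq
      have haR : a ∈ R := hdefs (mem_defs.2 ⟨σ, Or.inr (Or.inl ⟨s, hq⟩)⟩)
      have hgR : g₀ ∈ R := hdefs (mem_defs.2 ⟨s, Or.inl hg₀⟩)
      refine Finset.mem_biUnion.2 ⟨((σ, s), (g₀, a)), ?_, ?_⟩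
      · exact Finset.mem_product.2 ⟨Finset.mem_univ _, Finset.mem_product.2 ⟨hgR, haR⟩⟩
      · exact Finset.mem_filter.2 ⟨hτ, hg₀, hq, hend⟩
  have c1 := (Finset.card_le_card hcover).trans (Finset.card_union_le _ _)
  have c2 : (((Finset.univ : Finset (Bool × Bool)) ×ˢ (R ×ˢ R)).biUnion
      fun q => cls P R q.1.1 q.1.2 q.2.1 q.2.2).card ≤ (4 * (N * N)) * (5 * N + 2) := by
    refine (Finset.card_biUnion_le_card_mul _ _ (5 * N + 2) ?_).trans ?_
    · intro q _
      exact card_cls_le hP R _ _ _ _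
    · rw [Finset.card_product, Finset.card_product]
      simp only [Finset.card_univ, Fintype.card_prod, Fintype.card_bool]
      exact le_of_eq (by ring)
  have c3 : (labels P R).card ≤ (N + 1) * (N + 1) + (4 * (N * N)) * (5 * N + 2) := by omega
  refine c3.trans ?_
  have h1 : N ≤ N ^ 3 := Nat.le_self_pow (by norm_num) N
  have h2 : N * N ≤ N ^ 3 := by
    rcases Nat.eq_zero_or_pos N with h | h
    · rw [h]; simp
    · calc N * N = N ^ 2 := by ring
        _ ≤ N ^ 3 := Nat.pow_le_pow_right h (by norm_num)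
  have e : (N + 1) * (N + 1) + (4 * (N * N)) * (5 * N + 2) = 20 * N ^ 3 + 9 * (N * N) + 2 * N + 1 := by
    ring
  rw [e]
  omega

end Pool.Agent.Lib.MP_0f9b7a_co
end

section
/-!
# Conflict sets, exactness and generic perturbation
-/
set_option autoImplicit false

namespace Pool.Agent.Lib.MP_0f9b7a_co

open scoped Classical Topology
open Filter

variable {m : ℕ} {P : Fin m → V3}

/-- The conflict set of a label. -/
noncomputable def confl (P : Fin m → V3) (τ : Label m) : Finset (Fin m) :=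
  Finset.univ.filter fun c => ∃ x, Gen P x ∧ IsLabel P (defs τ) x τ ∧ ¬ OKc P τ x c

/-- A label is realized if it is the label of a generic point. -/
def Realized (P : Fin m → V3) (τ : Label m) : Prop :=
  ∃ x, Gen P x ∧ IsLabel P (defs τ) x τ

theorem IsLabel.mono {R R' : Finset (Fin m)} {x : V3} {τ : Label m} (h : IsLabel P R x τ)
    (h1 : defs τ ⊆ R') (h2 : R' ⊆ R) : IsLabel P R' x τ :=
  ⟨h.1, h1, fun c hc => h.2.2 c (h2 hc)⟩

theorem IsLabel.defs {R : Finset (Fin m)} {x : V3} {τ : Label m} (h : IsLabel P R x τ) :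
    IsLabel P (defs τ) x τ := h.mono (Finset.Subset.refl _) h.2.1

theorem mem_confl_iff (hP : ∀ i j, (P i).2.1 = (P j).2.1 → (P i).1 = (P j).1) {x : V3}
    {τ : Label m} (gx : Gen P x) (h : IsLabel P (defs τ) x τ) (c : Fin m) :
    c ∈ confl P τ ↔ ¬ OKc P τ x c := by
  constructor
  · intro hc hok
    obtain ⟨x', gx', h', hok'⟩ := (Finset.mem_filter.1 hc).2
    have h1 : IsLabel P (insert c (defs τ)) x τ :=
      ⟨h.1, Finset.subset_insert _ _, fun d hd => by
        rcases Finset.mem_insert.1 hd with hd | hd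
        · rw [hd]; exact hok
        · exact h.2.2 d hd⟩
    exact hok' ((isLabel_of_valid h1 gx hP h'.1).2.2 c (Finset.mem_insert_self _ _))
  · intro hok
    exact Finset.mem_filter.2 ⟨Finset.mem_univ _, x, gx, h, hok⟩

theorem isLabel_iff (hP : ∀ i j, (P i).2.1 = (P j).2.1 → (P i).1 = (P j).1) {x : V3}
    (gx : Gen P x) (R : Finset (Fin m)) (τ : Label m) :
    IsLabel P R x τ ↔ (Realized P τ ∧ Valid P τ x) ∧ defs τ ⊆ R ∧ Disjoint R (confl P τ) := by
  constructor
  · intro h
    refine ⟨⟨⟨x, gx, h.defs⟩, h.1⟩, h.2.1, ?_⟩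
    rw [Finset.disjoint_left]
    intro c hc hc'
    exact (mem_confl_iff hP gx h.defs c).1 hc' (h.2.2 c hc)
  · rintro ⟨⟨⟨x', gx', h'⟩, hv⟩, hd, hdis⟩
    have h1 := isLabel_of_valid h' gx' hP hv
    refine ⟨hv, hd, fun c hc => ?_⟩
    by_contra hcon
    exact Finset.disjoint_left.1 hdis hc ((mem_confl_iff hP gx h1 c).2 hcon)

theorem disjoint_defs_confl (hP : ∀ i j, (P i).2.1 = (P j).2.1 → (P i).1 = (P j).1)
    {τ : Label m} (h : Realized P τ) : Disjoint (defs τ) (confl P τ) := by
  obtain ⟨x, gx, hx⟩ := h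
  exact ((isLabel_iff hP gx _ _).1 hx).2.2

theorem mem_labels_iff (hP : ∀ i j, (P i).2.1 = (P j).2.1 → (P i).1 = (P j).1)
    (R : Finset (Fin m)) (τ : Label m) :
    τ ∈ labels P R ↔ Realized P τ ∧ defs τ ⊆ R ∧ Disjoint R (confl P τ) := by
  constructor
  · intro h
    obtain ⟨x, gx, hx⟩ := (Finset.mem_filter.1 h).2
    obtain ⟨h1, h2⟩ := (isLabel_iff hP gx _ _).1 hx
    exact ⟨h1.1, h2⟩
  · rintro ⟨⟨x, gx, hx⟩, h2⟩
    exact Finset.mem_filter.2 ⟨Finset.mem_univ _, x, gx,
      (isLabel_iff hP gx _ _).2 ⟨⟨⟨x, gx, hx⟩, hx.1⟩, h2⟩⟩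

theorem inc_iff_ev (p h : V3) : Inc p h ↔ ev p h.1 h.2.1 = h.2.2 := by
  unfold Inc ev
  constructor <;> intro h <;> linarith

/-- Generic perturbation. -/
theorem exists_gen (hinj : Function.Injective P)
    (hP : ∀ i j, (P i).2.1 = (P j).2.1 → (P i).1 = (P j).1) (h : V3) :
    ∃ x, Gen P x ∧ ∀ i j, Inc (P i) h → ¬ Inc (P j) h →
      |ev (P i) x.1 x.2.1 - x.2.2| < |ev (P j) x.1 x.2.1 - x.2.2| := by
  have hclose : ∀ᶠ x in 𝓝 h, ∀ i j, Inc (P i) h → ¬ Inc (P j) h →
      |ev (P i) x.1 x.2.1 - x.2.2| < |ev (P j) x.1 x.2.1 - x.2.2| := by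
    rw [eventually_all]
    intro i
    rw [eventually_all]
    intro j
    by_cases hi : Inc (P i) h
    · by_cases hj : Inc (P j) h
      · exact Eventually.of_forall fun x _ h' => absurd hj h'
      · have hc : ∀ k, Continuous fun x : V3 => |ev (P k) x.1 x.2.1 - x.2.2| := by
          intro k; unfold ev; fun_prop
        have hlt : |ev (P i) h.1 h.2.1 - h.2.2| < |ev (P j) h.1 h.2.1 - h.2.2| := by
          rw [inc_iff_ev] at hi hj
          rw [hi, sub_self, abs_zero]
          exact abs_pos.2 (sub_ne_zero.2 hj)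
        filter_upwards [(hc i).continuousAt.eventually_lt (hc j).continuousAt hlt] with x hx _ _
        exact hx
    · exact Eventually.of_forall fun x h' => absurd h' hi
  have hcurry : ∀ᶠ t in 𝓝 h.1, ∀ᶠ u in 𝓝 h.2.1, ∀ᶠ z in 𝓝 h.2.2, ∀ i j, Inc (P i) h →
      ¬ Inc (P j) h → |ev (P i) t u - z| < |ev (P j) t u - z| := by
    have h1 : ∀ᶠ x in 𝓝 ((h.1, (h.2.1, h.2.2)) : V3), ∀ i j, Inc (P i) h → ¬ Inc (P j) h →
      |ev (P i) x.1 x.2.1 - x.2.2| < |ev (P j) x.1 x.2.1 - x.2.2| := hclose
    have h2 := h1.curry_nhds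
    filter_upwards [h2] with t ht
    exact ht.curry_nhds
  have hne : ∀ a b : ℝ, ∀ᶠ t in 𝓝[≠] a, t ≠ b := by
    intro a b
    have h1 : (𝓝[≠] a : Filter ℝ) ≤ cofinite := by
      rw [le_cofinite_iff_compl_singleton_mem]
      intro x
      by_cases hx : x = a
      · rw [hx]; exact self_mem_nhdsWithin
      · exact nhdsWithin_le_nhds (isOpen_compl_singleton.mem_nhds (Ne.symm hx))
    exact h1 (Set.finite_singleton b).compl_mem_cofinite
  have e1 : ∀ᶠ t in 𝓝[≠] h.1, ∀ i j k l, (P i).2.1 ≠ (P j).2.1 → (P k).2.1 ≠ (P l).2.1 →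
      slp (P i) (P j) ≠ slp (P k) (P l) → lnf (P i) (P j) t ≠ lnf (P k) (P l) t := by
    rw [eventually_all]; intro i
    rw [eventually_all]; intro j
    rw [eventually_all]; intro k
    rw [eventually_all]; intro l
    filter_upwards [hne h.1 ((icpt (P k) (P l) - icpt (P i) (P j)) /
      (slp (P i) (P j) - slp (P k) (P l)))] with t ht _ _ hsl he
    apply ht
    rw [eq_div_iff (sub_ne_zero.2 hsl)]
    unfold lnf at he
    linarith
  have e2 : ∀ t, ∀ᶠ u in 𝓝[≠] h.2.1, ∀ i j, i ≠ j → ev (P i) t u ≠ ev (P j) t u := by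
    intro t
    rw [eventually_all]; intro i
    rw [eventually_all]; intro j
    by_cases hb : (P i).2.1 = (P j).2.1
    · refine Eventually.of_forall fun u hij he => hij (hinj ?_)
      have ha := hP i j hb
      unfold ev at he
      rw [ha, hb] at he
      refine Prod.ext ha (Prod.ext hb ?_)
      linarith
    · filter_upwards [hne h.2.1 (lnf (P i) (P j) t)] with u hu hij he
      have := ev_sub_ev (P i) (P j) hb t u
      rw [he, sub_self] at this
      have h2 := mul_ne_zero (neg_ne_zero.2 (sub_ne_zero.2 hb)) (sub_ne_zero.2 hu)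
      exact h2 this.symm
  have e3 : ∀ t u, ∀ᶠ z in 𝓝[≠] h.2.2, ∀ i, ev (P i) t u ≠ z := by
    intro t u
    rw [eventually_all]; intro i
    filter_upwards [hne h.2.2 (ev (P i) t u)] with z hz he
    exact hz he.symm
  obtain ⟨t, ht1, ht2⟩ := (e1.and (nhdsWithin_le_nhds hcurry)).exists
  obtain ⟨u, hu1, hu2⟩ := ((e2 t).and (nhdsWithin_le_nhds ht2)).exists
  obtain ⟨z, hz1, hz2⟩ := ((e3 t u).and (nhdsWithin_le_nhds hu2)).exists
  exact ⟨(t, u, z), ⟨hz1, hu1, ht1⟩, hz2⟩

/-- If no sampled plane passes through `h`, then all planes through `h` are in conflict with the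
cell of the perturbed point. -/
theorem mem_confl_of_inc (hP : ∀ i j, (P i).2.1 = (P j).2.1 → (P i).1 = (P j).1) {h x : V3}
    (gx : Gen P x) (hx : ∀ i j, Inc (P i) h → ¬ Inc (P j) h →
      |ev (P i) x.1 x.2.1 - x.2.2| < |ev (P j) x.1 x.2.1 - x.2.2|)
    {R : Finset (Fin m)} (hR : ∀ j ∈ R, ¬ Inc (P j) h) {τ : Label m} (hτ : IsLabel P R x τ)
    {i : Fin m} (hi : Inc (P i) h) : i ∈ confl P τ := by
  rw [mem_confl_iff hP gx hτ.defs]
  intro hok
  have key : ∀ σ, ¬ (sg σ * x.2.2 < sg σ * ev (P i) x.1 x.2.1) := by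
    intro σ hlt
    obtain ⟨j, hj, hle⟩ := (hok.1 σ).le hlt
    have hjR : j ∈ R := hτ.2.1 (mem_defs.2 ⟨σ, Or.inl hj⟩)
    have h1 := hx i j hi (hR j hjR)
    have h2 := hτ.1.1 σ j hj
    have habs : ∀ y : ℝ, sg σ * x.2.2 < sg σ * y → |y - x.2.2| = sg σ * y - sg σ * x.2.2 := by
      intro y hy
      cases σ
      · simp only [sg_false] at hy ⊢
        rw [abs_of_neg (by linarith)]; ring
      · simp only [sg_true] at hy ⊢
        rw [abs_of_pos (by linarith)]; ring
    rw [habs _ hlt, habs _ h2] at h1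
    linarith
  rcases sg_lt_or (gx.1 i).symm true with h1 | h1
  · exact key _ h1
  · exact key _ h1

end Pool.Agent.Lib.MP_0f9b7a_co
end
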