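import Mathlib

/-!
# Point-plane incidences in three-dimensional real space: definitions

`R3` is real three-dimensional space, `IsPlane` says that an affine subspace is a plane,
`incidences P H` is the number of incident pairs, `KFree s P H` says that the incidence graph of
`P × H` contains no complete bipartite graph with `s` points and `s` planes, and `f s m n` is the
maximum number of incidences.
-/

set_option autoImplicit false

namespace Pool.Agent.Lib.MP_0f9b7a_co

open scoped Classical

/-- Real three-dimensional space. -/
abbrev R3 : Type := EuclideanSpace ℝ (Fin 3)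

/-- An affine subspace of `R3` is a plane if it is nonempty and two-dimensional. -/
def IsPlane (h : AffineSubspace ℝ R3) : Prop :=
  (h : Set R3).Nonempty ∧ Module.finrank ℝ h.direction = 2

/-- The number of pairs `(p, h)` in `P × H` with `p` on `h`. -/
noncomputable def incidences (P : Finset R3) (H : Finset (AffineSubspace ℝ R3)) : ℕ :=
  ((P ×ˢ H).filter fun q => q.1 ∈ q.2).card

/-- The incidence graph of `P × H` contains no `K_{s,s}`: among any `s` points of `P` and any `s`
planes of `H` some point does not lie on some plane. -/
def KFree (s : ℕ) (P : Finset R3) (H : Finset (AffineSubspace ℝ R3)) : Prop :=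
  ∀ A ⊆ P, ∀ B ⊆ H, A.card = s → B.card = s → ∃ p ∈ A, ∃ h ∈ B, p ∉ h

/-- The set of possible numbers of incidences of `m` points and `n` planes in `R3` whose incidence
graph contains no `K_{s,s}`. -/
def values (s m n : ℕ) : Set ℕ :=
  {k | ∃ (P : Finset R3) (H : Finset (AffineSubspace ℝ R3)), P.card = m ∧ H.card = n ∧
    (∀ h ∈ H, IsPlane h) ∧ KFree s P H ∧ incidences P H = k}

/-- `f s m n` is the maximum number of incidences of `m` points and `n` planes in `R3` whose
incidence graph contains no `K_{s,s}`. -/
noncomputable def f (s m n : ℕ) : ℕ := sSup (values s m n)

end Pool.Agent.Lib.MP_0f9b7a_co
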