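import Mathlib
import Pool.Agent.Lib.MP_0f9b7a_co.Conflict

section
/-!
# Random sampling from a finite set
-/
set_option autoImplicit false

namespace Pool.Agent.Lib.MP_0f9b7a_co

open scoped Classical

variable {m : ℕ}

/-- weight of the sample `R` -/
noncomputable def wt (p : ℝ) (R : Finset (Fin m)) : ℝ := p ^ R.card * (1 - p) ^ (m - R.card)

/-- expectation of `F` over a random sample in which each element is chosen with probability
`p` independently -/
noncomputable def Ex (p : ℝ) (F : Finset (Fin m) → ℝ) : ℝ := ∑ R, wt p R * F R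

theorem wt_nonneg {p : ℝ} (h0 : 0 ≤ p) (h1 : p ≤ 1) (R : Finset (Fin m)) : 0 ≤ wt p R :=
  mul_nonneg (pow_nonneg h0 _) (pow_nonneg (by linarith) _)

theorem Ex_mono {p : ℝ} (h0 : 0 ≤ p) (h1 : p ≤ 1) {F G : Finset (Fin m) → ℝ}
    (h : ∀ R, F R ≤ G R) : Ex p F ≤ Ex p G :=
  Finset.sum_le_sum fun R _ => mul_le_mul_of_nonneg_left (h R) (wt_nonneg h0 h1 R)

theorem Ex_add (p : ℝ) (F G : Finset (Fin m) → ℝ) :
    Ex p (fun R => F R + G R) = Ex p F + Ex p G := by
  simp only [Ex, mul_add, Finset.sum_add_distrib]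

theorem Ex_mul (p c : ℝ) (F : Finset (Fin m) → ℝ) :
    Ex p (fun R => c * F R) = c * Ex p F := by
  simp only [Ex, Finset.mul_sum]
  exact Finset.sum_congr rfl fun R _ => by ring

theorem Ex_sum {κ : Type*} (p : ℝ) (s : Finset κ) (F : κ → Finset (Fin m) → ℝ) :
    Ex p (fun R => ∑ i ∈ s, F i R) = ∑ i ∈ s, Ex p (F i) := by
  simp only [Ex, Finset.mul_sum]
  exact Finset.sum_comm

/-- Probability that the sample contains `D` and avoids `K`. -/
theorem Ex_event (p : ℝ) {D K : Finset (Fin m)} (h : Disjoint D K) :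
    Ex p (fun R => if D ⊆ R ∧ Disjoint R K then 1 else 0) = p ^ D.card * (1 - p) ^ K.card := by
  have h1 := Fintype.prod_add (fun i : Fin m => if i ∈ K then 0 else p)
    (fun i : Fin m => if i ∈ D then 0 else (1 - p))
  have h2 : ∏ i : Fin m, ((if i ∈ K then 0 else p) + (if i ∈ D then 0 else (1 - p))) =
      p ^ D.card * (1 - p) ^ K.card := by
    have : ∀ i : Fin m, ((if i ∈ K then 0 else p) + (if i ∈ D then 0 else (1 - p))) =
        (if i ∈ D then p else 1) * (if i ∈ K then (1 - p) else 1) := by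
      intro i
      by_cases hD : i ∈ D
      · have hK : i ∉ K := Finset.disjoint_left.1 h hD
        simp [hD, hK]
      · by_cases hK : i ∈ K
        · simp [hD, hK]
        · simp [hD, hK]
    rw [Finset.prod_congr rfl fun i _ => this i, Finset.prod_mul_distrib]
    simp
  rw [← h2, h1]
  unfold Ex
  apply Finset.sum_congr rfl
  intro R _
  have a1 : ∏ i ∈ R, (if i ∈ K then (0 : ℝ) else p) = if Disjoint R K then p ^ R.card else 0 := by
    by_cases hd : Disjoint R K
    · rw [if_pos hd, ← Finset.prod_const]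
      exact Finset.prod_congr rfl fun i hi => by rw [if_neg (Finset.disjoint_left.1 hd hi)]
    · rw [if_neg hd]
      obtain ⟨i, hi, hi'⟩ := Finset.not_disjoint_iff.1 hd
      exact Finset.prod_eq_zero hi (by rw [if_pos hi'])
  have a2 : ∏ i ∈ Rᶜ, (if i ∈ D then (0 : ℝ) else (1 - p)) =
      if D ⊆ R then (1 - p) ^ (m - R.card) else 0 := by
    by_cases hd : D ⊆ R
    · rw [if_pos hd]
      have : (Rᶜ : Finset (Fin m)).card = m - R.card := by
        rw [Finset.card_compl, Fintype.card_fin]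
      rw [← this, ← Finset.prod_const]
      exact Finset.prod_congr rfl fun i hi => by
        rw [if_neg (fun h' => Finset.mem_compl.1 hi (hd h'))]
    · rw [if_neg hd]
      obtain ⟨i, hi, hi'⟩ := Finset.not_subset.1 hd
      exact Finset.prod_eq_zero (Finset.mem_compl.2 hi') (by rw [if_pos hi])
  rw [a1, a2]
  unfold wt
  by_cases h1 : D ⊆ R <;> by_cases h2 : Disjoint R K <;> simp [h1, h2]

theorem Ex_one (p : ℝ) : Ex (m := m) p (fun _ => 1) = 1 := by
  have := Ex_event (m := m) p (D := ∅) (K := ∅) (Finset.disjoint_empty_left _)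
  simpa using this

theorem Ex_const (p c : ℝ) : Ex (m := m) p (fun _ => c) = c := by
  have := Ex_mul (m := m) p c (fun _ => 1)
  rw [Ex_one] at this
  simpa using this

/-- Expected number of `k`-subsets of the sample. -/
theorem Ex_choose (p : ℝ) (k : ℕ) :
    Ex (m := m) p (fun R => (R.card.choose k : ℝ)) = (m.choose k : ℝ) * p ^ k := by
  have h1 : ∀ R : Finset (Fin m), (R.card.choose k : ℝ) =
      ∑ S ∈ Finset.powersetCard k (Finset.univ : Finset (Fin m)),
        if S ⊆ R ∧ Disjoint R (∅ : Finset (Fin m)) then (1 : ℝ) else 0 := by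
    intro R
    rw [Finset.sum_boole]
    have : (Finset.powersetCard k (Finset.univ : Finset (Fin m))).filter
        (fun S => S ⊆ R ∧ Disjoint R (∅ : Finset (Fin m))) = Finset.powersetCard k R := by
      ext S
      simp only [Finset.mem_filter, Finset.mem_powersetCard, Finset.subset_univ, true_and,
        Finset.disjoint_empty_right, and_true]
      tauto
    rw [this, Finset.card_powersetCard]
  simp only [h1]
  rw [Ex_sum]
  have h2 : ∀ S ∈ Finset.powersetCard k (Finset.univ : Finset (Fin m)),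
      Ex p (fun R => if S ⊆ R ∧ Disjoint R (∅ : Finset (Fin m)) then (1 : ℝ) else 0) = p ^ k := by
    intro S hS
    rw [Ex_event p (Finset.disjoint_empty_right _), (Finset.mem_powersetCard.1 hS).2]
    simp
  rw [Finset.sum_congr rfl h2, Finset.sum_const, Finset.card_powersetCard, Finset.card_univ,
    Fintype.card_fin, nsmul_eq_mul]

theorem cube_eq (n : ℕ) : n ^ 3 = 6 * n.choose 3 + 6 * n.choose 2 + n := by
  induction n with
  | zero => simp
  | succ n ih =>
    have h3 : (n + 1).choose 3 = n.choose 2 + n.choose 3 := Nat.choose_succ_succ' n 2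
    have h2 : (n + 1).choose 2 = n.choose 1 + n.choose 2 := Nat.choose_succ_succ' n 1
    have h1 : n * (n - 1) = 2 * n.choose 2 := by
      rw [Nat.choose_two_right]
      have := Nat.even_mul_pred_self n
      have := Nat.two_mul_div_two_of_even this
      omega
    rw [h3, h2, Nat.choose_one_right]
    have h4 : n * n = 2 * n.choose 2 + n := by
      rw [← h1]
      rcases n with _ | k
      · simp
      · simp only [Nat.add_sub_cancel]; ring
    have h5 : (n + 1) ^ 3 = n ^ 3 + 3 * (n * n) + 3 * n + 1 := by ring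
    rw [h5, ih, h4]
    ring

theorem sq_eq (n : ℕ) : n ^ 2 = 2 * n.choose 2 + n := by
  induction n with
  | zero => simp
  | succ n ih =>
    have h2 : (n + 1).choose 2 = n.choose 1 + n.choose 2 := Nat.choose_succ_succ' n 1
    rw [h2, Nat.choose_one_right]
    have h5 : (n + 1) ^ 2 = n ^ 2 + 2 * n + 1 := by ring
    rw [h5, ih]
    ring

theorem choose_bound (k : ℕ) {p : ℝ} (h0 : 0 ≤ p) :
    (m.choose k : ℝ) * p ^ k ≤ (m * p) ^ k / (k.factorial : ℝ) := by
  have h := Nat.choose_le_pow_div (α := ℝ) k m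
  calc (m.choose k : ℝ) * p ^ k ≤ ((m : ℝ) ^ k / (k.factorial : ℝ)) * p ^ k :=
        mul_le_mul_of_nonneg_right h (pow_nonneg h0 _)
    _ = (m * p) ^ k / (k.factorial : ℝ) := by rw [mul_pow]; ring

theorem Ex_cube_le {p : ℝ} (h0 : 0 ≤ p) :
    Ex (m := m) p (fun R => (R.card : ℝ) ^ 3) ≤ (m * p) ^ 3 + 3 * (m * p) ^ 2 + m * p := by
  have h1 : ∀ R : Finset (Fin m), (R.card : ℝ) ^ 3 = 6 * (R.card.choose 3 : ℝ) +
      6 * (R.card.choose 2 : ℝ) + (R.card.choose 1 : ℝ) := by
    intro R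
    have := cube_eq R.card
    rw [Nat.choose_one_right]
    exact_mod_cast this
  simp only [h1]
  rw [Ex_add, Ex_add, Ex_mul, Ex_mul, Ex_choose, Ex_choose, Ex_choose]
  have a3 := choose_bound (m := m) 3 h0
  have a2 := choose_bound (m := m) 2 h0
  have a1 := choose_bound (m := m) 1 h0
  norm_num [Nat.factorial] at a3 a2 a1 ⊢
  linarith

theorem Ex_pairs_le {p : ℝ} (h0 : 0 ≤ p) :
    Ex (m := m) p (fun R => (R.card : ℝ) * ((R.card : ℝ) - 1)) ≤ (m * p) ^ 2 := by
  have h1 : ∀ R : Finset (Fin m), (R.card : ℝ) * ((R.card : ℝ) - 1) =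
      2 * (R.card.choose 2 : ℝ) := by
    intro R
    have : ((R.card ^ 2 : ℕ) : ℝ) = ((2 * R.card.choose 2 + R.card : ℕ) : ℝ) := by
      rw [sq_eq R.card]
    push_cast at this
    linarith
  simp only [h1]
  rw [Ex_mul, Ex_choose]
  have a2 := choose_bound (m := m) 2 h0
  norm_num [Nat.factorial] at a2 ⊢
  linarith

/-- Probability that the sample meets `S` in exactly `k` elements. -/
theorem Ex_card_inter (p : ℝ) (S : Finset (Fin m)) (k : ℕ) :
    Ex p (fun R => if (R ∩ S).card = k then 1 else 0) =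
      (S.card.choose k : ℝ) * (p ^ k * (1 - p) ^ (S.card - k)) := by
  have h1 : ∀ R : Finset (Fin m), (if (R ∩ S).card = k then (1 : ℝ) else 0) =
      ∑ D ∈ Finset.powersetCard k S, if D ⊆ R ∧ Disjoint R (S \ D) then (1 : ℝ) else 0 := by
    intro R
    rw [Finset.sum_boole]
    by_cases h : (R ∩ S).card = k
    · rw [if_pos h]
      have : (Finset.powersetCard k S).filter (fun D => D ⊆ R ∧ Disjoint R (S \ D)) =
          {R ∩ S} := by
        ext D
        simp only [Finset.mem_filter, Finset.mem_powersetCard, Finset.mem_singleton]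
        constructor
        · rintro ⟨⟨h1, -⟩, h2, h3⟩
          apply Finset.Subset.antisymm
          · exact Finset.subset_inter h2 h1
          · intro i hi
            obtain ⟨hiR, hiS⟩ := Finset.mem_inter.1 hi
            by_contra hcon
            exact Finset.disjoint_left.1 h3 hiR (Finset.mem_sdiff.2 ⟨hiS, hcon⟩)
        · rintro rfl
          refine ⟨⟨Finset.inter_subset_right, h⟩, Finset.inter_subset_left, ?_⟩
          rw [Finset.disjoint_left]
          intro i hiR hi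
          obtain ⟨hiS, hi'⟩ := Finset.mem_sdiff.1 hi
          exact hi' (Finset.mem_inter.2 ⟨hiR, hiS⟩)
      rw [this]; simp
    · rw [if_neg h]
      have : (Finset.powersetCard k S).filter (fun D => D ⊆ R ∧ Disjoint R (S \ D)) = ∅ := by
        rw [Finset.filter_eq_empty_iff]
        rintro D hD ⟨h2, h3⟩
        obtain ⟨h1, hk⟩ := Finset.mem_powersetCard.1 hD
        apply h
        rw [← hk]
        congr 1
        apply Finset.Subset.antisymm
        · intro i hi
          obtain ⟨hiR, hiS⟩ := Finset.mem_inter.1 hi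
          by_contra hcon
          exact Finset.disjoint_left.1 h3 hiR (Finset.mem_sdiff.2 ⟨hiS, hcon⟩)
        · exact Finset.subset_inter h2 h1
      rw [this]; simp
  simp only [h1]
  rw [Ex_sum]
  have h2 : ∀ D ∈ Finset.powersetCard k S,
      Ex p (fun R => if D ⊆ R ∧ Disjoint R (S \ D) then (1 : ℝ) else 0) =
        p ^ k * (1 - p) ^ (S.card - k) := by
    intro D hD
    obtain ⟨hDS, hk⟩ := Finset.mem_powersetCard.1 hD
    rw [Ex_event p Finset.disjoint_sdiff, hk, Finset.card_sdiff_of_subset hDS, hk]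
  rw [Finset.sum_congr rfl h2, Finset.sum_const, Finset.card_powersetCard, nsmul_eq_mul]

/-- A random sample meets a set with at least two elements in exactly one element with probability
at most one half. -/
theorem half_le {p : ℝ} (h0 : 0 ≤ p) (h1 : p ≤ 1) (S : Finset (Fin m)) (hS : 2 ≤ S.card) :
    1 ≤ 2 * (Ex p (fun R => if (R ∩ S).card = 0 then 1 else 0) +
      Ex p (fun R => if 2 ≤ (R ∩ S).card then 1 else 0)) := by
  set A := Ex p (fun R => if (R ∩ S).card = 0 then (1 : ℝ) else 0) with hA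
  set B := Ex p (fun R => if (R ∩ S).card = 1 then (1 : ℝ) else 0) with hB
  set C := Ex p (fun R => if 2 ≤ (R ∩ S).card then (1 : ℝ) else 0) with hC
  set D := Ex p (fun R => if (R ∩ S).card = 2 then (1 : ℝ) else 0) with hD
  have hsum : A + B + C = 1 := by
    rw [hA, hB, hC, ← Ex_add, ← Ex_add]
    have : ∀ R : Finset (Fin m), ((if (R ∩ S).card = 0 then (1 : ℝ) else 0) +
        (if (R ∩ S).card = 1 then (1 : ℝ) else 0)) +
        (if 2 ≤ (R ∩ S).card then (1 : ℝ) else 0) = 1 := by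
      intro R
      rcases Nat.lt_or_ge (R ∩ S).card 2 with h | h
      · interval_cases (R ∩ S).card <;> norm_num
      · have e0 : (R ∩ S).card ≠ 0 := by omega
        have e1 : (R ∩ S).card ≠ 1 := by omega
        rw [if_neg e0, if_neg e1, if_pos h]; norm_num
    simp only [this]
    exact Ex_one p
  have hDC : D ≤ C := by
    apply Ex_mono h0 h1
    intro R
    by_cases h : (R ∩ S).card = 2
    · simp [h]
    · rw [if_neg h]; split_ifs <;> norm_num
  have hB' : B ≤ A + D := by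
    rw [hA, hB, hD, Ex_card_inter, Ex_card_inter, Ex_card_inter]
    obtain ⟨d, hd⟩ : ∃ d, S.card = d + 2 := ⟨S.card - 2, by omega⟩
    have e0 : S.card - 0 = d + 2 := by omega
    have e1 : S.card - 1 = d + 1 := by omega
    have e2 : S.card - 2 = d := by omega
    rw [e0, e1, e2, Nat.choose_zero_right, Nat.choose_one_right, Nat.cast_choose_two, hd]
    push_cast
    have hq : 0 ≤ (1 - p) ^ d := pow_nonneg (by linarith) _
    have key : 0 ≤ (1 - p) ^ 2 - (d + 2) * p * (1 - p) + (d + 2) * (d + 2 - 1) / 2 * p ^ 2 := by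
      have hd0 : (0 : ℝ) ≤ d := Nat.cast_nonneg d
      nlinarith [sq_nonneg ((1 - p) - (d + 2) * p / 2), mul_nonneg hd0 (sq_nonneg p),
        mul_nonneg (mul_nonneg hd0 hd0) (sq_nonneg p)]
    have : 0 ≤ (1 - p) ^ d * ((1 - p) ^ 2 - (d + 2) * p * (1 - p) +
        (d + 2) * (d + 2 - 1) / 2 * p ^ 2) := mul_nonneg hq key
    have e : (1 - p) ^ d * ((1 - p) ^ 2 - (d + 2) * p * (1 - p) +
        (d + 2) * (d + 2 - 1) / 2 * p ^ 2) = 1 * (p ^ 0 * (1 - p) ^ (d + 2)) +
          (d + 2) * (d + 2 - 1) / 2 * (p ^ 2 * (1 - p) ^ d) -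
          (d + 2) * (p ^ 1 * (1 - p) ^ (d + 1)) := by ring
    linarith
  linarith

/-! ### The Clarkson-Shor inequality -/

theorem pow_mul_pow_le {p : ℝ} (h0 : 0 < p) (h1 : p ≤ 1) (j k : ℕ) :
    (k : ℝ) ^ j * (1 - p) ^ k ≤ (j.factorial : ℝ) * (2 / p) ^ j * (1 - p / 2) ^ k := by
  have hq : 0 ≤ 1 - p / 2 := by linarith
  have hp1 : 0 ≤ 1 - p := by linarith
  have h2 : (1 - p) ^ k ≤ (1 - p / 2) ^ k * (1 - p / 2) ^ k := by
    rw [← mul_pow]
    exact pow_le_pow_left₀ hp1 (by nlinarith) k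
  have h3 : (1 - p / 2) ^ k ≤ Real.exp (-(p / 2 * k)) := by
    have : 1 - p / 2 ≤ Real.exp (-(p / 2)) := by
      have := Real.add_one_le_exp (-(p / 2))
      linarith
    calc (1 - p / 2) ^ k ≤ (Real.exp (-(p / 2))) ^ k := pow_le_pow_left₀ hq this k
      _ = Real.exp (-(p / 2 * k)) := by rw [← Real.exp_nat_mul]; ring_nf
  have h4 : (k : ℝ) ^ j * (1 - p / 2) ^ k ≤ (j.factorial : ℝ) * (2 / p) ^ j := by
    have hx : 0 ≤ p / 2 * k := by positivity
    have h5 := Real.pow_div_factorial_le_exp _ hx j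
    have h6 : (p / 2 * k) ^ j ≤ (j.factorial : ℝ) * Real.exp (p / 2 * k) := by
      rw [div_le_iff₀ (by positivity)] at h5
      linarith
    have h7 : (k : ℝ) ^ j = (2 / p) ^ j * (p / 2 * k) ^ j := by
      rw [← mul_pow]; congr 1; field_simp
    have h8 : Real.exp (p / 2 * k) * Real.exp (-(p / 2 * k)) = 1 := by
      rw [← Real.exp_add]; simp
    calc (k : ℝ) ^ j * (1 - p / 2) ^ k ≤ (k : ℝ) ^ j * Real.exp (-(p / 2 * k)) :=
          mul_le_mul_of_nonneg_left h3 (by positivity)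
      _ = (2 / p) ^ j * ((p / 2 * k) ^ j * Real.exp (-(p / 2 * k))) := by rw [h7]; ring
      _ ≤ (2 / p) ^ j * (((j.factorial : ℝ) * Real.exp (p / 2 * k)) *
            Real.exp (-(p / 2 * k))) := by
          apply mul_le_mul_of_nonneg_left _ (by positivity)
          exact mul_le_mul_of_nonneg_right h6 (Real.exp_pos _).le
      _ = (j.factorial : ℝ) * (2 / p) ^ j := by rw [mul_assoc (j.factorial : ℝ), h8]; ring
  calc (k : ℝ) ^ j * (1 - p) ^ k ≤ (k : ℝ) ^ j * ((1 - p / 2) ^ k * (1 - p / 2) ^ k) :=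
        mul_le_mul_of_nonneg_left h2 (by positivity)
    _ = ((k : ℝ) ^ j * (1 - p / 2) ^ k) * (1 - p / 2) ^ k := by ring
    _ ≤ ((j.factorial : ℝ) * (2 / p) ^ j) * (1 - p / 2) ^ k :=
        mul_le_mul_of_nonneg_right h4 (pow_nonneg hq _)

/-- Clarkson-Shor inequality for the `j`-th moment. -/
theorem clarkson_shor {Λ : Type*} (T : Finset Λ) (D K : Λ → Finset (Fin m))
    (hd : ∀ τ ∈ T, Disjoint (D τ) (K τ)) (h6 : ∀ τ ∈ T, (D τ).card ≤ 6) {p : ℝ} (h0 : 0 < p)
    (h1 : p ≤ 1) (j : ℕ) :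
    Ex p (fun R => ∑ τ ∈ T.filter (fun τ => D τ ⊆ R ∧ Disjoint R (K τ)), ((K τ).card : ℝ) ^ j) ≤
      64 * (j.factorial : ℝ) * (2 / p) ^ j *
        Ex (p / 2) (fun R => ((T.filter (fun τ => D τ ⊆ R ∧ Disjoint R (K τ))).card : ℝ)) := by
  have e1 : ∀ R : Finset (Fin m),
      ∑ τ ∈ T.filter (fun τ => D τ ⊆ R ∧ Disjoint R (K τ)), ((K τ).card : ℝ) ^ j =
      ∑ τ ∈ T, ((K τ).card : ℝ) ^ j * (if D τ ⊆ R ∧ Disjoint R (K τ) then (1 : ℝ) else 0) := by
    intro R
    rw [Finset.sum_filter]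
    exact Finset.sum_congr rfl fun τ _ => by split_ifs <;> simp
  have e2 : ∀ R : Finset (Fin m),
      ((T.filter (fun τ => D τ ⊆ R ∧ Disjoint R (K τ))).card : ℝ) =
      ∑ τ ∈ T, (if D τ ⊆ R ∧ Disjoint R (K τ) then (1 : ℝ) else 0) := by
    intro R; rw [Finset.sum_boole]
  simp only [e1, e2]
  rw [Ex_sum, Ex_sum, Finset.mul_sum]
  apply Finset.sum_le_sum
  intro τ hτ
  rw [Ex_mul, Ex_event p (hd τ hτ), Ex_event (p / 2) (hd τ hτ)]
  have hp2 : 0 ≤ 1 - p / 2 := by linarith
  have h2 : p ^ (D τ).card ≤ 64 * (p / 2) ^ (D τ).card := by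
    have : p ^ (D τ).card = 2 ^ (D τ).card * (p / 2) ^ (D τ).card := by
      rw [← mul_pow]; congr 1; ring
    rw [this]
    apply mul_le_mul_of_nonneg_right _ (by positivity)
    calc (2 : ℝ) ^ (D τ).card ≤ 2 ^ 6 := pow_le_pow_right₀ (by norm_num) (h6 τ hτ)
      _ = 64 := by norm_num
  have h3 := pow_mul_pow_le h0 h1 j (K τ).card
  calc ((K τ).card : ℝ) ^ j * (p ^ (D τ).card * (1 - p) ^ (K τ).card)
      = p ^ (D τ).card * (((K τ).card : ℝ) ^ j * (1 - p) ^ (K τ).card) := by ring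
    _ ≤ (64 * (p / 2) ^ (D τ).card) *
        ((j.factorial : ℝ) * (2 / p) ^ j * (1 - p / 2) ^ (K τ).card) := by
        apply mul_le_mul h2 h3
        · exact mul_nonneg (by positivity) (pow_nonneg (by linarith) _)
        · positivity
    _ = _ := by ring

end Pool.Agent.Lib.MP_0f9b7a_co
end

section
/-!
# The cutting inequality
-/
set_option autoImplicit false

namespace Pool.Agent.Lib.MP_0f9b7a_co

open scoped Classical

variable {m : ℕ}

theorem Ex_sqrt_le {p : ℝ} (h0 : 0 ≤ p) (h1 : p ≤ 1) {F : Finset (Fin m) → ℝ}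
    (hF : ∀ R, 0 ≤ F R) : Ex p (fun R => √(F R)) ≤ √(Ex p F) := by
  have hw := wt_nonneg (m := m) h0 h1
  have h2 := Real.sum_sqrt_mul_sqrt_le (Finset.univ : Finset (Finset (Fin m)))
    (f := fun R => wt p R) (g := fun R => wt p R * F R) (fun R => hw R)
    (fun R => mul_nonneg (hw R) (hF R))
  have h3 : ∑ R : Finset (Fin m), wt p R = 1 := by
    have := Ex_one (m := m) p
    simpa [Ex] using this
  rw [h3, Real.sqrt_one, one_mul] at h2
  refine le_trans (le_of_eq ?_) h2
  unfold Ex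
  refine Finset.sum_congr rfl fun R _ => ?_
  show wt p R * √(F R) = √(wt p R) * √(wt p R * F R)
  rw [Real.sqrt_mul (hw R), ← mul_assoc, Real.mul_self_sqrt (hw R)]

theorem Ex_nonneg {p : ℝ} (h0 : 0 ≤ p) (h1 : p ≤ 1) {F : Finset (Fin m) → ℝ}
    (hF : ∀ R, 0 ≤ F R) : 0 ≤ Ex p F :=
  Finset.sum_nonneg fun R _ => mul_nonneg (wt_nonneg h0 h1 R) (hF R)

/-- indices of the points on the plane `h` -/
noncomputable def pts (P : Fin m → V3) (h : V3) : Finset (Fin m) :=
  Finset.univ.filter fun i => Inc (P i) h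

theorem mem_pts {P : Fin m → V3} {h : V3} {i : Fin m} : i ∈ pts P h ↔ Inc (P i) h := by
  simp [pts]

/-- Splitting of the incidences according to the number of sampled points. -/
theorem split_incidences (P : Fin m → V3) (H : Finset V3) {p : ℝ} (h0 : 0 ≤ p) (h1 : p ≤ 1) :
    ∑ h ∈ H, ((pts P h).card : ℝ) ≤ H.card +
      2 * (Ex p (fun R => ∑ h ∈ H, if (R ∩ pts P h).card = 0 then ((pts P h).card : ℝ) else 0) +
        Ex p (fun R => ∑ h ∈ H, if 2 ≤ (R ∩ pts P h).card then ((pts P h).card : ℝ) else 0)) := by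
  rw [Ex_sum, Ex_sum, ← Finset.sum_add_distrib, Finset.mul_sum]
  have : (H.card : ℝ) = ∑ h ∈ H, (1 : ℝ) := by simp
  rw [this, ← Finset.sum_add_distrib]
  apply Finset.sum_le_sum
  intro h _
  have e0 : ∀ R : Finset (Fin m), (if (R ∩ pts P h).card = 0 then ((pts P h).card : ℝ) else 0) =
      ((pts P h).card : ℝ) * (if (R ∩ pts P h).card = 0 then 1 else 0) := by
    intro R; split_ifs <;> simp
  have e2 : ∀ R : Finset (Fin m), (if 2 ≤ (R ∩ pts P h).card then ((pts P h).card : ℝ) else 0) =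
      ((pts P h).card : ℝ) * (if 2 ≤ (R ∩ pts P h).card then 1 else 0) := by
    intro R; split_ifs <;> simp
  simp only [e0, e2]
  rw [Ex_mul, Ex_mul]
  have hn0 : 0 ≤ Ex p (fun R : Finset (Fin m) => if (R ∩ pts P h).card = 0 then (1 : ℝ) else 0) :=
    Ex_nonneg h0 h1 fun R => by split_ifs <;> norm_num
  have hn2 : 0 ≤ Ex p (fun R : Finset (Fin m) => if 2 ≤ (R ∩ pts P h).card then (1 : ℝ) else 0) :=
    Ex_nonneg h0 h1 fun R => by split_ifs <;> norm_num
  have hc : (0 : ℝ) ≤ (pts P h).card := Nat.cast_nonneg _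
  rcases Nat.lt_or_ge (pts P h).card 2 with hd | hd
  · have : ((pts P h).card : ℝ) ≤ 1 := by
      have : (pts P h).card ≤ 1 := by omega
      exact_mod_cast this
    have := mul_nonneg hc hn0
    have := mul_nonneg hc hn2
    linarith
  · have := half_le h0 h1 (pts P h) hd
    nlinarith

variable {P : Fin m → V3}

/-- The label of `x` with respect to `R`. -/
noncomputable def lab (P : Fin m → V3) (R : Finset (Fin m)) (x : V3) : Label m :=
  Classical.choose (exists_isLabel P R x)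

theorem lab_spec (P : Fin m → V3) (R : Finset (Fin m)) (x : V3) : IsLabel P R x (lab P R x) :=
  Classical.choose_spec (exists_isLabel P R x)

theorem lab_mem_labels {R : Finset (Fin m)} {x : V3} (gx : Gen P x) :
    lab P R x ∈ labels P R :=
  Finset.mem_filter.2 ⟨Finset.mem_univ _, x, gx, lab_spec P R x⟩

/-- Moments of the sizes of the conflict sets. -/
theorem moment_labels (hP : ∀ i j, (P i).2.1 = (P j).2.1 → (P i).1 = (P j).1) {p : ℝ}
    (h0 : 0 < p) (h1 : p ≤ 1) (hr : 1 ≤ m * p) (j : ℕ) :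
    Ex p (fun R => ∑ τ ∈ labels P R, ((confl P τ).card : ℝ) ^ j) ≤
      5952 * (j.factorial : ℝ) * (2 / p) ^ j * (m * p) ^ 3 := by
  let T : Finset (Label m) := Finset.univ.filter fun τ => Realized P τ
  have hT : ∀ R, labels P R = T.filter (fun τ => defs τ ⊆ R ∧ Disjoint R (confl P τ)) := by
    intro R
    ext τ
    rw [mem_labels_iff hP]
    simp [T]
  have hcs := clarkson_shor T (fun τ => defs τ) (fun τ => confl P τ)
    (fun τ hτ => disjoint_defs_confl hP (Finset.mem_filter.1 hτ).2)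
    (fun τ _ => card_defs_le τ) h0 h1 j
  simp only [← hT] at hcs
  refine hcs.trans ?_
  have hp2 : 0 ≤ p / 2 := by linarith
  have hp2' : p / 2 ≤ 1 := by linarith
  have hE : Ex (p / 2) (fun R => ((labels P R).card : ℝ)) ≤ 93 * (m * p) ^ 3 := by
    have e1 : Ex (p / 2) (fun R => ((labels P R).card : ℝ)) ≤
        Ex (p / 2) (fun R : Finset (Fin m) => 31 * ((R.card : ℝ) ^ 3 + 1)) := by
      apply Ex_mono hp2 hp2'
      intro R
      exact_mod_cast card_labels_le hP R
    refine e1.trans ?_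
    rw [Ex_mul, Ex_add, Ex_one]
    have e2 := Ex_cube_le (m := m) hp2
    set r := (m : ℝ) * p with hrdef
    have e3 : (m : ℝ) * (p / 2) = r / 2 := by rw [hrdef]; ring
    rw [e3] at e2
    have e4 : r ^ 2 ≤ r ^ 3 := pow_le_pow_right₀ hr (by norm_num)
    have e5 : r ≤ r ^ 3 := by
      calc r = r ^ 1 := by ring
        _ ≤ r ^ 3 := pow_le_pow_right₀ hr (by norm_num)
    have e6 : (1 : ℝ) ≤ r ^ 3 := one_le_pow₀ hr
    nlinarith
  have hcoef : 0 ≤ 64 * (j.factorial : ℝ) * (2 / p) ^ j := by positivity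
  calc 64 * (j.factorial : ℝ) * (2 / p) ^ j * Ex (p / 2) (fun R => ((labels P R).card : ℝ))
      ≤ 64 * (j.factorial : ℝ) * (2 / p) ^ j * (93 * (m * p) ^ 3) :=
        mul_le_mul_of_nonneg_left hE hcoef
    _ = _ := by ring

/-- The expected size of the conflict set of the cell of a fixed point. -/
theorem moment_point (hP : ∀ i j, (P i).2.1 = (P j).2.1 → (P i).1 = (P j).1) {p : ℝ}
    (h0 : 0 < p) (h1 : p ≤ 1) {x : V3} (gx : Gen P x) :
    Ex p (fun R => ((confl P (lab P R x)).card : ℝ)) ≤ 128 / p := by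
  let T : Finset (Label m) := Finset.univ.filter fun τ => Realized P τ ∧ Valid P τ x
  have hT : ∀ R, T.filter (fun τ => defs τ ⊆ R ∧ Disjoint R (confl P τ)) = {lab P R x} := by
    intro R
    ext τ
    simp only [T, Finset.mem_filter, Finset.mem_univ, true_and, Finset.mem_singleton]
    rw [← isLabel_iff hP gx]
    constructor
    · intro h
      exact isLabel_unique P h (lab_spec P R x)
    · rintro rfl
      exact lab_spec P R x
  have hcs := clarkson_shor T (fun τ => defs τ) (fun τ => confl P τ)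
    (fun τ hτ => disjoint_defs_confl hP (Finset.mem_filter.1 hτ).2.1)
    (fun τ _ => card_defs_le τ) h0 h1 1
  simp only [hT, Finset.sum_singleton, Finset.card_singleton, Nat.cast_one, pow_one,
    Nat.factorial_one, Ex_one] at hcs
  calc Ex p (fun R => ((confl P (lab P R x)).card : ℝ)) ≤ 64 * 1 * (2 / p) * 1 := hcs
    _ = 128 / p := by ring

/-- The planes that contain no sampled point: their incidences are in conflict with the cells. -/
theorem zero_part (hP : ∀ i j, (P i).2.1 = (P j).2.1 → (P i).1 = (P j).1) (H : Finset V3)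
    (X : V3 → V3) (hX : ∀ h ∈ H, Gen P (X h) ∧ ∀ i j, Inc (P i) h → ¬ Inc (P j) h →
      |ev (P i) (X h).1 (X h).2.1 - (X h).2.2| < |ev (P j) (X h).1 (X h).2.1 - (X h).2.2|)
    (R : Finset (Fin m)) :
    ∑ h ∈ H, (if (R ∩ pts P h).card = 0 then ((pts P h).card : ℝ) else 0) ≤
      ∑ τ ∈ labels P R, ∑ h ∈ H.filter (fun h => lab P R (X h) = τ),
        ((confl P τ ∩ pts P h).card : ℝ) := by
  have e1 : ∑ τ ∈ labels P R, ∑ h ∈ H.filter (fun h => lab P R (X h) = τ),
        ((confl P τ ∩ pts P h).card : ℝ) =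
      ∑ h ∈ H, ((confl P (lab P R (X h)) ∩ pts P h).card : ℝ) := by
    rw [← Finset.sum_fiberwise_of_maps_to (t := labels P R) (g := fun h => lab P R (X h))]
    · refine Finset.sum_congr rfl fun τ _ => Finset.sum_congr rfl fun h hh => ?_
      rw [(Finset.mem_filter.1 hh).2]
    · intro h hh
      exact lab_mem_labels (hX h hh).1
  rw [e1]
  apply Finset.sum_le_sum
  intro h hh
  split_ifs with hc
  · have hsub : pts P h ⊆ confl P (lab P R (X h)) ∩ pts P h := by
      intro i hi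
      refine Finset.mem_inter.2 ⟨?_, hi⟩
      refine mem_confl_of_inc hP (hX h hh).1 (hX h hh).2 (R := R) ?_ (lab_spec P R (X h))
        (mem_pts.1 hi)
      intro j hj hj'
      have : j ∈ R ∩ pts P h := Finset.mem_inter.2 ⟨hj, mem_pts.2 hj'⟩
      rw [Finset.card_eq_zero.1 hc] at this
      exact absurd this (Finset.notMem_empty _)
    exact_mod_cast Finset.card_le_card hsub
  · exact Nat.cast_nonneg _

end Pool.Agent.Lib.MP_0f9b7a_co
end

section
/-!
# Combinatorics of incidence graphs without `K_{s,s}`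
-/
set_option autoImplicit false

namespace Pool.Agent.Lib.MP_0f9b7a_co

open scoped Classical

variable {m : ℕ} {P : Fin m → V3}

/-- If two distinct points lie on two distinct planes and a third point lies on both planes, then
it lies on every plane through the two points. -/
theorem star {p₁ p₂ p h h' h'' : V3} (hp : p₁ ≠ p₂) (hh : h ≠ h') (a1 : Inc p₁ h) (a2 : Inc p₂ h)
    (b1 : Inc p₁ h') (b2 : Inc p₂ h') (a : Inc p h) (b : Inc p h') (c1 : Inc p₁ h'')
    (c2 : Inc p₂ h'') : Inc p h'' := by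
  obtain ⟨x₁, y₁, z₁⟩ := p₁
  obtain ⟨x₂, y₂, z₂⟩ := p₂
  obtain ⟨x, y, z⟩ := p
  obtain ⟨α, β, γ⟩ := h
  obtain ⟨α', β', γ'⟩ := h'
  obtain ⟨α'', β'', γ''⟩ := h''
  unfold Inc at *
  simp only at *
  have hd : x₂ - x₁ ≠ 0 ∨ y₂ - y₁ ≠ 0 := by
    by_contra hcon
    push Not at hcon
    obtain ⟨h1, h2⟩ := hcon
    have hx : x₁ = x₂ := by linarith
    have hy : y₁ = y₂ := by linarith
    subst hx; subst hy
    apply hp
    rw [a1, a2]
  have hAB : α - α' ≠ 0 ∨ β - β' ≠ 0 := by
    by_contra hcon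
    push Not at hcon
    obtain ⟨h1, h2⟩ := hcon
    have hx : α = α' := by linarith
    have hy : β = β' := by linarith
    subst hx; subst hy
    apply hh
    have : γ = γ' := by linarith
    rw [this]
  -- the cross product vanishes
  have e1 : (α - α') * (x₂ - x₁) + (β - β') * (y₂ - y₁) = 0 := by linarith
  have e2 : (α - α') * (x - x₁) + (β - β') * (y - y₁) = 0 := by linarith
  have cross : (x₂ - x₁) * (y - y₁) - (y₂ - y₁) * (x - x₁) = 0 := by
    rcases hAB with h1 | h1
    · have : (α - α') * ((x₂ - x₁) * (y - y₁) - (y₂ - y₁) * (x - x₁)) = 0 := by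
        linear_combination (y - y₁) * e1 - (y₂ - y₁) * e2
      exact (mul_eq_zero.1 this).resolve_left h1
    · have : (β - β') * ((x₂ - x₁) * (y - y₁) - (y₂ - y₁) * (x - x₁)) = 0 := by
        linear_combination (x₂ - x₁) * e2 - (x - x₁) * e1
      exact (mul_eq_zero.1 this).resolve_left h1
  have e3 : (α'' - α) * (x₂ - x₁) + (β'' - β) * (y₂ - y₁) = 0 := by linarith
  have e4 : (α'' - α) * (x - x₁) + (β'' - β) * (y - y₁) = 0 := by
    rcases hd with h1 | h1
    · have : (x₂ - x₁) * ((α'' - α) * (x - x₁) + (β'' - β) * (y - y₁)) = 0 := by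
        linear_combination (x - x₁) * e3 + (β'' - β) * cross
      exact (mul_eq_zero.1 this).resolve_left h1
    · have : (y₂ - y₁) * ((α'' - α) * (x - x₁) + (β'' - β) * (y - y₁)) = 0 := by
        linear_combination (y - y₁) * e3 - (α'' - α) * cross
      exact (mul_eq_zero.1 this).resolve_left h1
  linarith

/-- `K_{s,s}`-freeness for an indexed family of points and a finite set of planes. -/
def FreeI (s : ℕ) (P : Fin m → V3) (H : Finset V3) : Prop :=
  ∀ A : Finset (Fin m), ∀ B ⊆ H, A.card = s → B.card = s → ∃ i ∈ A, ∃ h ∈ B, ¬ Inc (P i) h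

theorem FreeI.lt {s : ℕ} {H : Finset V3} (hf : FreeI s P H) {A : Finset (Fin m)}
    {B : Finset V3} (hB : B ⊆ H) (h : ∀ h ∈ B, A ⊆ pts P h) (hA : s ≤ A.card) : B.card < s := by
  by_contra hcon
  push Not at hcon
  obtain ⟨A', hA', hA'c⟩ := Finset.exists_subset_card_eq hA
  obtain ⟨B', hB', hB'c⟩ := Finset.exists_subset_card_eq hcon
  obtain ⟨i, hi, g, hg, hig⟩ := hf A' B' (hB'.trans hB) hA'c hB'c
  exact hig (mem_pts.1 (h g (hB' hg) (hA' hi)))

/-- Incidences of planes containing two given points. -/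
theorem pair_incidences (hinj : Function.Injective P) {s : ℕ} (hs : 1 ≤ s) {H : Finset V3}
    (hf : FreeI s P H) {i j : Fin m} (hij : i ≠ j) (G : Finset V3) (hG : G ⊆ H)
    (hGi : ∀ h ∈ G, i ∈ pts P h ∧ j ∈ pts P h) :
    ∑ h ∈ G, (pts P h).card ≤ s * m + (s - 1) * G.card := by
  have e1 : ∑ h ∈ G, (pts P h).card = ∑ k : Fin m, (G.filter fun h => k ∈ pts P h).card := by
    have := Finset.sum_card_bipartiteAbove_eq_sum_card_bipartiteBelow
      (s := G) (t := (Finset.univ : Finset (Fin m))) (fun h k => k ∈ pts P h)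
    simp only [Finset.bipartiteAbove, Finset.bipartiteBelow] at this
    rw [← this]
    refine Finset.sum_congr rfl fun h _ => ?_
    congr 1
    ext k
    simp
  rw [e1]
  let Q : Finset (Fin m) := Finset.univ.filter fun k => 2 ≤ (G.filter fun h => k ∈ pts P h).card
  have hQ : ∀ h ∈ G, Q ⊆ pts P h := by
    intro h'' hh'' k hk
    have h2 := (Finset.mem_filter.1 hk).2
    obtain ⟨h, hh, h', hh', hne⟩ := Finset.one_lt_card.1 (lt_of_lt_of_le Nat.one_lt_two h2)
    obtain ⟨hG1, hk1⟩ := Finset.mem_filter.1 hh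
    obtain ⟨hG2, hk2⟩ := Finset.mem_filter.1 hh'
    rw [mem_pts]
    exact star (hinj.ne hij) hne (mem_pts.1 (hGi h hG1).1) (mem_pts.1 (hGi h hG1).2)
      (mem_pts.1 (hGi h' hG2).1) (mem_pts.1 (hGi h' hG2).2) (mem_pts.1 hk1) (mem_pts.1 hk2)
      (mem_pts.1 (hGi h'' hh'').1) (mem_pts.1 (hGi h'' hh'').2)
  have hbound : ∀ k : Fin m, (G.filter fun h => k ∈ pts P h).card ≤
      1 + (if k ∈ Q then G.card else 0) := by
    intro k
    by_cases hk : k ∈ Q
    · rw [if_pos hk]
      have := Finset.card_filter_le G (fun h => k ∈ pts P h)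
      omega
    · rw [if_neg hk]
      have : ¬ 2 ≤ (G.filter fun h => k ∈ pts P h).card := fun h =>
        hk (Finset.mem_filter.2 ⟨Finset.mem_univ _, h⟩)
      omega
  have e2 : ∑ k : Fin m, (G.filter fun h => k ∈ pts P h).card ≤ m + Q.card * G.card := by
    refine (Finset.sum_le_sum fun k _ => hbound k).trans ?_
    rw [Finset.sum_add_distrib, Finset.sum_ite_mem]
    simp
  refine e2.trans ?_
  rcases Nat.lt_or_ge Q.card s with hc | hc
  · have h1 : Q.card * G.card ≤ (s - 1) * G.card := Nat.mul_le_mul_right _ (by omega)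
    have h2 : m ≤ s * m := Nat.le_mul_of_pos_left m hs
    omega
  · have hlt := hf.lt hG hQ hc
    have hQm : Q.card ≤ m := by
      have := Finset.card_le_univ Q
      rwa [Fintype.card_fin] at this
    have h1 : Q.card * G.card ≤ m * (s - 1) := Nat.mul_le_mul hQm (by omega)
    have h2 : m + m * (s - 1) = s * m := by
      obtain ⟨t, rfl⟩ : ∃ t, s = t + 1 := ⟨s - 1, by omega⟩
      simp only [Nat.add_sub_cancel]; ring
    have h3 : 0 ≤ (s - 1) * G.card := Nat.zero_le _
    omega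

theorem card_offDiag_cast {α : Type*} (S : Finset α) :
    (S.offDiag.card : ℝ) = (S.card : ℝ) * ((S.card : ℝ) - 1) := by
  rw [Finset.offDiag_card]
  rcases Nat.eq_zero_or_pos S.card with h | h
  · rw [h]; simp
  · rw [Nat.cast_sub (Nat.le_mul_of_pos_left _ h)]
    push_cast; ring

/-- The planes that contain at least two sampled points. -/
theorem two_part (hinj : Function.Injective P) {s : ℕ} (hs : 1 ≤ s) {H : Finset V3}
    (hf : FreeI s P H) (R : Finset (Fin m)) :
    ∑ h ∈ H, (if 2 ≤ (R ∩ pts P h).card then ((pts P h).card : ℝ) else 0) ≤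
      s * m * ((R.card : ℝ) * ((R.card : ℝ) - 1)) + s * H.card := by
  rcases isEmpty_or_nonempty (Fin m) with hm | hm
  · have h0 : ∀ h ∈ H, (if 2 ≤ (R ∩ pts P h).card then ((pts P h).card : ℝ) else 0) = 0 := by
      intro h _
      have : pts P h = ∅ := Finset.eq_empty_of_isEmpty _
      rw [this]; simp
    rw [Finset.sum_eq_zero h0]
    have : R = ∅ := Finset.eq_empty_of_isEmpty _
    rw [this]
    simp
    positivity
  have hch : ∀ h : V3, ∃ q : Fin m × Fin m, 2 ≤ (R ∩ pts P h).card →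
      q ∈ R.offDiag ∧ q.1 ∈ pts P h ∧ q.2 ∈ pts P h := by
    intro h
    by_cases h2 : 2 ≤ (R ∩ pts P h).card
    · obtain ⟨i, hi, j, hj, hne⟩ := Finset.one_lt_card.1 (lt_of_lt_of_le Nat.one_lt_two h2)
      obtain ⟨hi1, hi2⟩ := Finset.mem_inter.1 hi
      obtain ⟨hj1, hj2⟩ := Finset.mem_inter.1 hj
      exact ⟨(i, j), fun _ => ⟨Finset.mem_offDiag.2 ⟨hi1, hj1, hne⟩, hi2, hj2⟩⟩
    · obtain ⟨i⟩ := hm
      exact ⟨(i, i), fun h' => absurd h' h2⟩
  choose pr hpr using hch
  let H₂ := H.filter fun h => 2 ≤ (R ∩ pts P h).card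
  have e1 : ∑ h ∈ H, (if 2 ≤ (R ∩ pts P h).card then ((pts P h).card : ℝ) else 0) =
      ∑ h ∈ H₂, ((pts P h).card : ℝ) := (Finset.sum_filter _ _).symm
  have e2 : ∑ h ∈ H₂, (pts P h).card =
      ∑ q ∈ R.offDiag, ∑ h ∈ H₂.filter (fun h => pr h = q), (pts P h).card := by
    rw [Finset.sum_fiberwise_of_maps_to]
    intro h hh
    exact (hpr h (Finset.mem_filter.1 hh).2).1
  have e3 : ∑ q ∈ R.offDiag, ∑ h ∈ H₂.filter (fun h => pr h = q), (pts P h).card ≤
      ∑ q ∈ R.offDiag, (s * m + (s - 1) * (H₂.filter (fun h => pr h = q)).card) := by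
    apply Finset.sum_le_sum
    intro q hq
    apply pair_incidences hinj hs hf (i := q.1) (j := q.2) (Finset.mem_offDiag.1 hq).2.2
    · exact (Finset.filter_subset _ _).trans (Finset.filter_subset _ _)
    · intro h hh
      obtain ⟨h1, h2⟩ := Finset.mem_filter.1 hh
      have h3 := hpr h (Finset.mem_filter.1 h1).2
      rw [h2] at h3
      exact h3.2
  have e4 : ∑ q ∈ R.offDiag, (s * m + (s - 1) * (H₂.filter (fun h => pr h = q)).card) =
      R.offDiag.card * (s * m) + (s - 1) * H₂.card := by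
    rw [Finset.sum_add_distrib, Finset.sum_const, smul_eq_mul, ← Finset.mul_sum]
    congr 2
    rw [Finset.card_eq_sum_card_fiberwise (t := R.offDiag) (f := pr)]
    intro h hh
    exact (hpr h (Finset.mem_filter.1 hh).2).1
  have e5 : ∑ h ∈ H₂, (pts P h).card ≤ R.offDiag.card * (s * m) + s * H.card := by
    have h1 : (s - 1) * H₂.card ≤ s * H.card :=
      Nat.mul_le_mul (Nat.sub_le _ _) (Finset.card_filter_le _ _)
    omega
  rw [e1]
  have e6 : (∑ h ∈ H₂, ((pts P h).card : ℝ)) ≤ R.offDiag.card * (s * m) + s * H.card := by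
    exact_mod_cast e5
  rw [card_offDiag_cast] at e6
  linarith

/-- number of common points of two planes -/
noncomputable def codeg (P : Fin m → V3) (q : V3 × V3) : ℕ := (pts P q.1 ∩ pts P q.2).card

/-- The total codegree of the pairs of planes with at least `s` common points. -/
theorem heavy_le (hinj : Function.Injective P) {s : ℕ} (hs : 2 ≤ s) {H : Finset V3}
    (hf : FreeI s P H) :
    ∑ q ∈ H.offDiag.filter (fun q => s ≤ codeg P q), codeg P q ≤
      (s - 1) * (s - 2) * m ^ 2 := by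
  set F := H.offDiag.filter (fun q => s ≤ codeg P q) with hF
  have e1 : ∑ q ∈ F, codeg P q ≤ ∑ q ∈ F, (pts P q.1 ∩ pts P q.2).offDiag.card := by
    apply Finset.sum_le_sum
    intro q hq
    have h2 := (Finset.mem_filter.1 hq).2
    unfold codeg at h2 ⊢
    rw [Finset.offDiag_card]
    set c := (pts P q.1 ∩ pts P q.2).card
    have : c * 2 ≤ c * c := Nat.mul_le_mul_left c (by omega)
    omega
  have e2 : ∑ q ∈ F, (pts P q.1 ∩ pts P q.2).offDiag.card =
      ∑ u ∈ (Finset.univ : Finset (Fin m)).offDiag,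
        (F.filter fun q => u.1 ∈ pts P q.1 ∩ pts P q.2 ∧ u.2 ∈ pts P q.1 ∩ pts P q.2).card := by
    have := Finset.sum_card_bipartiteAbove_eq_sum_card_bipartiteBelow
      (s := F) (t := (Finset.univ : Finset (Fin m)).offDiag)
      (fun q u => u.1 ∈ pts P q.1 ∩ pts P q.2 ∧ u.2 ∈ pts P q.1 ∩ pts P q.2)
    simp only [Finset.bipartiteAbove, Finset.bipartiteBelow] at this
    rw [← this]
    refine Finset.sum_congr rfl fun q _ => ?_
    congr 1
    ext u
    simp only [Finset.mem_offDiag, Finset.mem_filter, Finset.mem_univ, true_and]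
    tauto
  have e3 : ∀ u ∈ (Finset.univ : Finset (Fin m)).offDiag,
      (F.filter fun q => u.1 ∈ pts P q.1 ∩ pts P q.2 ∧ u.2 ∈ pts P q.1 ∩ pts P q.2).card ≤
        (s - 1) * (s - 2) := by
    intro u hu
    have hne : u.1 ≠ u.2 := (Finset.mem_offDiag.1 hu).2.2
    rcases (F.filter fun q => u.1 ∈ pts P q.1 ∩ pts P q.2 ∧
        u.2 ∈ pts P q.1 ∩ pts P q.2).eq_empty_or_nonempty with h0 | ⟨q₀, hq₀⟩
    · rw [h0]; simp
    · obtain ⟨hq1, hq2, hq3⟩ := Finset.mem_filter.1 hq₀
      obtain ⟨hq4, hq5⟩ := Finset.mem_filter.1 hq1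
      obtain ⟨hqH1, hqH2, hqne⟩ := Finset.mem_offDiag.1 hq4
      let G := H.filter fun h => u.1 ∈ pts P h ∧ u.2 ∈ pts P h
      have hQ : ∀ h ∈ G, pts P q₀.1 ∩ pts P q₀.2 ⊆ pts P h := by
        intro h hh k hk
        obtain ⟨-, hh1, hh2⟩ := Finset.mem_filter.1 hh
        obtain ⟨hk1, hk2⟩ := Finset.mem_inter.1 hk
        obtain ⟨ha1, ha2⟩ := Finset.mem_inter.1 hq2
        obtain ⟨hb1, hb2⟩ := Finset.mem_inter.1 hq3
        rw [mem_pts]
        exact star (hinj.ne hne) hqne (mem_pts.1 ha1) (mem_pts.1 hb1) (mem_pts.1 ha2)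
          (mem_pts.1 hb2) (mem_pts.1 hk1) (mem_pts.1 hk2) (mem_pts.1 hh1) (mem_pts.1 hh2)
      have hlt : G.card < s := hf.lt (Finset.filter_subset _ _) hQ hq5
      have hsub : (F.filter fun q => u.1 ∈ pts P q.1 ∩ pts P q.2 ∧
          u.2 ∈ pts P q.1 ∩ pts P q.2) ⊆ G.offDiag := by
        intro q hq
        obtain ⟨h1, h2, h3⟩ := Finset.mem_filter.1 hq
        obtain ⟨h4, h5, h6⟩ := Finset.mem_offDiag.1 (Finset.mem_filter.1 h1).1
        obtain ⟨ha1, ha2⟩ := Finset.mem_inter.1 h2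
        obtain ⟨hb1, hb2⟩ := Finset.mem_inter.1 h3
        exact Finset.mem_offDiag.2 ⟨Finset.mem_filter.2 ⟨h4, ha1, hb1⟩,
          Finset.mem_filter.2 ⟨h5, ha2, hb2⟩, h6⟩
      refine (Finset.card_le_card hsub).trans ?_
      rw [Finset.offDiag_card]
      have hG : G.card ≤ s - 1 := by omega
      have : G.card * G.card - G.card = G.card * (G.card - 1) := by
        rw [Nat.mul_sub, Nat.mul_one]
      rw [this]
      exact Nat.mul_le_mul hG (by omega)
  refine (e1.trans (le_of_eq e2)).trans ((Finset.sum_le_sum e3).trans ?_)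
  rw [Finset.sum_const, smul_eq_mul, mul_comm]
  apply Nat.mul_le_mul_left
  rw [Finset.offDiag_card, Finset.card_univ, Fintype.card_fin, sq]
  exact Nat.sub_le _ _

/-- The Kővári-Sós-Turán inequality in a cell. -/
theorem kst (P : Fin m → V3) (K : Finset (Fin m)) (G : Finset V3) :
    (∑ h ∈ G, (K ∩ pts P h).card) ^ 2 ≤ K.card *
      (∑ h ∈ G, (K ∩ pts P h).card + ∑ q ∈ G.offDiag, (K ∩ (pts P q.1 ∩ pts P q.2)).card) := by
  let d : Fin m → ℕ := fun i => (G.filter fun h => i ∈ pts P h).card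
  have e1 : ∑ h ∈ G, (K ∩ pts P h).card = ∑ i ∈ K, d i := by
    have := Finset.sum_card_bipartiteAbove_eq_sum_card_bipartiteBelow
      (s := G) (t := K) (fun h k => k ∈ pts P h)
    simp only [Finset.bipartiteAbove, Finset.bipartiteBelow] at this
    rw [← this]
    refine Finset.sum_congr rfl fun h _ => ?_
    congr 1
  have e2 : ∑ q ∈ G.offDiag, (K ∩ (pts P q.1 ∩ pts P q.2)).card =
      ∑ i ∈ K, (G.filter fun h => i ∈ pts P h).offDiag.card := by
    have := Finset.sum_card_bipartiteAbove_eq_sum_card_bipartiteBelow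
      (s := G.offDiag) (t := K) (fun q k => k ∈ pts P q.1 ∩ pts P q.2)
    simp only [Finset.bipartiteAbove, Finset.bipartiteBelow] at this
    have h1 : ∀ q ∈ G.offDiag, (K ∩ (pts P q.1 ∩ pts P q.2)).card =
        (K.filter fun k => k ∈ pts P q.1 ∩ pts P q.2).card := by
      intro q _
      congr 1
    rw [Finset.sum_congr rfl h1, this]
    refine Finset.sum_congr rfl fun i _ => ?_
    congr 1
    ext q
    simp only [Finset.mem_offDiag, Finset.mem_filter, Finset.mem_inter]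
    tauto
  rw [e1, e2, ← Finset.sum_add_distrib]
  have e3 : ∀ i ∈ K, d i + (G.filter fun h => i ∈ pts P h).offDiag.card = d i ^ 2 := by
    intro i _
    rw [Finset.offDiag_card]
    show d i + (d i * d i - d i) = d i ^ 2
    have : d i ≤ d i * d i := Nat.le_mul_self _
    rw [sq]; omega
  rw [Finset.sum_congr rfl e3]
  exact sq_sum_le_card_mul_sum_sq

end Pool.Agent.Lib.MP_0f9b7a_co
end

section
/-!
# The first upper bound
-/
set_option autoImplicit false

namespace Pool.Agent.Lib.MP_0f9b7a_co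

open scoped Classical

variable {m : ℕ} {P : Fin m → V3}

theorem sqrt_add_le {x y : ℝ} (hx : 0 ≤ x) (hy : 0 ≤ y) : √(x + y) ≤ √x + √y := by
  rw [Real.sqrt_le_left (by positivity)]
  nlinarith [Real.sq_sqrt hx, Real.sq_sqrt hy, Real.sqrt_nonneg x, Real.sqrt_nonneg y,
    mul_nonneg (Real.sqrt_nonneg x) (Real.sqrt_nonneg y)]

theorem le_of_sq_le {a k Q : ℝ} (_ha : 0 ≤ a) (hk : 0 ≤ k) (hQ : 0 ≤ Q)
    (h : a ^ 2 ≤ k * (a + Q)) : a ≤ k + √(k * Q) := by
  by_contra hcon
  push Not at hcon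
  have h1 := Real.sqrt_nonneg (k * Q)
  have h2 : √(k * Q) * √(k * Q) = k * Q := Real.mul_self_sqrt (mul_nonneg hk hQ)
  nlinarith

/-- Incidences in a cell. -/
theorem cell_le (P : Fin m → V3) (s : ℕ) (K : Finset (Fin m)) (G : Finset V3) :
    ∑ h ∈ G, ((K ∩ pts P h).card : ℝ) ≤ K.card + √(s * K.card) * G.card +
      √(K.card : ℝ) * √(∑ q ∈ G.offDiag.filter (fun q => s ≤ codeg P q), (codeg P q : ℝ)) := by
  set E : ℝ := ∑ q ∈ G.offDiag.filter (fun q => s ≤ codeg P q), (codeg P q : ℝ) with hE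
  have hE0 : 0 ≤ E := Finset.sum_nonneg fun q _ => Nat.cast_nonneg _
  set Q : ℝ := ∑ q ∈ G.offDiag, ((K ∩ (pts P q.1 ∩ pts P q.2)).card : ℝ) with hQ
  have hQ0 : 0 ≤ Q := Finset.sum_nonneg fun q _ => Nat.cast_nonneg _
  have hk := kst P K G
  have hk' : (∑ h ∈ G, ((K ∩ pts P h).card : ℝ)) ^ 2 ≤
      K.card * (∑ h ∈ G, ((K ∩ pts P h).card : ℝ) + Q) := by
    rw [hQ]; exact_mod_cast hk
  have hI0 : 0 ≤ ∑ h ∈ G, ((K ∩ pts P h).card : ℝ) :=
    Finset.sum_nonneg fun q _ => Nat.cast_nonneg _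
  have h1 := le_of_sq_le hI0 (Nat.cast_nonneg _) hQ0 hk'
  have hQle : Q ≤ s * (G.card : ℝ) ^ 2 + E := by
    have h2 : Q ≤ ∑ q ∈ G.offDiag, (codeg P q : ℝ) := by
      apply Finset.sum_le_sum
      intro q _
      exact_mod_cast Finset.card_le_card Finset.inter_subset_right
    refine h2.trans ?_
    rw [← Finset.sum_filter_add_sum_filter_not G.offDiag (fun q => s ≤ codeg P q)]
    have h3 : ∑ q ∈ G.offDiag.filter (fun q => ¬ s ≤ codeg P q), (codeg P q : ℝ) ≤
        s * (G.card : ℝ) ^ 2 := by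
      have h4 : ∑ q ∈ G.offDiag.filter (fun q => ¬ s ≤ codeg P q), (codeg P q : ℝ) ≤
          ∑ q ∈ G.offDiag.filter (fun q => ¬ s ≤ codeg P q), (s : ℝ) := by
        apply Finset.sum_le_sum
        intro q hq
        have := (Finset.mem_filter.1 hq).2
        push Not at this
        exact_mod_cast this.le
      refine h4.trans ?_
      rw [Finset.sum_const, nsmul_eq_mul, mul_comm]
      apply mul_le_mul_of_nonneg_left _ (Nat.cast_nonneg _)
      have h5 : (G.offDiag.filter (fun q => ¬ s ≤ codeg P q)).card ≤ G.card ^ 2 := by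
        refine (Finset.card_filter_le _ _).trans ?_
        rw [Finset.offDiag_card, sq]
        exact Nat.sub_le _ _
      exact_mod_cast h5
    linarith
  have hKn : (0 : ℝ) ≤ K.card := Nat.cast_nonneg _
  have h6 : √(K.card * Q) ≤ √(s * K.card) * G.card + √(K.card : ℝ) * √E := by
    calc √(K.card * Q) ≤ √(K.card * (s * (G.card : ℝ) ^ 2 + E)) :=
          Real.sqrt_le_sqrt (mul_le_mul_of_nonneg_left hQle hKn)
      _ = √(s * K.card * (G.card : ℝ) ^ 2 + K.card * E) := by ring_nf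
      _ ≤ √(s * K.card * (G.card : ℝ) ^ 2) + √(K.card * E) :=
          sqrt_add_le (by positivity) (by positivity)
      _ = √(s * K.card) * G.card + √(K.card : ℝ) * √E := by
          rw [Real.sqrt_mul (by positivity), Real.sqrt_sq (Nat.cast_nonneg _),
            Real.sqrt_mul hKn]
  linarith

/-- The first upper bound. -/
theorem levelA (hinj : Function.Injective P)
    (hP : ∀ i j, (P i).2.1 = (P j).2.1 → (P i).1 = (P j).1) {s : ℕ} (hs : 2 ≤ s) {H : Finset V3}
    (hf : FreeI s P H) {r : ℝ} (hr : 1 ≤ r) (hrm : r ≤ m) :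
    ∑ h ∈ H, ((pts P h).card : ℝ) ≤ (1 + 2 * s) * H.card + (2 * s + 23808) * (m * r ^ 2) +
      2 * (H.card * √(s * (128 * (m / r)))) +
      2 * (√(11904 * (m * r ^ 2)) * √(((s - 1) * (s - 2) : ℕ) * (m : ℝ) ^ 2)) := by
  have hm : (0 : ℝ) < m := by linarith
  have hr0 : 0 < r := by linarith
  set p : ℝ := r / m with hpdef
  have h0 : 0 < p := div_pos hr0 hm
  have h1 : p ≤ 1 := (div_le_one hm).2 hrm
  have hmp : (m : ℝ) * p = r := by rw [hpdef]; field_simp
  choose X hXg hX using fun h : V3 => exists_gen hinj hP h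
  have hsplit := split_incidences P H h0.le h1
  -- the two part
  have h2 : Ex p (fun R => ∑ h ∈ H, if 2 ≤ (R ∩ pts P h).card then ((pts P h).card : ℝ) else 0) ≤
      s * (m * r ^ 2) + s * H.card := by
    refine (Ex_mono h0.le h1 fun R => two_part hinj (by omega) hf R).trans ?_
    rw [Ex_add, Ex_mul, Ex_const]
    have := Ex_pairs_le (m := m) h0.le
    rw [hmp] at this
    have h3 : (s : ℝ) * m * Ex p (fun R : Finset (Fin m) => (R.card : ℝ) * ((R.card : ℝ) - 1)) ≤
        s * m * r ^ 2 := mul_le_mul_of_nonneg_left this (by positivity)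
    linarith
  -- the zero part
  set E : ℝ := ((s - 1) * (s - 2) : ℕ) * (m : ℝ) ^ 2 with hEdef
  have hE0 : 0 ≤ E := by positivity
  have hcell : ∀ R : Finset (Fin m),
      ∑ h ∈ H, (if (R ∩ pts P h).card = 0 then ((pts P h).card : ℝ) else 0) ≤
      ∑ τ ∈ labels P R, ((confl P τ).card : ℝ) ^ 1 +
        ∑ h ∈ H, √(s * ((confl P (lab P R (X h))).card : ℝ)) +
        √(∑ τ ∈ labels P R, ((confl P τ).card : ℝ) ^ 1) * √E := by
    intro R
    refine (zero_part hP H X (fun h _ => ⟨hXg h, hX h⟩) R).trans ?_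
    have e1 : ∀ τ ∈ labels P R, ∑ h ∈ H.filter (fun h => lab P R (X h) = τ),
        ((confl P τ ∩ pts P h).card : ℝ) ≤ (confl P τ).card +
          √(s * (confl P τ).card) * (H.filter (fun h => lab P R (X h) = τ)).card +
          √((confl P τ).card : ℝ) * √(∑ q ∈ (H.filter
            (fun h => lab P R (X h) = τ)).offDiag.filter (fun q => s ≤ codeg P q),
              (codeg P q : ℝ)) := fun τ _ => cell_le P s _ _
    refine (Finset.sum_le_sum e1).trans ?_
    rw [Finset.sum_add_distrib, Finset.sum_add_distrib]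
    refine add_le_add (add_le_add (le_of_eq ?_) (le_of_eq ?_)) ?_
    · simp only [pow_one]
    · rw [← Finset.sum_fiberwise_of_maps_to (s := H) (t := labels P R)
        (g := fun h => lab P R (X h)) (f := fun h => √(s * ((confl P (lab P R (X h))).card : ℝ)))
        (fun h _ => lab_mem_labels (hXg h))]
      refine Finset.sum_congr rfl fun τ _ => ?_
      have : ∀ h ∈ H.filter (fun h => lab P R (X h) = τ),
          √(s * ((confl P (lab P R (X h))).card : ℝ)) = √(s * ((confl P τ).card : ℝ)) := by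
        intro h hh
        rw [(Finset.mem_filter.1 hh).2]
      rw [Finset.sum_congr rfl this, Finset.sum_const, nsmul_eq_mul, mul_comm]
    · refine (Real.sum_sqrt_mul_sqrt_le _ (fun τ => Nat.cast_nonneg _)
        (fun τ => Finset.sum_nonneg fun q _ => Nat.cast_nonneg _)).trans ?_
      simp only [pow_one]
      apply mul_le_mul_of_nonneg_left _ (Real.sqrt_nonneg _)
      apply Real.sqrt_le_sqrt
      have hh := heavy_le hinj hs hf
      set F := H.offDiag.filter (fun q => s ≤ codeg P q) with hF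
      have e2 : ∑ τ ∈ labels P R, ∑ q ∈ (H.filter
            (fun h => lab P R (X h) = τ)).offDiag.filter (fun q => s ≤ codeg P q),
              (codeg P q : ℝ) ≤ ∑ τ ∈ labels P R,
              ∑ q ∈ F.filter (fun q => lab P R (X q.1) = τ), (codeg P q : ℝ) := by
        apply Finset.sum_le_sum
        intro τ _
        apply Finset.sum_le_sum_of_subset_of_nonneg
        · intro q hq
          obtain ⟨ha, hb⟩ := Finset.mem_filter.1 hq
          obtain ⟨hc, hd, he⟩ := Finset.mem_offDiag.1 ha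
          obtain ⟨hc1, hc2⟩ := Finset.mem_filter.1 hc
          exact Finset.mem_filter.2 ⟨Finset.mem_filter.2 ⟨Finset.mem_offDiag.2
            ⟨hc1, (Finset.mem_filter.1 hd).1, he⟩, hb⟩, hc2⟩
        · intro q _ _
          exact Nat.cast_nonneg _
      refine e2.trans ?_
      rw [Finset.sum_fiberwise_of_maps_to (s := F) (t := labels P R)
        (g := fun q => lab P R (X q.1)) (fun q _ => lab_mem_labels (hXg q.1))]
      have : ((∑ q ∈ F, codeg P q : ℕ) : ℝ) ≤ (((s - 1) * (s - 2) * m ^ 2 : ℕ) : ℝ) := by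
        exact_mod_cast hh
      push_cast at this
      rw [hEdef]
      push_cast
      exact this
  have hmom : Ex p (fun R => ∑ τ ∈ labels P R, ((confl P τ).card : ℝ) ^ 1) ≤
      11904 * (m * r ^ 2) := by
    have := moment_labels hP h0 h1 (by rw [hmp]; exact hr) 1
    refine this.trans (le_of_eq ?_)
    rw [hmp, Nat.factorial_one, hpdef]
    field_simp
    norm_num
  have hpt : ∀ h : V3, Ex p (fun R => √(s * ((confl P (lab P R (X h))).card : ℝ))) ≤
      √(s * (128 * (m / r))) := by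
    intro h
    refine (Ex_sqrt_le h0.le h1 fun R => by positivity).trans ?_
    apply Real.sqrt_le_sqrt
    rw [Ex_mul]
    apply mul_le_mul_of_nonneg_left _ (Nat.cast_nonneg _)
    refine (moment_point hP h0 h1 (hXg h)).trans (le_of_eq ?_)
    rw [hpdef]; field_simp
  have hzero : Ex p (fun R => ∑ h ∈ H, if (R ∩ pts P h).card = 0 then
      ((pts P h).card : ℝ) else 0) ≤ 11904 * (m * r ^ 2) + H.card * √(s * (128 * (m / r))) +
        √(11904 * (m * r ^ 2)) * √E := by
    refine (Ex_mono h0.le h1 hcell).trans ?_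
    rw [Ex_add, Ex_add]
    refine add_le_add (add_le_add hmom ?_) ?_
    · rw [Ex_sum]
      refine (Finset.sum_le_sum fun h _ => hpt h).trans ?_
      rw [Finset.sum_const, nsmul_eq_mul]
    · have e1 : Ex p (fun R => √(∑ τ ∈ labels P R, ((confl P τ).card : ℝ) ^ 1) * √E) =
          √E * Ex p (fun R => √(∑ τ ∈ labels P R, ((confl P τ).card : ℝ) ^ 1)) := by
        rw [← Ex_mul]; congr 1; funext R; ring
      rw [e1, mul_comm]
      apply mul_le_mul_of_nonneg_right _ (Real.sqrt_nonneg _)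
      refine (Ex_sqrt_le h0.le h1 fun R => Finset.sum_nonneg fun τ _ => by positivity).trans ?_
      exact Real.sqrt_le_sqrt hmom
  linarith

end Pool.Agent.Lib.MP_0f9b7a_co
end

section
/-!
# The first upper bound for finite sets
-/
set_option autoImplicit false

namespace Pool.Agent.Lib.MP_0f9b7a_co

open scoped Classical

/-- Genericity of the slopes of a finite set. -/
def GenSl (A : Finset V3) : Prop := ∀ p ∈ A, ∀ q ∈ A, p.2.1 = q.2.1 → p.1 = q.1

theorem GenSl.mono {A A' : Finset V3} (h : GenSl A') (hA : A ⊆ A') : GenSl A :=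
  fun p hp q hq => h p (hA hp) q (hA hq)

theorem GenSl.dualize {A : Finset V3} (h : GenSl A) : GenSl (A.image dualize) := by
  intro p hp q hq hpq
  obtain ⟨p', hp', rfl⟩ := Finset.mem_image.1 hp
  obtain ⟨q', hq', rfl⟩ := Finset.mem_image.1 hq
  exact h p' hp' q' hq' hpq

theorem Free.subset {s t : ℕ} {A A' B B' : Finset V3} (h : Free s t A' B') (hA : A ⊆ A')
    (hB : B ⊆ B') : Free s t A B :=
  fun _ ha _ hb => h _ (ha.trans hA) _ (hb.trans hB)

/-- An enumeration of a finite set. -/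
noncomputable def enum (A : Finset V3) (i : Fin A.card) : V3 := (A.equivFin.symm i : V3)

theorem enum_injective (A : Finset V3) : Function.Injective (enum A) :=
  Subtype.val_injective.comp A.equivFin.symm.injective

theorem enum_mem (A : Finset V3) (i : Fin A.card) : enum A i ∈ A := (A.equivFin.symm i).2

theorem image_enum (A : Finset V3) : Finset.univ.image (enum A) = A := by
  ext p
  constructor
  · intro h
    obtain ⟨i, -, rfl⟩ := Finset.mem_image.1 h
    exact enum_mem A i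
  · intro h
    refine Finset.mem_image.2 ⟨A.equivFin ⟨p, h⟩, Finset.mem_univ _, ?_⟩
    simp [enum]

theorem inc_image {m : ℕ} {P : Fin m → V3} (hinj : Function.Injective P) (K : Finset (Fin m))
    (G : Finset V3) : inc (K.image P) G = ∑ h ∈ G, (K ∩ pts P h).card := by
  unfold inc
  rw [Finset.card_filter, Finset.sum_product_right]
  refine Finset.sum_congr rfl fun h _ => ?_
  rw [Finset.sum_image fun i _ j _ hij => hinj hij, ← Finset.card_filter]
  congr 1
  ext i
  simp [mem_pts]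

theorem inc_enum (A B : Finset V3) :
    (inc A B : ℝ) = ∑ h ∈ B, ((pts (enum A) h).card : ℝ) := by
  have h1 := inc_image (enum_injective A) Finset.univ B
  rw [image_enum] at h1
  rw [h1]
  push_cast
  refine Finset.sum_congr rfl fun h _ => ?_
  rw [Finset.univ_inter]

theorem freeI_enum {s : ℕ} {A B : Finset V3} (h : Free s s A B) : FreeI s (enum A) B := by
  intro A' B' hB' hA'c hB'c
  obtain ⟨p, hp, g, hg, hpg⟩ := h (A'.image (enum A))
    (by
      intro p hp
      obtain ⟨i, -, rfl⟩ := Finset.mem_image.1 hp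
      exact enum_mem A i) B' hB'
    (by rw [Finset.card_image_of_injective _ (enum_injective A)]; exact hA'c) hB'c
  obtain ⟨i, hi, rfl⟩ := Finset.mem_image.1 hp
  exact ⟨i, hi, g, hg, hpg⟩

/-- The first upper bound, for sets. -/
theorem levelA_set {s : ℕ} (hs : 2 ≤ s) {A B : Finset V3} (hA : GenSl A) (hf : Free s s A B)
    {r : ℝ} (hr : 1 ≤ r) (hrm : r ≤ A.card) :
    (inc A B : ℝ) ≤ (1 + 2 * s) * B.card + (2 * s + 23808) * (A.card * r ^ 2) +
      2 * (B.card * √(s * (128 * (A.card / r)))) +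
      2 * (√(11904 * (A.card * r ^ 2)) *
        √(((s - 1) * (s - 2) : ℕ) * (A.card : ℝ) ^ 2)) := by
  rw [inc_enum]
  exact levelA (enum_injective A) (fun i j => hA _ (enum_mem A i) _ (enum_mem A j)) hs
    (freeI_enum hf) hr hrm

/-- The basic (Kővári-Sós-Turán type) bound. -/
theorem basic_set {s : ℕ} (hs : 2 ≤ s) {A B : Finset V3} (hf : Free s s A B) :
    (inc A B : ℝ) ≤ A.card + √(s * A.card) * B.card +
      √(A.card : ℝ) * √(((s - 1) * (s - 2) : ℕ) * (A.card : ℝ) ^ 2) := by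
  rw [inc_enum]
  have h1 := cell_le (enum A) s Finset.univ B
  simp only [Finset.univ_inter, Finset.card_univ, Fintype.card_fin] at h1
  refine h1.trans ?_
  have h2 := heavy_le (enum_injective A) hs (freeI_enum hf)
  have h3 : √(∑ q ∈ B.offDiag.filter (fun q => s ≤ codeg (enum A) q), (codeg (enum A) q : ℝ)) ≤
      √(((s - 1) * (s - 2) : ℕ) * (A.card : ℝ) ^ 2) := by
    apply Real.sqrt_le_sqrt
    exact_mod_cast h2
  have := mul_le_mul_of_nonneg_left h3 (Real.sqrt_nonneg (A.card : ℝ))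
  linarith

/-- If there are at least as many planes as points, the basic bound is
`O(√|A| |B|)`. -/
theorem basic_set' {s : ℕ} (hs : 2 ≤ s) {A B : Finset V3} (hf : Free s s A B)
    (hAB : A.card ≤ B.card) : (inc A B : ℝ) ≤ (1 + 2 * s) * (√(A.card : ℝ) * B.card) := by
  have h1 := basic_set hs hf
  set a : ℝ := (A.card : ℝ) with ha
  set b : ℝ := (B.card : ℝ) with hb
  have hab : a ≤ b := by rw [ha, hb]; exact_mod_cast hAB
  have ha0 : 0 ≤ a := Nat.cast_nonneg _
  have hs0 : (0 : ℝ) ≤ s := Nat.cast_nonneg _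
  have hs1 : (1 : ℝ) ≤ s := by exact_mod_cast (by omega : 1 ≤ s)
  have e1 : a ≤ √a * b := by
    rcases Nat.eq_zero_or_pos A.card with h0 | h0
    · have : a = 0 := by rw [ha, h0]; simp
      rw [this]; simp
    · have h1a : (1 : ℝ) ≤ a := by rw [ha]; exact_mod_cast h0
      have h2 : 1 ≤ √a := by rw [Real.one_le_sqrt]; exact h1a
      nlinarith
  have e2 : √(s * a) ≤ s * √a := by
    rw [Real.sqrt_mul hs0]
    apply mul_le_mul_of_nonneg_right _ (Real.sqrt_nonneg _)
    rw [Real.sqrt_le_left hs0]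
    nlinarith
  have e3 : √(((s - 1) * (s - 2) : ℕ) * a ^ 2) ≤ s * a := by
    rw [Real.sqrt_le_left (by positivity)]
    have : (((s - 1) * (s - 2) : ℕ) : ℝ) ≤ (s : ℝ) ^ 2 := by
      have : (s - 1) * (s - 2) ≤ s ^ 2 := by
        rw [sq]; exact Nat.mul_le_mul (Nat.sub_le _ _) (Nat.sub_le _ _)
      exact_mod_cast this
    rw [mul_pow]
    exact mul_le_mul_of_nonneg_right this (by positivity)
  have hsa := Real.sqrt_nonneg a
  have e4 : √(s * a) * b ≤ s * √a * b := mul_le_mul_of_nonneg_right e2 (by linarith)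
  have e5 : √a * √(((s - 1) * (s - 2) : ℕ) * a ^ 2) ≤ √a * (s * b) := by
    apply mul_le_mul_of_nonneg_left _ hsa
    refine e3.trans (mul_le_mul_of_nonneg_left hab hs0)
  have e6 : (1 + 2 * s) * (√a * b) = √a * b + s * √a * b + √a * (s * b) := by ring
  rw [e6]
  linarith

end Pool.Agent.Lib.MP_0f9b7a_co
end

section
/-!
# Optimizing the first upper bound
-/
set_option autoImplicit false

namespace Pool.Agent.Lib.MP_0f9b7a_co

open scoped Classical

/-- the factor of the last term, zero for `s = 2` -/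
def del (s : ℕ) : ℕ := (s - 1) * (s - 2)

theorem levelA_simple {s : ℕ} (hs : 2 ≤ s) {A B : Finset V3} (hA : GenSl A)
    (hf : Free s s A B) {r : ℝ} (hr : 1 ≤ r) (hrm : r ≤ A.card) :
    (inc A B : ℝ) ≤ 23810 * s * (B.card + A.card * r ^ 2 + B.card * √(A.card / r)) +
      220 * del s * (√(A.card : ℝ) * A.card * r) := by
  have h := levelA_set hs hA hf hr hrm
  set m : ℝ := (A.card : ℝ) with hm
  set n : ℝ := (B.card : ℝ) with hn
  have hm0 : 0 < m := by linarith
  have hn0 : 0 ≤ n := Nat.cast_nonneg _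
  have hr0 : 0 < r := by linarith
  have hs1 : (2 : ℝ) ≤ s := by exact_mod_cast hs
  have e1 : √(s * (128 * (m / r))) ≤ 12 * s * √(m / r) := by
    rw [Real.sqrt_le_left (by positivity), mul_pow, Real.sq_sqrt (by positivity)]
    have : 0 ≤ m / r := by positivity
    nlinarith [mul_nonneg (by nlinarith : (0 : ℝ) ≤ (12 * s) ^ 2 - s * 128) this]
  have e2 : √(11904 * (m * r ^ 2)) ≤ 110 * (√m * r) := by
    rw [Real.sqrt_le_left (by positivity), mul_pow, mul_pow, Real.sq_sqrt hm0.le]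
    nlinarith [mul_nonneg hm0.le (sq_nonneg r)]
  have e3 : √(((s - 1) * (s - 2) : ℕ) * m ^ 2) ≤ del s * m := by
    rw [Real.sqrt_le_left (by positivity), mul_pow]
    apply mul_le_mul_of_nonneg_right _ (by positivity)
    show ((del s : ℕ) : ℝ) ≤ (del s : ℝ) ^ 2
    have : del s ≤ del s ^ 2 := by
      rw [sq]; exact Nat.le_mul_self _
    exact_mod_cast this
  have e4 : √(11904 * (m * r ^ 2)) * √(((s - 1) * (s - 2) : ℕ) * m ^ 2) ≤
      110 * (√m * r) * (del s * m) :=
    mul_le_mul e2 e3 (Real.sqrt_nonneg _) (by positivity)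
  have e5 : n * √(s * (128 * (m / r))) ≤ n * (12 * s * √(m / r)) :=
    mul_le_mul_of_nonneg_left e1 hn0
  have hmr : 0 ≤ m * r ^ 2 := by positivity
  have hnm : 0 ≤ n * √(m / r) := by positivity
  have e6 : (1 + 2 * s) * n ≤ 23810 * s * n := by nlinarith
  have e7 : (2 * s + 23808) * (m * r ^ 2) ≤ 23810 * s * (m * r ^ 2) := by
    apply mul_le_mul_of_nonneg_right _ hmr
    linarith
  have e8 : 2 * (n * (12 * s * √(m / r))) ≤ 23810 * s * (n * √(m / r)) := by nlinarith
  have e9 : 2 * (110 * (√m * r) * (del s * m)) = 220 * del s * (√m * m * r) := by ring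
  linarith

theorem sqrt_div_pow {a b : ℝ} (ha : 0 ≤ a) (hb : 0 < b) : √(a ^ 2 / b ^ 2) = a / b := by
  rw [Real.sqrt_div (by positivity), Real.sqrt_sq ha, Real.sqrt_sq hb.le]

/-- The bound for `s = 2`. -/
theorem optTwo {A B : Finset V3} (hA : GenSl A) (hf : Free 2 2 A B) {x y : ℝ} (hx : 1 ≤ x)
    (hy : 1 ≤ y) (hxm : x ^ 5 = A.card) (hyn : y ^ 5 = B.card) :
    (inc A B : ℝ) ≤ 142860 * (x ^ 3 * y ^ 4 + A.card + B.card) := by
  have hx0 : 0 < x := by linarith
  have hy0 : 0 < y := by linarith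
  have hdel : del 2 = 0 := rfl
  have key : ∀ r : ℝ, 1 ≤ r → r ≤ A.card → (inc A B : ℝ) ≤
      47620 * (B.card + A.card * r ^ 2 + B.card * √(A.card / r)) := by
    intro r h1 h2
    have h3 := levelA_simple (le_refl 2) hA hf h1 h2
    rw [hdel] at h3
    push_cast at h3
    linarith
  rw [← hxm, ← hyn] at key ⊢
  have hT : 0 ≤ x ^ 3 * y ^ 4 := by positivity
  have hm1 : 1 ≤ x ^ 5 := one_le_pow₀ hx
  have hn0 : 0 < y ^ 5 := by positivity
  rcases le_or_gt x (y ^ 2) with h1 | h1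
  · rcases le_or_gt y (x ^ 3) with h2 | h2
    · have hr1 : 1 ≤ y ^ 2 / x := by rw [one_le_div hx0]; exact h1
      have hrm : y ^ 2 / x ≤ x ^ 5 := by
        rw [div_le_iff₀ hx0]
        calc y ^ 2 ≤ (x ^ 3) ^ 2 := pow_le_pow_left₀ hy0.le h2 2
          _ = x ^ 5 * x := by ring
      have h3 := key _ hr1 hrm
      have e1 : x ^ 5 * (y ^ 2 / x) ^ 2 = x ^ 3 * y ^ 4 := by field_simp
      have e2 : √(x ^ 5 / (y ^ 2 / x)) = x ^ 3 / y := by
        rw [← sqrt_div_pow (by positivity) hy0]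
        congr 1
        field_simp
      have e3 : y ^ 5 * (x ^ 3 / y) = x ^ 3 * y ^ 4 := by field_simp
      rw [e1, e2, e3] at h3
      nlinarith
    · have h3 := key (x ^ 5) hm1 le_rfl
      rw [div_self (by positivity), Real.sqrt_one, mul_one] at h3
      have e1 : x ^ 5 * (x ^ 5) ^ 2 ≤ y ^ 5 := by
        calc x ^ 5 * (x ^ 5) ^ 2 = (x ^ 3) ^ 5 := by ring
          _ ≤ y ^ 5 := pow_le_pow_left₀ (by positivity) h2.le 5
      nlinarith
  · have h3 := key 1 le_rfl hm1
    have e1 : y ^ 5 * √(x ^ 5 / 1) ≤ x ^ 5 := by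
      rw [div_one]
      have h4 : √(x ^ 5) ≤ x ^ 5 / y ^ 5 := by
        rw [Real.sqrt_le_left (by positivity), div_pow, le_div_iff₀ (by positivity)]
        calc x ^ 5 * (y ^ 5) ^ 2 = x ^ 5 * (y ^ 2) ^ 5 := by ring
          _ ≤ x ^ 5 * x ^ 5 := by
              apply mul_le_mul_of_nonneg_left _ (by positivity)
              exact pow_le_pow_left₀ (by positivity) h1.le 5
          _ = (x ^ 5) ^ 2 := by ring
      calc y ^ 5 * √(x ^ 5) ≤ y ^ 5 * (x ^ 5 / y ^ 5) := mul_le_mul_of_nonneg_left h4 hn0.le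
        _ = x ^ 5 := by field_simp
    rw [one_pow, mul_one] at h3
    nlinarith

/-- The first bound for general `s`, at least as many planes as points. -/
theorem optThree {s : ℕ} (hs : 2 ≤ s) {A B : Finset V3} (hA : GenSl A) (hf : Free s s A B)
    {u v : ℝ} (hu : 1 ≤ u) (huv : u ≤ v) (hum : u ^ 30 = A.card) (hvn : v ^ 30 = B.card) :
    (inc A B : ℝ) ≤ 72000 * (s : ℝ) ^ 2 * (u ^ 18 * v ^ 24 + u ^ 25 * v ^ 20 + v ^ 30) := by
  have hv : 1 ≤ v := hu.trans huv
  have hu0 : 0 < u := by linarith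
  have hv0 : 0 < v := by linarith
  have hs2 : (2 : ℝ) ≤ s := by exact_mod_cast hs
  have hdel : (del s : ℝ) ≤ (s : ℝ) ^ 2 := by
    have : del s ≤ s ^ 2 := by
      rw [sq]; exact Nat.mul_le_mul (Nat.sub_le _ _) (Nat.sub_le _ _)
    exact_mod_cast this
  have key : ∀ r T : ℝ, 1 ≤ r → r ≤ u ^ 30 → v ^ 30 ≤ T → u ^ 30 * r ^ 2 ≤ T →
      v ^ 30 * √(u ^ 30 / r) ≤ T → u ^ 45 * r ≤ T → (inc A B : ℝ) ≤
      72000 * (s : ℝ) ^ 2 * T := by
    intro r T h1 h2 t0 t1 t2 t3
    have h3 := levelA_simple hs hA hf h1 (by rw [← hum]; exact h2)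
    rw [← hum, ← hvn] at h3
    have e1 : √(u ^ 30) = u ^ 15 := by
      rw [show u ^ 30 = (u ^ 15) ^ 2 by ring]; exact Real.sqrt_sq (by positivity)
    rw [e1] at h3
    have e2 : u ^ 15 * u ^ 30 * r = u ^ 45 * r := by ring
    rw [e2] at h3
    have hT : 0 ≤ T := le_trans (by positivity) t0
    have e3 : 23810 * (s : ℝ) * (v ^ 30 + u ^ 30 * r ^ 2 + v ^ 30 * √(u ^ 30 / r)) ≤
        23810 * (s : ℝ) * (3 * T) := mul_le_mul_of_nonneg_left (by linarith) (by positivity)
    have e4 : 220 * (del s : ℝ) * (u ^ 45 * r) ≤ 220 * (s : ℝ) ^ 2 * T := by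
      apply mul_le_mul (by linarith) t3 (by positivity) (by positivity)
    have e5 : 23810 * (s : ℝ) * (3 * T) ≤ 71430 * (s : ℝ) ^ 2 * T := by
      have : 0 ≤ (s : ℝ) * T := by positivity
      nlinarith
    nlinarith [mul_nonneg (sq_nonneg (s : ℝ)) hT]
  set T := u ^ 18 * v ^ 24 + u ^ 25 * v ^ 20 + v ^ 30 with hT
  have p1 : 0 ≤ u ^ 18 * v ^ 24 := by positivity
  have p2 : 0 ≤ u ^ 25 * v ^ 20 := by positivity
  have p3 : 0 ≤ v ^ 30 := by positivity
  have t0 : v ^ 30 ≤ T := by linarith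
  rcases le_or_gt (u ^ 3) v with h1 | h1
  · apply key (u ^ 30) T (one_le_pow₀ hu) le_rfl t0
    · have : u ^ 30 * (u ^ 30) ^ 2 ≤ v ^ 30 := by
        calc u ^ 30 * (u ^ 30) ^ 2 = (u ^ 3) ^ 30 := by ring
          _ ≤ v ^ 30 := pow_le_pow_left₀ (by positivity) h1 30
      linarith
    · rw [div_self (by positivity), Real.sqrt_one, mul_one]; exact t0
    · have : u ^ 45 * u ^ 30 ≤ v ^ 30 := by
        calc u ^ 45 * u ^ 30 = u ^ 75 := by ring
          _ ≤ u ^ 90 := pow_le_pow_right₀ hu (by norm_num)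
          _ = (u ^ 3) ^ 30 := by ring
          _ ≤ v ^ 30 := pow_le_pow_left₀ (by positivity) h1 30
      linarith
  · rcases le_or_gt (u ^ 7) (v ^ 4) with h2 | h2
    · have hr1 : 1 ≤ v ^ 12 / u ^ 6 := by
        rw [one_le_div (by positivity)]
        calc u ^ 6 ≤ v ^ 6 := pow_le_pow_left₀ hu0.le huv 6
          _ ≤ v ^ 12 := pow_le_pow_right₀ hv (by norm_num)
      have hrm : v ^ 12 / u ^ 6 ≤ u ^ 30 := by
        rw [div_le_iff₀ (by positivity)]
        calc v ^ 12 ≤ (u ^ 3) ^ 12 := pow_le_pow_left₀ hv0.le h1.le 12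
          _ = u ^ 30 * u ^ 6 := by ring
      apply key _ T hr1 hrm t0
      · have : u ^ 30 * (v ^ 12 / u ^ 6) ^ 2 = u ^ 18 * v ^ 24 := by field_simp
        linarith
      · have e2 : √(u ^ 30 / (v ^ 12 / u ^ 6)) = u ^ 18 / v ^ 6 := by
          rw [show u ^ 30 / (v ^ 12 / u ^ 6) = (u ^ 18) ^ 2 / (v ^ 6) ^ 2 by field_simp]
          exact sqrt_div_pow (by positivity) (by positivity)
        rw [e2]
        have : v ^ 30 * (u ^ 18 / v ^ 6) = u ^ 18 * v ^ 24 := by field_simp
        linarith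
      · have : u ^ 45 * (v ^ 12 / u ^ 6) ≤ u ^ 18 * v ^ 24 := by
          have e : u ^ 45 * (v ^ 12 / u ^ 6) = u ^ 18 * v ^ 12 * (u ^ 7) ^ 3 := by field_simp
          rw [e]
          calc u ^ 18 * v ^ 12 * (u ^ 7) ^ 3 ≤ u ^ 18 * v ^ 12 * (v ^ 4) ^ 3 := by gcongr
            _ = u ^ 18 * v ^ 24 := by ring
        linarith
    · have hv20 : v ^ 20 ≤ u ^ 35 := by
        calc v ^ 20 = (v ^ 4) ^ 5 := by ring
          _ ≤ (u ^ 7) ^ 5 := pow_le_pow_left₀ (by positivity) h2.le 5
          _ = u ^ 35 := by ring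
      have hr1 : 1 ≤ v ^ 20 / u ^ 20 := by
        rw [one_le_div (by positivity)]
        exact pow_le_pow_left₀ hu0.le huv 20
      have hrm : v ^ 20 / u ^ 20 ≤ u ^ 30 := by
        rw [div_le_iff₀ (by positivity)]
        calc v ^ 20 ≤ u ^ 35 := hv20
          _ ≤ u ^ 50 := pow_le_pow_right₀ hu (by norm_num)
          _ = u ^ 30 * u ^ 20 := by ring
      apply key _ T hr1 hrm t0
      · have : u ^ 30 * (v ^ 20 / u ^ 20) ^ 2 ≤ u ^ 25 * v ^ 20 := by
          have e : u ^ 30 * (v ^ 20 / u ^ 20) ^ 2 = v ^ 20 * v ^ 20 / u ^ 10 := by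
            field_simp
          rw [e, div_le_iff₀ (by positivity)]
          calc v ^ 20 * v ^ 20 ≤ v ^ 20 * u ^ 35 := by gcongr
            _ = u ^ 25 * v ^ 20 * u ^ 10 := by ring
        linarith
      · have e2 : √(u ^ 30 / (v ^ 20 / u ^ 20)) = u ^ 25 / v ^ 10 := by
          rw [show u ^ 30 / (v ^ 20 / u ^ 20) = (u ^ 25) ^ 2 / (v ^ 10) ^ 2 by field_simp]
          exact sqrt_div_pow (by positivity) (by positivity)
        rw [e2]
        have : v ^ 30 * (u ^ 25 / v ^ 10) = u ^ 25 * v ^ 20 := by field_simp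
        linarith
      · have : u ^ 45 * (v ^ 20 / u ^ 20) = u ^ 25 * v ^ 20 := by field_simp
        linarith

end Pool.Agent.Lib.MP_0f9b7a_co
end

section
/-!
# The second upper bound: cuttings on both sides
-/
set_option autoImplicit false

namespace Pool.Agent.Lib.MP_0f9b7a_co

open scoped Classical

theorem mixed_le {X Y : ℝ} (hX : 0 ≤ X) (hY : 0 ≤ Y) (i j : ℕ) :
    X ^ i * Y ^ j ≤ X ^ (i + j) + Y ^ (i + j) := by
  rcases le_total X Y with h | h
  · calc X ^ i * Y ^ j ≤ Y ^ i * Y ^ j := by gcongr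
      _ = Y ^ (i + j) := (pow_add Y i j).symm
      _ ≤ X ^ (i + j) + Y ^ (i + j) := by
          have : 0 ≤ X ^ (i + j) := by positivity
          linarith
  · calc X ^ i * Y ^ j ≤ X ^ i * X ^ j := by gcongr
      _ = X ^ (i + j) := (pow_add X i j).symm
      _ ≤ X ^ (i + j) + Y ^ (i + j) := by
          have : 0 ≤ Y ^ (i + j) := by positivity
          linarith

theorem root_exists (k : ℕ) (n : ℕ) (hk : k ≠ 0) (hn : 1 ≤ n) :
    ∃ x : ℝ, 1 ≤ x ∧ x ^ k = n := by
  refine ⟨(n : ℝ) ^ ((k : ℝ)⁻¹), ?_, ?_⟩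
  · exact Real.one_le_rpow (by exact_mod_cast hn) (by positivity)
  · exact Real.rpow_inv_natCast_pow (Nat.cast_nonneg _) hk

theorem inc_empty_right (A : Finset V3) : inc A ∅ = 0 := by simp [inc]

/-- Incidences in a cell, second level. -/
theorem cell2 {s : ℕ} (hs : 2 ≤ s) {A B : Finset V3} (hB : GenSl B) (hf : Free s s A B) {q : ℝ}
    (hq : 0 < q) : (inc A B : ℝ) ≤ 72000 * (s : ℝ) ^ 2 *
      ((2 / q ^ 2) * B.card + q ^ 3 * (A.card : ℝ) ^ 2 + q ^ 10 * (A.card : ℝ) ^ 4 + A.card +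
        √(A.card : ℝ) * B.card) := by
  have hs2 : (2 : ℝ) ≤ s := by exact_mod_cast hs
  have hq2 : 0 < q ^ 2 := by positivity
  have hsA : 0 ≤ √(A.card : ℝ) * B.card := by positivity
  rcases Nat.eq_zero_or_pos B.card with h0 | h0
  · rw [Finset.card_eq_zero.1 h0, inc_empty_right]
    simp only [Nat.cast_zero]
    positivity
  rcases Nat.lt_or_ge A.card B.card with h1 | h1
  · have h2 := basic_set' hs hf h1.le
    have h3 : (1 + 2 * (s : ℝ)) * (√(A.card : ℝ) * B.card) ≤
        72000 * (s : ℝ) ^ 2 * (√(A.card : ℝ) * B.card) := by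
      apply mul_le_mul_of_nonneg_right _ hsA
      nlinarith
    refine (h2.trans h3).trans ?_
    apply mul_le_mul_of_nonneg_left _ (by positivity)
    have : 0 ≤ (2 / q ^ 2) * (B.card : ℝ) + q ^ 3 * (A.card : ℝ) ^ 2 +
      q ^ 10 * (A.card : ℝ) ^ 4 + A.card := by positivity
    linarith
  · obtain ⟨u, hu1, hu⟩ := root_exists 30 B.card (by norm_num) h0
    obtain ⟨v, hv1, hv⟩ := root_exists 30 A.card (by norm_num) (le_trans h0 h1)
    have hu0 : 0 < u := by linarith
    have hv0 : 0 < v := by linarith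
    have huv : u ≤ v := by
      have : u ^ 30 ≤ v ^ 30 := by rw [hu, hv]; exact_mod_cast h1
      exact le_of_pow_le_pow_left₀ (by norm_num) hv0.le this
    have h2 := optThree hs (hB.dualize) (free_dualize hf) hu1 huv
      (by rw [hu, Finset.card_image_of_injective _ dualize_injective])
      (by rw [hv, Finset.card_image_of_injective _ dualize_injective])
    rw [inc_image_dualize] at h2
    refine h2.trans ?_
    apply mul_le_mul_of_nonneg_left _ (by positivity)
    rw [← hu, ← hv]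
    have e1 : u ^ 18 * v ^ 24 ≤ (1 / q ^ 2) * u ^ 30 + q ^ 3 * (v ^ 30) ^ 2 := by
      have h3 := mixed_le (X := u ^ 6) (Y := q * v ^ 12) (by positivity) (by positivity) 3 2
      have h4 : (1 / q ^ 2) * ((u ^ 6) ^ 3 * (q * v ^ 12) ^ 2) ≤
          (1 / q ^ 2) * ((u ^ 6) ^ (3 + 2) + (q * v ^ 12) ^ (3 + 2)) :=
        mul_le_mul_of_nonneg_left h3 (by positivity)
      have e3 : (1 / q ^ 2) * ((u ^ 6) ^ 3 * (q * v ^ 12) ^ 2) = u ^ 18 * v ^ 24 := by
        field_simp
      have e4 : (1 / q ^ 2) * ((u ^ 6) ^ (3 + 2) + (q * v ^ 12) ^ (3 + 2)) =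
          (1 / q ^ 2) * u ^ 30 + q ^ 3 * (v ^ 30) ^ 2 := by
        field_simp
        ring
      rw [e3, e4] at h4
      exact h4
    have e2 : u ^ 25 * v ^ 20 ≤ (1 / q ^ 2) * u ^ 30 + q ^ 10 * (v ^ 30) ^ 4 := by
      have h3 := mixed_le (X := u ^ 5) (Y := q ^ 2 * v ^ 20) (by positivity) (by positivity) 5 1
      have h4 : (1 / q ^ 2) * ((u ^ 5) ^ 5 * (q ^ 2 * v ^ 20) ^ 1) ≤
          (1 / q ^ 2) * ((u ^ 5) ^ (5 + 1) + (q ^ 2 * v ^ 20) ^ (5 + 1)) :=
        mul_le_mul_of_nonneg_left h3 (by positivity)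
      have e3 : (1 / q ^ 2) * ((u ^ 5) ^ 5 * (q ^ 2 * v ^ 20) ^ 1) = u ^ 25 * v ^ 20 := by
        field_simp
      have e4 : (1 / q ^ 2) * ((u ^ 5) ^ (5 + 1) + (q ^ 2 * v ^ 20) ^ (5 + 1)) =
          (1 / q ^ 2) * u ^ 30 + q ^ 10 * (v ^ 30) ^ 4 := by
        field_simp
        ring
      rw [e3, e4] at h4
      exact h4
    have e5 : (2 / q ^ 2) * u ^ 30 = (1 / q ^ 2) * u ^ 30 + (1 / q ^ 2) * u ^ 30 := by ring
    have e6 : 0 ≤ √(v ^ 30) * u ^ 30 := by positivity
    rw [e5]
    linarith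

/-- The second upper bound, before optimization. -/
theorem levelB {s : ℕ} (hs : 2 ≤ s) {A B : Finset V3} (hA : GenSl A) (hB : GenSl B)
    (hf : Free s s A B) {r : ℝ} (hr : 1 ≤ r) (hrm : r ≤ A.card) {q : ℝ} (hq : 0 < q) :
    (inc A B : ℝ) ≤ (1 + 2 * s) * B.card + 2 * s * (A.card * r ^ 2) +
      144000 * (s : ℝ) ^ 2 * ((2 / q ^ 2) * B.card + q ^ 3 * (47616 * ((A.card : ℝ) ^ 2 * r)) +
        q ^ 10 * (2285568 * ((A.card : ℝ) ^ 4 / r)) + 11904 * (A.card * r ^ 2) +
        B.card * √(128 * (A.card / r))) := by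
  set m := A.card with hmdef
  have hinj := enum_injective A
  have hP : ∀ i j, (enum A i).2.1 = (enum A j).2.1 → (enum A i).1 = (enum A j).1 :=
    fun i j => hA _ (enum_mem A i) _ (enum_mem A j)
  have hfI := freeI_enum hf
  set P : Fin m → V3 := enum A with hPdef
  have hm : (0 : ℝ) < m := by linarith
  have hr0 : 0 < r := by linarith
  set p : ℝ := r / m with hpdef
  have h0 : 0 < p := div_pos hr0 hm
  have h1 : p ≤ 1 := (div_le_one hm).2 hrm
  have hmp : (m : ℝ) * p = r := by rw [hpdef]; field_simp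
  choose X hXg hX using fun h : V3 => exists_gen hinj hP h
  have hsplit := split_incidences P B h0.le h1
  have h2 : Ex p (fun R => ∑ h ∈ B, if 2 ≤ (R ∩ pts P h).card then ((pts P h).card : ℝ) else 0) ≤
      s * (m * r ^ 2) + s * B.card := by
    refine (Ex_mono h0.le h1 fun R => two_part hinj (by omega) hfI R).trans ?_
    rw [Ex_add, Ex_mul, Ex_const]
    have := Ex_pairs_le (m := m) h0.le
    rw [hmp] at this
    have h3 : (s : ℝ) * m * Ex p (fun R : Finset (Fin m) => (R.card : ℝ) * ((R.card : ℝ) - 1)) ≤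
        s * m * r ^ 2 := mul_le_mul_of_nonneg_left this (by positivity)
    linarith
  have hcell : ∀ R : Finset (Fin m),
      ∑ h ∈ B, (if (R ∩ pts P h).card = 0 then ((pts P h).card : ℝ) else 0) ≤
      72000 * (s : ℝ) ^ 2 * ((2 / q ^ 2) * B.card +
        q ^ 3 * ∑ τ ∈ labels P R, ((confl P τ).card : ℝ) ^ 2 +
        q ^ 10 * ∑ τ ∈ labels P R, ((confl P τ).card : ℝ) ^ 4 +
        ∑ τ ∈ labels P R, ((confl P τ).card : ℝ) ^ 1 +
        ∑ h ∈ B, √((confl P (lab P R (X h))).card : ℝ)) := by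
    intro R
    refine (zero_part hP B X (fun h _ => ⟨hXg h, hX h⟩) R).trans ?_
    have e1 : ∀ τ ∈ labels P R, ∑ h ∈ B.filter (fun h => lab P R (X h) = τ),
        ((confl P τ ∩ pts P h).card : ℝ) ≤ 72000 * (s : ℝ) ^ 2 *
          ((2 / q ^ 2) * (B.filter (fun h => lab P R (X h) = τ)).card +
            q ^ 3 * ((confl P τ).card : ℝ) ^ 2 + q ^ 10 * ((confl P τ).card : ℝ) ^ 4 +
            (confl P τ).card + √((confl P τ).card : ℝ) *
              (B.filter (fun h => lab P R (X h) = τ)).card) := by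
      intro τ _
      have hsub : (confl P τ).image P ⊆ A := by
        intro x hx
        obtain ⟨i, -, rfl⟩ := Finset.mem_image.1 hx
        exact enum_mem A i
      have h3 := cell2 hs (hB.mono (Finset.filter_subset (fun h => lab P R (X h) = τ) B))
        (hf.subset hsub (Finset.filter_subset (fun h => lab P R (X h) = τ) B)) hq
      rw [inc_image hinj, Finset.card_image_of_injective _ hinj] at h3
      push_cast at h3
      exact h3
    refine (Finset.sum_le_sum e1).trans (le_of_eq ?_)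
    rw [← Finset.mul_sum]
    congr 1
    rw [Finset.sum_add_distrib, Finset.sum_add_distrib, Finset.sum_add_distrib,
      Finset.sum_add_distrib, ← Finset.mul_sum, ← Finset.mul_sum, ← Finset.mul_sum]
    have e2 : ∑ τ ∈ labels P R, ((B.filter (fun h => lab P R (X h) = τ)).card : ℝ) =
        (B.card : ℝ) := by
      rw [← Nat.cast_sum]
      congr 1
      exact (Finset.card_eq_sum_card_fiberwise
        (f := fun h => lab P R (X h)) fun h _ => lab_mem_labels (hXg h)).symm
    have e3 : ∑ τ ∈ labels P R, √((confl P τ).card : ℝ) *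
          ((B.filter (fun h => lab P R (X h) = τ)).card : ℝ) =
        ∑ h ∈ B, √((confl P (lab P R (X h))).card : ℝ) := by
      rw [← Finset.sum_fiberwise_of_maps_to (s := B) (t := labels P R)
        (g := fun h => lab P R (X h)) (f := fun h => √((confl P (lab P R (X h))).card : ℝ))
        (fun h _ => lab_mem_labels (hXg h))]
      refine Finset.sum_congr rfl fun τ _ => ?_
      have : ∀ h ∈ B.filter (fun h => lab P R (X h) = τ),
          √((confl P (lab P R (X h))).card : ℝ) = √((confl P τ).card : ℝ) := by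
        intro h hh
        rw [(Finset.mem_filter.1 hh).2]
      rw [Finset.sum_congr rfl this, Finset.sum_const, nsmul_eq_mul, mul_comm]
    rw [e2, e3]
    simp only [pow_one]
  have hmom : ∀ j : ℕ, Ex p (fun R => ∑ τ ∈ labels P R, ((confl P τ).card : ℝ) ^ j) ≤
      5952 * (j.factorial : ℝ) * (2 / p) ^ j * r ^ 3 := by
    intro j
    have := moment_labels hP h0 h1 (by rw [hmp]; exact hr) j
    rwa [hmp] at this
  have hmom1 : Ex p (fun R => ∑ τ ∈ labels P R, ((confl P τ).card : ℝ) ^ 1) ≤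
      11904 * (m * r ^ 2) := by
    refine (hmom 1).trans (le_of_eq ?_)
    rw [Nat.factorial_one, hpdef]
    field_simp
    norm_num
  have hmom2 : Ex p (fun R => ∑ τ ∈ labels P R, ((confl P τ).card : ℝ) ^ 2) ≤
      47616 * ((m : ℝ) ^ 2 * r) := by
    refine (hmom 2).trans (le_of_eq ?_)
    rw [show Nat.factorial 2 = 2 from rfl, hpdef]
    field_simp
    norm_num
  have hmom4 : Ex p (fun R => ∑ τ ∈ labels P R, ((confl P τ).card : ℝ) ^ 4) ≤
      2285568 * ((m : ℝ) ^ 4 / r) := by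
    refine (hmom 4).trans (le_of_eq ?_)
    rw [show Nat.factorial 4 = 24 from rfl, hpdef]
    field_simp
    norm_num
  have hpt : ∀ h : V3, Ex p (fun R => √((confl P (lab P R (X h))).card : ℝ)) ≤
      √(128 * (m / r)) := by
    intro h
    refine (Ex_sqrt_le h0.le h1 fun R => by positivity).trans ?_
    apply Real.sqrt_le_sqrt
    refine (moment_point hP h0 h1 (hXg h)).trans (le_of_eq ?_)
    rw [hpdef]; field_simp
  have hzero : Ex p (fun R => ∑ h ∈ B, if (R ∩ pts P h).card = 0 then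
      ((pts P h).card : ℝ) else 0) ≤ 72000 * (s : ℝ) ^ 2 * ((2 / q ^ 2) * B.card +
        q ^ 3 * (47616 * ((m : ℝ) ^ 2 * r)) + q ^ 10 * (2285568 * ((m : ℝ) ^ 4 / r)) +
        11904 * (m * r ^ 2) + B.card * √(128 * (m / r))) := by
    refine (Ex_mono h0.le h1 hcell).trans ?_
    rw [Ex_mul]
    apply mul_le_mul_of_nonneg_left _ (by positivity)
    rw [Ex_add, Ex_add, Ex_add, Ex_add, Ex_const, Ex_mul, Ex_mul]
    refine add_le_add (add_le_add (add_le_add (add_le_add le_rfl ?_) ?_) hmom1) ?_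
    · exact mul_le_mul_of_nonneg_left hmom2 (by positivity)
    · exact mul_le_mul_of_nonneg_left hmom4 (by positivity)
    · rw [Ex_sum]
      refine (Finset.sum_le_sum fun h _ => hpt h).trans ?_
      rw [Finset.sum_const, nsmul_eq_mul]
  rw [inc_enum]
  linarith

end Pool.Agent.Lib.MP_0f9b7a_co
end

section
/-!
# Optimizing the second upper bound
-/
set_option autoImplicit false

namespace Pool.Agent.Lib.MP_0f9b7a_co

open scoped Classical

/-- Optimized second bound: at most as many planes as points, `z ^ 7 ≥ w ^ 4`. -/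
theorem optB {s : ℕ} (hs : 2 ≤ s) {A B : Finset V3} (hA : GenSl A) (hB : GenSl B)
    (hf : Free s s A B) {w z : ℝ} (hz : 1 ≤ z) (hzw : z ≤ w) (hw : w ^ 17 = A.card)
    (hzB : z ^ 17 = B.card) (h74 : w ^ 4 ≤ z ^ 7) :
    (inc A B : ℝ) ≤ 400000000000 * (s : ℝ) ^ 2 * (w ^ 12 * z ^ 13) := by
  have hw1 : 1 ≤ w := hz.trans hzw
  have hz0 : 0 < z := by linarith
  have hw0 : 0 < w := by linarith
  have hs2 : (2 : ℝ) ≤ s := by exact_mod_cast hs
  set T : ℝ := w ^ 12 * z ^ 13 with hT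
  have hT0 : 0 < T := by positivity
  have hr1 : 1 ≤ z ^ 7 / w ^ 4 := by rw [one_le_div (by positivity)]; exact h74
  have hrm : z ^ 7 / w ^ 4 ≤ A.card := by
    rw [← hw, div_le_iff₀ (by positivity)]
    calc z ^ 7 ≤ w ^ 7 := pow_le_pow_left₀ hz0.le hzw 7
      _ ≤ w ^ 21 := pow_le_pow_right₀ hw1 (by norm_num)
      _ = w ^ 17 * w ^ 4 := by ring
  have h := levelB hs hA hB hf hr1 hrm (q := z ^ 2 / w ^ 6) (by positivity)
  rw [← hw, ← hzB] at h
  have e1 : (2 / (z ^ 2 / w ^ 6) ^ 2) * z ^ 17 = 2 * T := by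
    rw [hT]; field_simp
  have e2 : (z ^ 2 / w ^ 6) ^ 3 * (47616 * ((w ^ 17) ^ 2 * (z ^ 7 / w ^ 4))) = 47616 * T := by
    rw [hT]; field_simp
  have e3 : (z ^ 2 / w ^ 6) ^ 10 * (2285568 * ((w ^ 17) ^ 4 / (z ^ 7 / w ^ 4))) =
      2285568 * T := by
    rw [hT]; field_simp
  have hz3 : z ≤ w ^ 3 := by
    calc z ≤ w := hzw
      _ = w ^ 1 := by ring
      _ ≤ w ^ 3 := pow_le_pow_right₀ hw1 (by norm_num)
  have e4 : w ^ 17 * (z ^ 7 / w ^ 4) ^ 2 ≤ T := by
    have : w ^ 17 * (z ^ 7 / w ^ 4) ^ 2 = w ^ 9 * z ^ 13 * z := by field_simp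
    rw [this]
    calc w ^ 9 * z ^ 13 * z ≤ w ^ 9 * z ^ 13 * w ^ 3 := by gcongr
      _ = T := by rw [hT]; ring
  have e5 : z ^ 17 * √(128 * (w ^ 17 / (z ^ 7 / w ^ 4))) ≤ 12 * T := by
    have h1 : √(128 * (w ^ 17 / (z ^ 7 / w ^ 4))) ≤ 12 * (w ^ 12 / z ^ 4) := by
      rw [Real.sqrt_le_left (by positivity)]
      have h2 : 128 * (w ^ 17 / (z ^ 7 / w ^ 4)) = 128 * (w ^ 21 * z) / z ^ 8 := by field_simp
      have h3 : (12 * (w ^ 12 / z ^ 4)) ^ 2 = 144 * w ^ 24 / z ^ 8 := by field_simp; norm_num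
      rw [h2, h3]
      apply div_le_div_of_nonneg_right _ (by positivity)
      have h4 : w ^ 21 * z ≤ w ^ 24 := by
        calc w ^ 21 * z ≤ w ^ 21 * w ^ 3 := by gcongr
          _ = w ^ 24 := by ring
      have h5 : 0 ≤ w ^ 24 := by positivity
      linarith
    calc z ^ 17 * √(128 * (w ^ 17 / (z ^ 7 / w ^ 4))) ≤ z ^ 17 * (12 * (w ^ 12 / z ^ 4)) := by
          gcongr
      _ = 12 * T := by rw [hT]; field_simp
  have e6 : z ^ 17 ≤ T := by
    calc z ^ 17 = z ^ 4 * z ^ 13 := by ring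
      _ ≤ (w ^ 3) ^ 4 * z ^ 13 := by gcongr
      _ = T := by rw [hT]; ring
  rw [e1, e2, e3] at h
  have h7 : 144000 * (s : ℝ) ^ 2 * (2 * T + 47616 * T + 2285568 * T +
      11904 * (w ^ 17 * (z ^ 7 / w ^ 4) ^ 2) +
      z ^ 17 * √(128 * (w ^ 17 / (z ^ 7 / w ^ 4)))) ≤
      144000 * (s : ℝ) ^ 2 * (2345102 * T) := by
    apply mul_le_mul_of_nonneg_left _ (by positivity)
    linarith
  have h8 : (1 + 2 * (s : ℝ)) * z ^ 17 ≤ (1 + 2 * (s : ℝ)) * T :=
    mul_le_mul_of_nonneg_left e6 (by positivity)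
  have h9 : 2 * (s : ℝ) * (w ^ 17 * (z ^ 7 / w ^ 4) ^ 2) ≤ 2 * (s : ℝ) * T :=
    mul_le_mul_of_nonneg_left e4 (by positivity)
  have h10 : (1 + 2 * (s : ℝ)) * T + 2 * (s : ℝ) * T ≤ 3 * ((s : ℝ) ^ 2 * T) := by
    have : (1 + 4 * (s : ℝ)) ≤ 3 * (s : ℝ) ^ 2 := by nlinarith
    nlinarith
  have h11 : 0 ≤ (s : ℝ) ^ 2 * T := by positivity
  linarith

theorem rpow_root {k : ℕ} {x a : ℝ} (hk : k ≠ 0) (hx : 0 ≤ x) (h : x ^ k = a) (i : ℕ) :
    x ^ i = a ^ ((i : ℝ) / k) := by
  rw [← h, ← Real.rpow_natCast x k, ← Real.rpow_mul hx, ← Real.rpow_natCast x i]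
  congr 1
  have : (k : ℝ) ≠ 0 := by exact_mod_cast hk
  field_simp

/-- Upper bound for all `s ≥ 2`, at most as many planes as points. -/
theorem upper_set_aux {s : ℕ} (hs : 2 ≤ s) {A B : Finset V3} (hA : GenSl A) (hB : GenSl B)
    (hf : Free s s A B) (hB1 : 1 ≤ B.card) (hBA : B.card ≤ A.card) :
    (inc A B : ℝ) ≤ 400000000000 * (s : ℝ) ^ 2 *
      ((B.card : ℝ) ^ (3 / 5 : ℝ) * (A.card : ℝ) ^ (4 / 5 : ℝ) +
        (B.card : ℝ) ^ (13 / 17 : ℝ) * (A.card : ℝ) ^ (12 / 17 : ℝ) + A.card) := by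
  obtain ⟨w, hw1, hw⟩ := root_exists 17 A.card (by norm_num) (hB1.trans hBA)
  obtain ⟨z, hz1, hz⟩ := root_exists 17 B.card (by norm_num) hB1
  obtain ⟨u, hu1, hu⟩ := root_exists 30 B.card (by norm_num) hB1
  obtain ⟨v, hv1, hv⟩ := root_exists 30 A.card (by norm_num) (hB1.trans hBA)
  have hw0 : 0 < w := by linarith
  have hz0 : 0 < z := by linarith
  have hu0 : 0 < u := by linarith
  have hv0 : 0 < v := by linarith
  have hBA' : (B.card : ℝ) ≤ A.card := by exact_mod_cast hBA
  have t1 : (B.card : ℝ) ^ (3 / 5 : ℝ) = u ^ 18 := by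
    rw [rpow_root (by norm_num) hu0.le hu 18]; norm_num
  have t2 : (A.card : ℝ) ^ (4 / 5 : ℝ) = v ^ 24 := by
    rw [rpow_root (by norm_num) hv0.le hv 24]; norm_num
  have t3 : (B.card : ℝ) ^ (13 / 17 : ℝ) = z ^ 13 := by
    rw [rpow_root (by norm_num) hz0.le hz 13]; norm_num
  have t4 : (A.card : ℝ) ^ (12 / 17 : ℝ) = w ^ 12 := by
    rw [rpow_root (by norm_num) hw0.le hw 12]; norm_num
  rw [t1, t2, t3, t4]
  have hA0 : (0 : ℝ) ≤ A.card := Nat.cast_nonneg _
  have q1 : 0 ≤ u ^ 18 * v ^ 24 := by positivity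
  have q2 : 0 ≤ z ^ 13 * w ^ 12 := by positivity
  rcases le_or_gt (w ^ 4) (z ^ 7) with h74 | h74
  · have hzw : z ≤ w := by
      have : z ^ 17 ≤ w ^ 17 := by rw [hw, hz]; exact hBA'
      exact le_of_pow_le_pow_left₀ (by norm_num) hw0.le this
    refine (optB hs hA hB hf hz1 hzw hw hz h74).trans ?_
    apply mul_le_mul_of_nonneg_left _ (by positivity)
    have : w ^ 12 * z ^ 13 = z ^ 13 * w ^ 12 := by ring
    linarith
  · have huv : u ≤ v := by
      have : u ^ 30 ≤ v ^ 30 := by rw [hu, hv]; exact hBA'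
      exact le_of_pow_le_pow_left₀ (by norm_num) hv0.le this
    have h2 := optThree hs (hB.dualize) (free_dualize hf) hu1 huv
      (by rw [hu, Finset.card_image_of_injective _ dualize_injective])
      (by rw [hv, Finset.card_image_of_injective _ dualize_injective])
    rw [inc_image_dualize] at h2
    have h47 : u ^ 7 ≤ v ^ 4 := by
      have h3 : (u ^ 7) ^ 30 ≤ (v ^ 4) ^ 30 := by
        calc (u ^ 7) ^ 30 = (u ^ 30) ^ 7 := by ring
          _ = (z ^ 7) ^ 17 := by rw [hu, ← hz]; ring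
          _ ≤ (w ^ 4) ^ 17 := pow_le_pow_left₀ (by positivity) h74.le 17
          _ = (w ^ 17) ^ 4 := by ring
          _ = (v ^ 4) ^ 30 := by rw [hw, ← hv]; ring
      exact le_of_pow_le_pow_left₀ (by norm_num) (by positivity) h3
    have h5 : u ^ 25 * v ^ 20 ≤ u ^ 18 * v ^ 24 := by
      calc u ^ 25 * v ^ 20 = u ^ 18 * v ^ 20 * u ^ 7 := by ring
        _ ≤ u ^ 18 * v ^ 20 * v ^ 4 := by gcongr
        _ = u ^ 18 * v ^ 24 := by ring
    rw [hv] at h2
    refine h2.trans ?_
    have h6 : 72000 * (s : ℝ) ^ 2 * (u ^ 18 * v ^ 24 + u ^ 25 * v ^ 20 + A.card) ≤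
        72000 * (s : ℝ) ^ 2 * (2 * (u ^ 18 * v ^ 24 + z ^ 13 * w ^ 12 + A.card)) := by
      apply mul_le_mul_of_nonneg_left _ (by positivity)
      linarith
    refine h6.trans ?_
    have h7 : 0 ≤ (s : ℝ) ^ 2 * (u ^ 18 * v ^ 24 + z ^ 13 * w ^ 12 + A.card) := by positivity
    nlinarith

/-- The upper bound in symmetric form. -/
theorem upper_set {s : ℕ} (hs : 2 ≤ s) {A B : Finset V3} (hA : GenSl A) (hB : GenSl B)
    (hf : Free s s A B) (hA1 : 1 ≤ A.card) (hB1 : 1 ≤ B.card) :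
    (inc A B : ℝ) ≤ 400000000000 * (s : ℝ) ^ 2 *
      ((min (A.card : ℝ) B.card) ^ (3 / 5 : ℝ) * (max (A.card : ℝ) B.card) ^ (4 / 5 : ℝ) +
        (min (A.card : ℝ) B.card) ^ (13 / 17 : ℝ) * (max (A.card : ℝ) B.card) ^ (12 / 17 : ℝ) +
        max (A.card : ℝ) B.card) := by
  rcases le_total B.card A.card with h | h
  · have h' : (B.card : ℝ) ≤ A.card := by exact_mod_cast h
    rw [min_eq_right h', max_eq_left h']
    exact upper_set_aux hs hA hB hf hB1 h
  · have h' : (A.card : ℝ) ≤ B.card := by exact_mod_cast h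
    rw [min_eq_left h', max_eq_right h']
    have h2 := upper_set_aux hs (hB.dualize) (hA.dualize) (free_dualize hf)
      (by rw [Finset.card_image_of_injective _ dualize_injective]; exact hA1)
      (by rw [Finset.card_image_of_injective _ dualize_injective,
        Finset.card_image_of_injective _ dualize_injective]; exact h)
    rw [inc_image_dualize, Finset.card_image_of_injective _ dualize_injective,
        Finset.card_image_of_injective _ dualize_injective] at h2
    exact h2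

/-- The upper bound for `s = 2`, one half. -/
theorem upper_two_aux {A B : Finset V3} (hA : GenSl A) (hf : Free 2 2 A B)
    (hA1 : 1 ≤ A.card) (hB1 : 1 ≤ B.card) :
    (inc A B : ℝ) ≤ 142860 * ((A.card : ℝ) ^ (3 / 5 : ℝ) * (B.card : ℝ) ^ (4 / 5 : ℝ) +
      A.card + B.card) := by
  obtain ⟨x, hx1, hx⟩ := root_exists 5 A.card (by norm_num) hA1
  obtain ⟨y, hy1, hy⟩ := root_exists 5 B.card (by norm_num) hB1
  have t1 : (A.card : ℝ) ^ (3 / 5 : ℝ) = x ^ 3 := by
    rw [rpow_root (by norm_num) (by linarith) hx 3]; norm_num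
  have t2 : (B.card : ℝ) ^ (4 / 5 : ℝ) = y ^ 4 := by
    rw [rpow_root (by norm_num) (by linarith) hy 4]; norm_num
  rw [t1, t2]
  exact optTwo hA hf hx1 hy1 hx hy

/-- The upper bound for `s = 2`. -/
theorem upper_two_set {A B : Finset V3} (hA : GenSl A) (hB : GenSl B) (hf : Free 2 2 A B)
    (hA1 : 1 ≤ A.card) (hB1 : 1 ≤ B.card) :
    (inc A B : ℝ) ≤ 142860 * (min ((A.card : ℝ) ^ (3 / 5 : ℝ) * (B.card : ℝ) ^ (4 / 5 : ℝ))
      ((A.card : ℝ) ^ (4 / 5 : ℝ) * (B.card : ℝ) ^ (3 / 5 : ℝ)) + A.card + B.card) := by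
  have h1 := upper_two_aux hA hf hA1 hB1
  have h2 := upper_two_aux hB.dualize (free_dualize hf)
      (by rw [Finset.card_image_of_injective _ dualize_injective]; exact hB1)
      (by rw [Finset.card_image_of_injective _ dualize_injective]; exact hA1)
  rw [inc_image_dualize, Finset.card_image_of_injective _ dualize_injective,
        Finset.card_image_of_injective _ dualize_injective] at h2
  rcases min_choice ((A.card : ℝ) ^ (3 / 5 : ℝ) * (B.card : ℝ) ^ (4 / 5 : ℝ))
      ((A.card : ℝ) ^ (4 / 5 : ℝ) * (B.card : ℝ) ^ (3 / 5 : ℝ)) with h | h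
  · rw [h]; exact h1
  · rw [h]
    have : (B.card : ℝ) ^ (3 / 5 : ℝ) * (A.card : ℝ) ^ (4 / 5 : ℝ) =
      (A.card : ℝ) ^ (4 / 5 : ℝ) * (B.card : ℝ) ^ (3 / 5 : ℝ) := mul_comm _ _
    linarith

end Pool.Agent.Lib.MP_0f9b7a_co
end

section
/-!
# Reduction of the general problem to planes in graph form with generic slopes
-/
set_option autoImplicit false

namespace Pool.Agent.Lib.MP_0f9b7a_co

open scoped Classical

/-- The two configurations have the same incidence structure. -/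
structure Transf (A B A' B' : Finset V3) : Prop where
  cardA : A'.card = A.card
  cardB : B'.card = B.card
  inc : inc A' B' = inc A B
  free : ∀ s, Free s s A B → Free s s A' B'

theorem Transf.trans {A B A' B' A'' B'' : Finset V3} (h : Transf A B A' B')
    (h' : Transf A' B' A'' B'') : Transf A B A'' B'' :=
  ⟨h'.cardA.trans h.cardA, h'.cardB.trans h.cardB, h'.inc.trans h.inc,
    fun s hs => h'.free s (h.free s hs)⟩

theorem transf_image {A B : Finset V3} {φ ψ : V3 → V3} (hφ : Function.Injective φ)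
    (hψ : Function.Injective ψ) (h : ∀ v w, Inc (φ v) (ψ w) ↔ Inc v w) :
    Transf A B (A.image φ) (B.image ψ) := by
  refine ⟨Finset.card_image_of_injective _ hφ, Finset.card_image_of_injective _ hψ, ?_, ?_⟩
  · unfold inc
    symm
    apply Finset.card_bij (fun q _ => (φ q.1, ψ q.2))
    · intro q hq
      simp only [Finset.mem_filter, Finset.mem_product, Finset.mem_image] at hq ⊢
      exact ⟨⟨⟨_, hq.1.1, rfl⟩, ⟨_, hq.1.2, rfl⟩⟩, (h _ _).2 hq.2⟩
    · intro q _ q' _ he
      simp only [Prod.mk.injEq] at he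
      exact Prod.ext (hφ he.1) (hψ he.2)
    · intro q hq
      simp only [Finset.mem_filter, Finset.mem_product, Finset.mem_image] at hq
      obtain ⟨⟨⟨v, hv, hv'⟩, ⟨w, hw, hw'⟩⟩, h1⟩ := hq
      refine ⟨(v, w), ?_, ?_⟩
      · simp only [Finset.mem_filter, Finset.mem_product]
        exact ⟨⟨hv, hw⟩, by rw [← h, hv', hw']; exact h1⟩
      · simp only [hv', hw']
  · intro s hs A' hA' B' hB' hAc hBc
    obtain ⟨A₀, hA₀, rfl⟩ := Finset.subset_image_iff.1 hA'
    obtain ⟨B₀, hB₀, rfl⟩ := Finset.subset_image_iff.1 hB'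
    rw [Finset.card_image_of_injective _ hφ] at hAc
    rw [Finset.card_image_of_injective _ hψ] at hBc
    obtain ⟨p, hp, q, hq, hpq⟩ := hs A₀ hA₀ B₀ hB₀ hAc hBc
    exact ⟨φ p, Finset.mem_image_of_mem _ hp, ψ q, Finset.mem_image_of_mem _ hq,
      fun hh => hpq ((h p q).1 hh)⟩

/-- A real number outside a finite set of ratios. -/
theorem exists_good (S : Finset V3) : ∃ c : ℝ, ∀ p ∈ S, ∀ q ∈ S,
    p.2.1 + c * p.1 = q.2.1 + c * q.1 → p.1 = q.1 := by
  obtain ⟨c, hc⟩ := ((S ×ˢ S).image fun u => (u.2.2.1 - u.1.2.1) / (u.1.1 - u.2.1)).exists_notMem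
  refine ⟨c, fun p hp q hq h => ?_⟩
  by_contra hne
  apply hc
  refine Finset.mem_image.2 ⟨(p, q), Finset.mem_product.2 ⟨hp, hq⟩, ?_⟩
  simp only
  rw [div_eq_iff (sub_ne_zero.2 hne)]
  linarith

/-- Generic slopes can be achieved by shears. -/
theorem genericize (A B : Finset V3) :
    ∃ A' B', Transf A B A' B' ∧ GenSl A' ∧ GenSl B' := by
  obtain ⟨c, hc⟩ := exists_good B
  -- the shear making the planes generic
  let φ₁ : V3 → V3 := fun v => (v.1 - c * v.2.1, v.2.1, v.2.2)
  let ψ₁ : V3 → V3 := fun w => (w.1, w.2.1 + c * w.1, w.2.2)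
  have hφ₁ : Function.Injective φ₁ := by
    intro v w h
    simp only [φ₁, Prod.mk.injEq] at h
    obtain ⟨h1, h2, h3⟩ := h
    rw [h2] at h1
    exact Prod.ext (by linarith) (Prod.ext h2 h3)
  have hψ₁ : Function.Injective ψ₁ := by
    intro v w h
    simp only [ψ₁, Prod.mk.injEq] at h
    obtain ⟨h1, h2, h3⟩ := h
    rw [h1] at h2
    exact Prod.ext h1 (Prod.ext (by linarith) h3)
  have t1 : Transf A B (A.image φ₁) (B.image ψ₁) := by
    apply transf_image hφ₁ hψ₁
    intro v w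
    unfold Inc
    simp only [φ₁, ψ₁]
    constructor <;> intro h <;> linarith
  have g1 : GenSl (B.image ψ₁) := by
    intro p hp q hq hpq
    obtain ⟨p', hp', rfl⟩ := Finset.mem_image.1 hp
    obtain ⟨q', hq', rfl⟩ := Finset.mem_image.1 hq
    exact hc p' hp' q' hq' hpq
  obtain ⟨d, hd⟩ := exists_good (A.image φ₁)
  let φ₂ : V3 → V3 := fun v => (v.1, v.2.1 + d * v.1, v.2.2)
  let ψ₂ : V3 → V3 := fun w => (w.1 - d * w.2.1, w.2.1, w.2.2)
  have hφ₂ : Function.Injective φ₂ := by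
    intro v w h
    simp only [φ₂, Prod.mk.injEq] at h
    obtain ⟨h1, h2, h3⟩ := h
    rw [h1] at h2
    exact Prod.ext h1 (Prod.ext (by linarith) h3)
  have hψ₂ : Function.Injective ψ₂ := by
    intro v w h
    simp only [ψ₂, Prod.mk.injEq] at h
    obtain ⟨h1, h2, h3⟩ := h
    rw [h2] at h1
    exact Prod.ext (by linarith) (Prod.ext h2 h3)
  have t2 : Transf (A.image φ₁) (B.image ψ₁) ((A.image φ₁).image φ₂) ((B.image ψ₁).image ψ₂) := by
    apply transf_image hφ₂ hψ₂
    intro v w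
    unfold Inc
    simp only [φ₂, ψ₂]
    constructor <;> intro h <;> linarith
  refine ⟨_, _, t1.trans t2, ?_, ?_⟩
  · intro p hp q hq hpq
    obtain ⟨p', hp', rfl⟩ := Finset.mem_image.1 hp
    obtain ⟨q', hq', rfl⟩ := Finset.mem_image.1 hq
    exact hd p' hp' q' hq' hpq
  · intro p hp q hq hpq
    obtain ⟨p', hp', rfl⟩ := Finset.mem_image.1 hp
    obtain ⟨q', hq', rfl⟩ := Finset.mem_image.1 hq
    have h1 : p'.2.1 = q'.2.1 := hpq
    have h2 := g1 p' hp' q' hq' h1
    simp only [ψ₂]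
    rw [h1, h2]

/-! ### From planes in Euclidean space to graph form -/

/-- Equation of a plane. -/
theorem exists_eqn {h : AffineSubspace ℝ R3} (hh : IsPlane h) :
    ∃ (n : V3) (d : ℝ), n ≠ 0 ∧ ∀ v : R3, v ∈ h ↔ n.1 * v 0 + n.2.1 * v 1 + n.2.2 * v 2 = d := by
  obtain ⟨⟨p₀, hp₀⟩, hrank⟩ := hh
  have h3 : Module.finrank ℝ R3 = 3 := by simp
  have h1 := Submodule.finrank_add_finrank_orthogonal h.direction
  rw [hrank, h3] at h1
  have h2 : Module.finrank ℝ h.directionᗮ = 1 := by omega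
  have hne : h.directionᗮ ≠ ⊥ := by
    intro h0
    rw [h0, finrank_bot] at h2
    omega
  obtain ⟨n, hn, hn0⟩ := Submodule.exists_mem_ne_zero_of_ne_bot hne
  have hdir : h.direction = (ℝ ∙ n)ᗮ := by
    apply Submodule.eq_of_le_of_finrank_eq
    · intro v hv
      rw [Submodule.mem_orthogonal_singleton_iff_inner_right]
      exact (Submodule.mem_orthogonal' _ _).1 hn v hv
    · have h4 := Submodule.finrank_add_finrank_orthogonal (ℝ ∙ n)
      rw [finrank_span_singleton hn0, h3] at h4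
      omega
  have hinner : ∀ v : R3, inner ℝ n v = n 0 * v 0 + n 1 * v 1 + n 2 * v 2 := by
    intro v
    simp [PiLp.inner_apply, Fin.sum_univ_three]
    ring
  refine ⟨(n 0, n 1, n 2), inner ℝ n p₀, ?_, ?_⟩
  · intro h0
    apply hn0
    simp only [Prod.mk_eq_zero] at h0
    ext i
    fin_cases i
    · exact h0.1
    · exact h0.2.1
    · exact h0.2.2
  · intro v
    have h5 : v ∈ h ↔ v -ᵥ p₀ ∈ h.direction := by
      rw [AffineSubspace.vsub_right_mem_direction_iff_mem hp₀]
    rw [h5, hdir, Submodule.mem_orthogonal_singleton_iff_inner_right, vsub_eq_sub, inner_sub_right,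
      sub_eq_zero, hinner v]

theorem quad_finite {a b c : ℝ} (h : ¬ (a = 0 ∧ b = 0 ∧ c = 0)) :
    {t : ℝ | a * t + b * t ^ 2 + c = 0}.Finite := by
  let f : Polynomial ℝ := Polynomial.C b * Polynomial.X ^ 2 + Polynomial.C a * Polynomial.X +
    Polynomial.C c
  have hf : f ≠ 0 := by
    intro h0
    apply h
    have h1 : f.coeff 1 = a := by
      simp [f, Polynomial.coeff_C]
    have h2 : f.coeff 2 = b := by
      simp [f, Polynomial.coeff_X, Polynomial.coeff_C]
    have h3 : f.coeff 0 = c := by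
      simp [f]
    rw [h0] at h1 h2 h3
    simp only [Polynomial.coeff_zero] at h1 h2 h3
    exact ⟨h1.symm, h2.symm, h3.symm⟩
  refine (Polynomial.finite_setOfPred_isRoot hf).subset ?_
  intro t ht
  simp only [Set.mem_ofPred_eq] at ht ⊢
  simp only [Polynomial.IsRoot, f, Polynomial.eval_add, Polynomial.eval_mul, Polynomial.eval_C,
    Polynomial.eval_pow, Polynomial.eval_X]
  linarith

/-- Every configuration has a coordinate form. -/
theorem to_V3 (Q : Finset R3) (H : Finset (AffineSubspace ℝ R3)) (hH : ∀ h ∈ H, IsPlane h) :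
    ∃ A B : Finset V3, A.card = Q.card ∧ B.card = H.card ∧ inc A B = incidences Q H ∧
      ∀ s, KFree s Q H → Free s s A B := by
  have heq : ∀ h : AffineSubspace ℝ R3, ∃ (n : V3) (d : ℝ), h ∈ H → (n ≠ 0 ∧
      ∀ v : R3, v ∈ h ↔ n.1 * v 0 + n.2.1 * v 1 + n.2.2 * v 2 = d) := by
    intro h
    by_cases hh : h ∈ H
    · obtain ⟨n, d, h1⟩ := exists_eqn (hH h hh)
      exact ⟨n, d, fun _ => h1⟩
    · exact ⟨0, 0, fun h' => absurd h' hh⟩
  choose n d hnd using heq
  have hfin : (⋃ h ∈ H, {t : ℝ | (n h).1 * t + (n h).2.1 * t ^ 2 + (n h).2.2 = 0}).Finite := by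
    apply Set.Finite.biUnion H.finite_toSet
    intro h hh
    apply quad_finite
    rintro ⟨h1, h2, h3⟩
    exact (hnd h hh).1 (Prod.ext h1 (Prod.ext h2 h3))
  obtain ⟨t, ht⟩ := hfin.exists_notMem
  have ht' : ∀ h ∈ H, (n h).1 * t + (n h).2.1 * t ^ 2 + (n h).2.2 ≠ 0 := by
    intro h hh h0
    exact ht (Set.mem_biUnion (Finset.mem_coe.2 hh) h0)
  let φ : R3 → V3 := fun v => (v 0 - t * v 2, v 1 - t ^ 2 * v 2, v 2)
  let b : AffineSubspace ℝ R3 → ℝ := fun h => (n h).1 * t + (n h).2.1 * t ^ 2 + (n h).2.2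
  let ψ : AffineSubspace ℝ R3 → V3 := fun h =>
    (-(n h).1 / b h, -(n h).2.1 / b h, d h / b h)
  have hφ : Function.Injective φ := by
    intro v w h
    simp only [φ, Prod.mk.injEq] at h
    obtain ⟨h1, h2, h3⟩ := h
    rw [h3] at h1 h2
    ext i
    fin_cases i
    · show v 0 = w 0
      linarith
    · show v 1 = w 1
      linarith
    · exact h3
  have hinc : ∀ v : R3, ∀ h ∈ H, Inc (φ v) (ψ h) ↔ v ∈ h := by
    intro v h hh
    have hb : b h ≠ 0 := ht' h hh
    rw [(hnd h hh).2 v]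
    unfold Inc
    simp only [φ, ψ]
    have e : -(n h).1 / b h * (v 0 - t * v 2) + -(n h).2.1 / b h * (v 1 - t ^ 2 * v 2) +
        d h / b h = (-(n h).1 * (v 0 - t * v 2) - (n h).2.1 * (v 1 - t ^ 2 * v 2) + d h) / b h := by
      field_simp
      ring
    rw [e, eq_div_iff hb]
    simp only [b]
    constructor <;> intro h' <;> linarith
  have hψ : Set.InjOn ψ (H : Set (AffineSubspace ℝ R3)) := by
    intro h hh h' hh' he
    ext v
    rw [← hinc v h hh, ← hinc v h' hh', he]
  refine ⟨Q.image φ, H.image ψ, Finset.card_image_of_injective _ hφ,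
    Finset.card_image_of_injOn hψ, ?_, ?_⟩
  · unfold inc incidences
    symm
    apply Finset.card_bij (fun q _ => (φ q.1, ψ q.2))
    · intro q hq
      simp only [Finset.mem_filter, Finset.mem_product, Finset.mem_image] at hq ⊢
      exact ⟨⟨⟨_, hq.1.1, rfl⟩, ⟨_, hq.1.2, rfl⟩⟩, (hinc _ _ hq.1.2).2 hq.2⟩
    · intro q hq q' hq' he
      simp only [Finset.mem_filter, Finset.mem_product] at hq hq'
      simp only [Prod.mk.injEq] at he
      exact Prod.ext (hφ he.1) (hψ hq.1.2 hq'.1.2 he.2)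
    · intro q hq
      simp only [Finset.mem_filter, Finset.mem_product, Finset.mem_image] at hq
      obtain ⟨⟨⟨v, hv, hv'⟩, ⟨w, hw, hw'⟩⟩, h1⟩ := hq
      refine ⟨(v, w), ?_, ?_⟩
      · simp only [Finset.mem_filter, Finset.mem_product]
        exact ⟨⟨hv, hw⟩, by rw [← hinc v w hw, hv', hw']; exact h1⟩
      · simp only [hv', hw']
  · intro s hs A' hA' B' hB' hAc hBc
    obtain ⟨A₀, hA₀, rfl⟩ := Finset.subset_image_iff.1 hA'
    obtain ⟨B₀, hB₀, rfl⟩ := Finset.subset_image_iff.1 hB'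
    rw [Finset.card_image_of_injective _ hφ] at hAc
    have hB₀' : B₀ ⊆ H := by exact_mod_cast hB₀
    rw [Finset.card_image_of_injOn (hψ.mono (by exact_mod_cast hB₀'))] at hBc
    obtain ⟨p, hp, q, hq, hpq⟩ := hs A₀ (by exact_mod_cast hA₀) B₀ hB₀' hAc hBc
    exact ⟨φ p, Finset.mem_image_of_mem _ hp, ψ q, Finset.mem_image_of_mem _ hq,
      fun hh => hpq ((hinc p q (hB₀' hq)).1 hh)⟩

/-- Reduction to coordinate form with generic slopes. -/
theorem f_le_of_set {s m n : ℕ} {C : ℝ} (hC : 0 ≤ C)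
    (h : ∀ A B : Finset V3, GenSl A → GenSl B → Free s s A B → A.card = m → B.card = n →
      (inc A B : ℝ) ≤ C) : (f s m n : ℝ) ≤ C := by
  rcases Set.eq_empty_or_nonempty (values s m n) with h0 | h0
  · have : f s m n = 0 := by
      unfold f; rw [h0]; simp
    rw [this]; simpa using hC
  · have hmem := Nat.sSup_mem h0 (values_bddAbove s m n)
    obtain ⟨Q, H, hQ, hH, hpl, hfree, hval⟩ := hmem
    obtain ⟨A, B, hA, hB, hinc, hfr⟩ := to_V3 Q H hpl
    obtain ⟨A', B', ht, hgA, hgB⟩ := genericize A B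
    have h1 := h A' B' hgA hgB (ht.free s (hfr s hfree)) (by rw [ht.cardA, hA, hQ])
      (by rw [ht.cardB, hB, hH])
    rw [ht.inc, hinc, hval] at h1
    exact h1

/-- Upper bound for `s = 2`. -/
theorem upper_two (m n : ℕ) (hm : 1 ≤ m) (hn : 1 ≤ n) : (f 2 m n : ℝ) ≤
    142860 * (min ((m : ℝ) ^ (3 / 5 : ℝ) * (n : ℝ) ^ (4 / 5 : ℝ))
      ((m : ℝ) ^ (4 / 5 : ℝ) * (n : ℝ) ^ (3 / 5 : ℝ)) + m + n) := by
  apply f_le_of_set (by positivity)
  intro A B hA hB hf hAm hBn
  have := upper_two_set hA hB hf (by rw [hAm]; exact hm) (by rw [hBn]; exact hn)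
  rwa [hAm, hBn] at this

/-- Upper bound for all `s ≥ 2`. -/
theorem upper_all (s m n : ℕ) (hs : 2 ≤ s) (hm : 1 ≤ m) (hn : 1 ≤ n) : (f s m n : ℝ) ≤
    400000000000 * (s : ℝ) ^ 2 *
      ((min (m : ℝ) n) ^ (3 / 5 : ℝ) * (max (m : ℝ) n) ^ (4 / 5 : ℝ) +
        (min (m : ℝ) n) ^ (13 / 17 : ℝ) * (max (m : ℝ) n) ^ (12 / 17 : ℝ) +
        max (m : ℝ) n) := by
  apply f_le_of_set (by positivity)
  intro A B hA hB hf hAm hBn
  have := upper_set hs hA hB hf (by rw [hAm]; exact hm) (by rw [hBn]; exact hn)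
  rwa [hAm, hBn] at this

end Pool.Agent.Lib.MP_0f9b7a_co
end
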